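import Pool.Agent.MHN.Word

/-!
Module Conv (difficulty 4): a Morse element has virtually cyclic centralizer.

Let `K₀, C₀` be the constants of the quasi-isometric embedding, so
`wlen S (h^n) ≥ |n| / K₀ - C₀`; `η = wlen S h`, `wlen S (h^n) ≤ η |n|`. Suppose the relative index
is `0`. Then for every `R` there is `g` in the centralizer `Z` with `wlen S g ≥ R` and
`wlen S g = min_j wdist S g (h^j)`. A geodesic from `1` to `g`, the path `g h^i`, and the translate
by `h^n` of the reversed geodesic form a quasi-geodesic with constants independent of `g` and `n`,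
so the Morse property bounds `wlen S g`.
-/

set_option autoImplicit false

namespace Pool.Agent.MHN

/-- the path: geodesic to `g`, then along `g h^i`, then back -/
private noncomputable def Conv_v {G : Type*} [Group G] (g h : G) (c : ℕ → G) (D n : ℕ) (k : ℕ) : G :=
  if k ≤ D then c k else if k ≤ D + n then g * h ^ (k - D) else h ^ n * c (2 * D + n - k)

private theorem Conv_v1 {G : Type*} [Group G] (g h : G) (c : ℕ → G) (D n k : ℕ) (hk : k ≤ D) :
    Conv_v g h c D n k = c k := by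
  simp [Conv_v, hk]

private theorem Conv_v2 {G : Type*} [Group G] (g h : G) (c : ℕ → G) (D n k : ℕ) (hc : c D = g)
    (hk : k ≤ n) : Conv_v g h c D n (D + k) = g * h ^ k := by
  unfold Conv_v
  split_ifs with h1 h2
  · have : k = 0 := by omega
    subst this
    simp [hc]
  · congr 2
    omega
  · omega

private theorem Conv_v3 {G : Type*} [Group G] (g h : G) (c : ℕ → G) (D n k : ℕ) (hc : c D = g)
    (hgh : Commute g h) (hk : k ≤ D) :
    Conv_v g h c D n (D + n + k) = h ^ n * c (D - k) := by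
  unfold Conv_v
  split_ifs with h1 h2
  · have hk0 : k = 0 := by omega
    have hn : n = 0 := by omega
    subst hk0 hn
    simp
  · have hk0 : k = 0 := by omega
    subst hk0
    have : D + n + 0 - D = n := by omega
    rw [this, Nat.sub_zero, hc]
    exact (hgh.pow_right n).eq
  · congr 2
    omega

private theorem Conv_wlen_zpow_le {G : Type*} [Group G] {S : Finset G} (hS : Gen S) (h : G)
    (n : ℕ) : wlen S (h ^ n) ≤ n * wlen S h := by
  induction n with
  | zero => simp [wlen_one]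
  | succ n ih =>
    rw [pow_succ]
    calc wlen S (h ^ n * h) ≤ wlen S (h ^ n) + wlen S h := wlen_mul hS _ _
      _ ≤ n * wlen S h + wlen S h := by omega
      _ = (n + 1) * wlen S h := by ring

/-- distance of a power -/
private theorem Conv_zdist {G : Type*} [Group G] (S : Finset G) (h : G) (m n : ℕ) (hmn : m ≤ n) :
    wdist S (h ^ m) (h ^ n) = wlen S (h ^ (n - m)) := by
  have : h ^ n = h ^ m * h ^ (n - m) := by
    rw [← pow_add]
    congr 1
    omega
  rw [this]
  have h2 := wdist_left S (h ^ m) 1 (h ^ (n - m))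
  rw [mul_one, wdist_one] at h2
  exact h2

section
variable {G : Type*} [Group G] {S : Finset G}

/-- the hypotheses of the path -/
private structure Conv_H (S : Finset G) (g h : G) (c : ℕ → G) (D n : ℕ) (K₀ C₀ : ℝ) : Prop where
  gen : Gen S
  comm : Commute g h
  c0 : c 0 = 1
  cD : c D = g
  geo : ∀ i j, i ≤ j → j ≤ D → wdist S (c i) (c j) = j - i
  far : ∀ j : ℤ, D ≤ wdist S g (h ^ j)
  K1 : 1 ≤ K₀
  C1 : 0 ≤ C₀
  qi : ∀ k : ℕ, (k : ℝ) / K₀ - C₀ ≤ wlen S (h ^ k)
  nbig : 8 * K₀ * (D + C₀ + 1) ≤ n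

private theorem Conv_step {g h : G} {c : ℕ → G} {D n : ℕ} {K₀ C₀ : ℝ}
    (H : Conv_H S g h c D n K₀ C₀) (k : ℕ) (hk : k + 1 ≤ 2 * D + n) :
    wdist S (Conv_v g h c D n k) (Conv_v g h c D n (k + 1)) ≤ wlen S h + 1 := by
  rcases le_or_gt (k + 1) D with h1 | h1
  · rw [Conv_v1 g h c D n k (by omega), Conv_v1 g h c D n (k + 1) h1,
      H.geo k (k + 1) (by omega) h1]
    omega
  · rcases le_or_gt (k + 1) (D + n) with h2 | h2
    · obtain ⟨m, rfl⟩ : ∃ m, k = D + m := ⟨k - D, by omega⟩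
      rw [Conv_v2 g h c D n m H.cD (by omega), add_assoc,
        Conv_v2 g h c D n (m + 1) H.cD (by omega), wdist_left, Conv_zdist S h m (m + 1) (by omega)]
      have : m + 1 - m = 1 := by omega
      rw [this, pow_one]
      omega
    · obtain ⟨m, rfl⟩ : ∃ m, k = D + n + m := ⟨k - (D + n), by omega⟩
      rw [Conv_v3 g h c D n m H.cD H.comm (by omega), add_assoc (D + n),
        Conv_v3 g h c D n (m + 1) H.cD H.comm (by omega), wdist_left, wdist_comm,
        H.geo (D - (m + 1)) (D - m) (by omega) (by omega)]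
      omega

private theorem Conv_upper {g h : G} {c : ℕ → G} {D n : ℕ} {K₀ C₀ : ℝ}
    (H : Conv_H S g h c D n K₀ C₀) (i m : ℕ) (hm : i + m ≤ 2 * D + n) :
    wdist S (Conv_v g h c D n i) (Conv_v g h c D n (i + m)) ≤ m * (wlen S h + 1) := by
  induction m with
  | zero => simp [wdist_self]
  | succ m ih =>
    calc wdist S (Conv_v g h c D n i) (Conv_v g h c D n (i + (m + 1)))
        ≤ wdist S (Conv_v g h c D n i) (Conv_v g h c D n (i + m)) +
          wdist S (Conv_v g h c D n (i + m)) (Conv_v g h c D n (i + (m + 1))) :=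
          wdist_tri H.gen _ _ _
      _ ≤ m * (wlen S h + 1) + (wlen S h + 1) := by
          have h1 := ih (by omega)
          have h2 := Conv_step H (i + m) (by omega)
          rw [← add_assoc i m 1]
          omega
      _ = (m + 1) * (wlen S h + 1) := by ring

/-- first and middle piece -/
private theorem Conv_mid {g h : G} {c : ℕ → G} {D n : ℕ} {K₀ C₀ : ℝ}
    (H : Conv_H S g h c D n K₀ C₀) (i m : ℕ) (hi : i ≤ D) :
    ((D : ℝ) - i) + m / K₀ - C₀ ≤ 3 * (wdist S (c i) (g * h ^ m) : ℝ) := by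
  have e1 : wdist S (c 0) (c i) = i := by
    rw [H.geo 0 i (by omega) hi]; omega
  have e2 : wdist S (c i) (c D) = D - i := H.geo i D hi le_rfl
  have e3 : D ≤ wdist S (c 0) (g * h ^ m) := by
    have h1 := H.far (-(m : ℤ))
    have h2 : wdist S g (h ^ (-(m : ℤ))) = wdist S (c 0) (g * h ^ m) := by
      rw [H.c0, wdist_one, wdist_comm]
      unfold wdist
      congr 1
      rw [← zpow_neg, neg_neg, zpow_natCast]
      exact ((H.comm.pow_right m).eq).symm
    rw [← h2]; exact h1
  have e4 : wdist S (c D) (g * h ^ m) = wlen S (h ^ m) := by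
    rw [H.cD]
    unfold wdist
    congr 1
    group
  have t1 := wdist_tri H.gen (c 0) (c i) (g * h ^ m)
  have t2 := wdist_tri H.gen (c D) (c i) (g * h ^ m)
  have e5 : wdist S (c D) (c i) = D - i := by rw [wdist_comm]; exact e2
  have q := H.qi m
  rw [e4, e5] at t2
  rw [e1] at t1
  have r1 : (D : ℝ) ≤ i + wdist S (c i) (g * h ^ m) := by exact_mod_cast e3.trans t1
  have r2 : (wlen S (h ^ m) : ℝ) ≤ ((D : ℝ) - i) + wdist S (c i) (g * h ^ m) := by
    have : (wlen S (h ^ m) : ℝ) ≤ ((D - i : ℕ) : ℝ) + wdist S (c i) (g * h ^ m) := by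
      exact_mod_cast t2
    rwa [Nat.cast_sub hi] at this
  linarith

/-- middle and last piece: `p = g * h ^ m`, `q = h ^ n * c i` with `m ≤ n` -/
private theorem Conv_mid' {g h : G} {c : ℕ → G} {D n : ℕ} {K₀ C₀ : ℝ}
    (H : Conv_H S g h c D n K₀ C₀) (i m : ℕ) (hi : i ≤ D) (hm : m ≤ n) :
    ((D : ℝ) - i) + ((n : ℝ) - m) / K₀ - C₀ ≤ 3 * (wdist S (g * h ^ m) (h ^ n * c i) : ℝ) := by
  have e1 : wdist S (h ^ n * c i) (h ^ n) = i := by
    have := wdist_left S (h ^ n) (c i) 1
    rw [mul_one] at this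
    rw [this, ← H.c0, wdist_comm, H.geo 0 i (by omega) hi]; omega
  have e2 : wdist S (h ^ n * c i) (h ^ n * g) = D - i := by
    rw [wdist_left, ← H.cD]; exact H.geo i D hi le_rfl
  have e3 : D ≤ wdist S (g * h ^ m) (h ^ n) := by
    have h1 := H.far ((n : ℤ) - m)
    have h2 : wdist S g (h ^ ((n : ℤ) - m)) = wdist S (g * h ^ m) (h ^ n) := by
      rw [← wdist_left S (h ^ m) g (h ^ ((n : ℤ) - m))]
      congr 1
      · exact ((H.comm.pow_right m).eq).symm
      · rw [← zpow_natCast h m, ← zpow_add, ← zpow_natCast h n]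
        congr 1
        ring
    rw [← h2]; exact h1
  have e4 : wdist S (g * h ^ m) (h ^ n * g) = wlen S (h ^ (n - m)) := by
    have : h ^ n * g = g * h ^ n := ((H.comm.pow_right n).eq).symm
    rw [this, wdist_left, Conv_zdist S h m n hm]
  have t1 := wdist_tri H.gen (g * h ^ m) (h ^ n * c i) (h ^ n)
  have t2 := wdist_tri H.gen (g * h ^ m) (h ^ n * c i) (h ^ n * g)
  have q := H.qi (n - m)
  rw [e4, e2] at t2
  rw [e1] at t1
  have r1 : (D : ℝ) ≤ wdist S (g * h ^ m) (h ^ n * c i) + i := by exact_mod_cast e3.trans t1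
  have r2 : (wlen S (h ^ (n - m)) : ℝ) ≤ wdist S (g * h ^ m) (h ^ n * c i) + ((D : ℝ) - i) := by
    have : (wlen S (h ^ (n - m)) : ℝ) ≤ wdist S (g * h ^ m) (h ^ n * c i) + ((D - i : ℕ) : ℝ) := by
      exact_mod_cast t2
    rwa [Nat.cast_sub hi] at this
  rw [Nat.cast_sub hm] at q
  linarith

/-- first and last piece -/
private theorem Conv_ends {g h : G} {c : ℕ → G} {D n : ℕ} {K₀ C₀ : ℝ}
    (H : Conv_H S g h c D n K₀ C₀) (i m : ℕ) (hi : i ≤ D) (hm : m ≤ D) :
    (2 * (D : ℝ) + n) / (4 * K₀) ≤ (wdist S (c i) (h ^ n * c m) : ℝ) := by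
  have e1 : wdist S (c 0) (c i) = i := by
    rw [H.geo 0 i (by omega) hi]; omega
  have e2 : wdist S (h ^ n * c m) (h ^ n) = m := by
    have := wdist_left S (h ^ n) (c m) 1
    rw [mul_one] at this
    rw [this, ← H.c0, wdist_comm, H.geo 0 m (by omega) hm]; omega
  have e3 : wdist S (c 0) (h ^ n) = wlen S (h ^ n) := by rw [H.c0, wdist_one]
  have t1 := wdist_tri H.gen (c 0) (c i) (h ^ n)
  have t2 := wdist_tri H.gen (c i) (h ^ n * c m) (h ^ n)
  have q := H.qi n
  rw [e2] at t2
  rw [e1, e3] at t1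
  have r1 : (wlen S (h ^ n) : ℝ) ≤ i + (wdist S (c i) (h ^ n * c m) + m) := by
    exact_mod_cast t1.trans (by omega)
  have hK : 0 < K₀ := lt_of_lt_of_le one_pos H.K1
  have hi' : (i : ℝ) ≤ D := by exact_mod_cast hi
  have hm' : (m : ℝ) ≤ D := by exact_mod_cast hm
  have hn := H.nbig
  have hD : (0 : ℝ) ≤ D := Nat.cast_nonneg _
  have hC := H.C1
  have hK1 := H.K1
  have key : (2 * (D : ℝ) + n) / (4 * K₀) ≤ n / K₀ - C₀ - 2 * D := by
    have e : (n : ℝ) / K₀ - C₀ - 2 * D - (2 * (D : ℝ) + n) / (4 * K₀) =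
        (3 * n - 4 * K₀ * C₀ - 8 * K₀ * D - 2 * D) / (4 * K₀) := by
      field_simp
      ring
    have : 0 ≤ (3 * (n : ℝ) - 4 * K₀ * C₀ - 8 * K₀ * D - 2 * D) / (4 * K₀) := by
      apply div_nonneg _ (by positivity)
      nlinarith [mul_nonneg (sub_nonneg.2 hK1) hD, mul_nonneg hK.le hC, mul_nonneg hK.le hD]
    linarith
  linarith

private theorem Conv_lower {g h : G} {c : ℕ → G} {D n : ℕ} {K₀ C₀ : ℝ}
    (H : Conv_H S g h c D n K₀ C₀) (i j : ℕ) (hij : i ≤ j) (hj : j ≤ 2 * D + n) :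
    ((j : ℝ) - i) / (4 * K₀) - C₀ ≤
      (wdist S (Conv_v g h c D n i) (Conv_v g h c D n j) : ℝ) := by
  have hK : 0 < K₀ := lt_of_lt_of_le one_pos H.K1
  have hK1 := H.K1
  have hC := H.C1
  have hij' : (i : ℝ) ≤ j := by exact_mod_cast hij
  have base : ∀ x : ℝ, 0 ≤ x → x / (4 * K₀) ≤ x / 4 := by
    intro x hx
    apply div_le_div_of_nonneg_left hx (by norm_num) (by linarith)
  have base2 : ∀ x : ℝ, 0 ≤ x → x / K₀ ≤ x := by
    intro x hx
    exact div_le_self hx hK1
  have base3 : ∀ x : ℝ, x / (4 * K₀) = x / K₀ / 4 := by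
    intro x
    field_simp
  rcases le_or_gt j D with h1 | h1
  · rw [Conv_v1 g h c D n i (by omega), Conv_v1 g h c D n j h1, H.geo i j hij h1,
      Nat.cast_sub hij]
    have := base ((j : ℝ) - i) (by linarith)
    linarith
  · rcases le_or_gt j (D + n) with h2 | h2
    · obtain ⟨m, rfl⟩ : ∃ m, j = D + m := ⟨j - D, by omega⟩
      rcases le_or_gt i D with h3 | h3
      · rw [Conv_v1 g h c D n i h3, Conv_v2 g h c D n m H.cD (by omega)]
        have k1 := Conv_mid H i m h3
        push_cast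
        have h3' : (i : ℝ) ≤ D := by exact_mod_cast h3
        have b1 := base2 ((D : ℝ) - i) (by linarith)
        have e : ((D : ℝ) + m - i) / (4 * K₀) = (((D : ℝ) - i) / K₀ + m / K₀) / 4 := by
          field_simp
          ring
        rw [e]
        have w0 : (0 : ℝ) ≤ wdist S (c i) (g * h ^ m) := Nat.cast_nonneg _
        linarith
      · obtain ⟨l, rfl⟩ : ∃ l, i = D + l := ⟨i - D, by omega⟩
        rw [Conv_v2 g h c D n m H.cD (by omega), Conv_v2 g h c D n l H.cD (by omega), wdist_left,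
          Conv_zdist S h l m (by omega)]
        have q := H.qi (m - l)
        rw [Nat.cast_sub (by omega)] at q
        push_cast
        have hlm : (l : ℝ) ≤ m := by
          have : l ≤ m := by omega
          exact_mod_cast this
        have e : ((D : ℝ) + m - (D + l)) / (4 * K₀) = ((m : ℝ) - l) / K₀ / 4 := by
          field_simp
          ring
        have p : 0 ≤ ((m : ℝ) - l) / K₀ := div_nonneg (by linarith) hK.le
        rw [e]
        linarith
    · obtain ⟨m, rfl⟩ : ∃ m, j = D + n + m := ⟨j - (D + n), by omega⟩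
      have hmD : m ≤ D := by omega
      rw [Conv_v3 g h c D n m H.cD H.comm hmD]
      rcases le_or_gt i D with h3 | h3
      · rw [Conv_v1 g h c D n i h3]
        have k1 := Conv_ends H i (D - m) h3 (by omega)
        have : ((D + n + m : ℕ) - (i : ℝ)) / (4 * K₀) ≤ (2 * (D : ℝ) + n) / (4 * K₀) := by
          apply div_le_div_of_nonneg_right _ (by positivity)
          push_cast
          have : (m : ℝ) ≤ D := by exact_mod_cast hmD
          have : (0 : ℝ) ≤ i := Nat.cast_nonneg _
          linarith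
        linarith
      · rcases le_or_gt i (D + n) with h4 | h4
        · obtain ⟨l, rfl⟩ : ∃ l, i = D + l := ⟨i - D, by omega⟩
          rw [Conv_v2 g h c D n l H.cD (by omega)]
          have k1 := Conv_mid' H (D - m) l (by omega) (by omega)
          rw [Nat.cast_sub hmD] at k1
          push_cast
          have hln : (l : ℝ) ≤ n := by
            have : l ≤ n := by omega
            exact_mod_cast this
          have b1 := base2 (m : ℝ) (Nat.cast_nonneg _)
          have e : ((D : ℝ) + n + m - (D + l)) / (4 * K₀) =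
              ((m : ℝ) / K₀ + ((n : ℝ) - l) / K₀) / 4 := by
            field_simp
            ring
          rw [e]
          have w0 : (0 : ℝ) ≤ wdist S (g * h ^ l) (h ^ n * c (D - m)) := Nat.cast_nonneg _
          linarith
        · obtain ⟨l, rfl⟩ : ∃ l, i = D + n + l := ⟨i - (D + n), by omega⟩
          rw [Conv_v3 g h c D n l H.cD H.comm (by omega), wdist_left, wdist_comm,
            H.geo (D - m) (D - l) (by omega) (by omega)]
          have : D - l - (D - m) = m - l := by omega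
          rw [this, Nat.cast_sub (by omega)]
          push_cast
          have hlm : (l : ℝ) ≤ m := by
            have : l ≤ m := by omega
            exact_mod_cast this
          have e : ((D : ℝ) + n + m - (D + n + l)) / (4 * K₀) = ((m : ℝ) - l) / (4 * K₀) := by
            congr 1
            ring
          rw [e]
          have := base ((m : ℝ) - l) (by linarith)
          linarith

private theorem Conv_qg {g h : G} {c : ℕ → G} {D n : ℕ} {K₀ C₀ : ℝ}
    (H : Conv_H S g h c D n K₀ C₀) :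
    IsQuasiGeodesic S (4 * K₀ + wlen S h + 1) (C₀ + wlen S h + 2) ((2 * D + n : ℕ) : ℝ)
      (fun t => Conv_v g h c D n ⌊t⌋₊) := by
  have hK : 0 < K₀ := lt_of_lt_of_le one_pos H.K1
  have hK1 := H.K1
  have hη : (0 : ℝ) ≤ wlen S h := Nat.cast_nonneg _
  have main : ∀ s ∈ Set.Icc (0 : ℝ) ((2 * D + n : ℕ) : ℝ),
      ∀ t ∈ Set.Icc (0 : ℝ) ((2 * D + n : ℕ) : ℝ), s ≤ t →
      (t - s) / (4 * K₀ + wlen S h + 1) - (C₀ + wlen S h + 2) ≤
        (wdist S (Conv_v g h c D n ⌊s⌋₊) (Conv_v g h c D n ⌊t⌋₊) : ℝ) ∧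
      (wdist S (Conv_v g h c D n ⌊s⌋₊) (Conv_v g h c D n ⌊t⌋₊) : ℝ) ≤
        (4 * K₀ + wlen S h + 1) * (t - s) + (C₀ + wlen S h + 2) := by
    intro s hs t ht hst
    have f1 : ⌊s⌋₊ ≤ ⌊t⌋₊ := Nat.floor_mono hst
    have f2 : ⌊t⌋₊ ≤ 2 * D + n := by
      have := Nat.floor_mono ht.2
      rwa [Nat.floor_natCast] at this
    have s1 := Nat.floor_le hs.1
    have s2 := Nat.lt_floor_add_one s
    have t1 := Nat.floor_le ht.1
    have t2 := Nat.lt_floor_add_one t
    constructor
    · have k1 := Conv_lower H ⌊s⌋₊ ⌊t⌋₊ f1 f2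
      have a1 : (t - s) / (4 * K₀ + wlen S h + 1) ≤ (t - s) / (4 * K₀) := by
        apply div_le_div_of_nonneg_left (by linarith) (by positivity) (by linarith)
      have a2 : (t - s) / (4 * K₀) ≤ ((⌊t⌋₊ : ℝ) - ⌊s⌋₊ + 1) / (4 * K₀) := by
        apply div_le_div_of_nonneg_right (by linarith) (by positivity)
      have a3 : ((⌊t⌋₊ : ℝ) - ⌊s⌋₊ + 1) / (4 * K₀) =
          ((⌊t⌋₊ : ℝ) - ⌊s⌋₊) / (4 * K₀) + 1 / (4 * K₀) := by
        rw [add_div]
      have a4 : 1 / (4 * K₀) ≤ 1 := by
        rw [div_le_one (by positivity)]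
        linarith
      linarith
    · obtain ⟨m, hm⟩ : ∃ m, ⌊t⌋₊ = ⌊s⌋₊ + m := ⟨⌊t⌋₊ - ⌊s⌋₊, by omega⟩
      have k1 := Conv_upper H ⌊s⌋₊ m (by omega)
      rw [← hm] at k1
      have k2 : (wdist S (Conv_v g h c D n ⌊s⌋₊) (Conv_v g h c D n ⌊t⌋₊) : ℝ) ≤
          m * (wlen S h + 1) := by exact_mod_cast k1
      have hm' : (⌊t⌋₊ : ℝ) = ⌊s⌋₊ + m := by exact_mod_cast hm
      have m1 : (m : ℝ) ≤ t - s + 1 := by linarith
      have k3 : (m : ℝ) * (wlen S h + 1) ≤ (t - s + 1) * (wlen S h + 1) :=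
        mul_le_mul_of_nonneg_right m1 (by linarith)
      have k4 : (t - s + 1) * ((wlen S h : ℝ) + 1) ≤
          (4 * K₀ + wlen S h + 1) * (t - s) + (C₀ + wlen S h + 2) := by
        have := H.C1
        nlinarith [mul_nonneg hK.le (sub_nonneg.2 hst)]
      linarith
  intro s hs t ht
  rcases le_total s t with hst | hst
  · have := main s hs t ht hst
    rw [abs_sub_comm, abs_of_nonneg (sub_nonneg.2 hst)]
    exact this
  · have := main t ht s hs hst
    rw [abs_of_nonneg (sub_nonneg.2 hst), wdist_comm]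
    exact this

end

/-- elements of the centralizer far from `⟨h⟩` -/
private theorem Conv_far {G : Type*} [Group G] {S : Finset G} (hS : Gen S) {h : G}
    (h0 : (Subgroup.zpowers h).relIndex (Subgroup.centralizer {h}) = 0) (R : ℕ) :
    ∃ g : G, Commute g h ∧ R ≤ wlen S g ∧ ∀ j : ℤ, wlen S g ≤ wdist S g (h ^ j) := by
  by_contra hcon
  push Not at hcon
  apply absurd h0
  rw [Subgroup.relIndex]
  have hfin : {b : G | wlen S b ≤ R}.Finite := wlen_fin hS R
  -- every element of the centralizer is `h^j b`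
  have hz : ∀ z : G, Commute z h → ∃ (j : ℤ) (b : G), Commute b h ∧ wlen S b ≤ R ∧
      z = b * h ^ j := by
    intro z hzc
    obtain ⟨j, hj⟩ := Nat.sInf_mem (Set.range_nonempty fun j : ℤ => wlen S (h ^ j * z))
    have hjmin : ∀ j' : ℤ, wlen S (h ^ j * z) ≤ wlen S (h ^ j' * z) := by
      intro j'
      have := Nat.sInf_le (Set.mem_range_self (f := fun j : ℤ => wlen S (h ^ j * z)) j')
      rw [← hj] at this
      exact this
    have hgc : Commute (h ^ j * z) h :=
      Commute.mul_left ((Commute.refl h).zpow_left j) hzc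
    refine ⟨-j, h ^ j * z, hgc, ?_, ?_⟩
    · by_contra hbig
      push Not at hbig
      obtain ⟨j', hj'⟩ := hcon (h ^ j * z) hgc hbig.le
      have e : wdist S (h ^ j * z) (h ^ j') = wlen S (h ^ (-j' + j) * z) := by
        rw [wdist_comm]
        unfold wdist
        congr 1
        rw [← zpow_neg, ← mul_assoc, ← zpow_add]
      rw [e] at hj'
      exact absurd (hjmin (-j' + j)) (not_le.2 hj')
    · have hcz : z * h ^ (-j) = h ^ (-j) * z := (hzc.zpow_right (-j)).eq
      rw [mul_assoc, hcz, ← mul_assoc, ← zpow_add]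
      simp
  -- the quotient is finite
  let Z : Subgroup G := Subgroup.centralizer {h}
  have hmemZ : ∀ z : G, z ∈ Z ↔ Commute z h := by
    intro z
    constructor
    · intro hzz
      exact ((Subgroup.mem_centralizer_iff.1 hzz) h (Set.mem_singleton h)).symm
    · intro hzz
      refine Subgroup.mem_centralizer_iff.2 ?_
      intro x hx
      rw [Set.mem_singleton_iff] at hx
      subst hx
      exact hzz.eq.symm
  let F : Set Z := {b : Z | wlen S (b : G) ≤ R}
  have hF : F.Finite := by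
    have : F = (fun b : Z => (b : G)) ⁻¹' {b : G | wlen S b ≤ R} := rfl
    rw [this]
    exact hfin.preimage (Subtype.val_injective.injOn)
  have hfq : Finite (Z ⧸ (Subgroup.zpowers h).subgroupOf Z) := by
    have hs : Set.SurjOn (fun b : Z => (b : Z ⧸ (Subgroup.zpowers h).subgroupOf Z)) F Set.univ := by
      intro q _
      induction q using QuotientGroup.induction_on with
      | H z =>
        obtain ⟨j, b, hb1, hb2, hb3⟩ := hz z ((hmemZ z).1 z.2)
        refine ⟨⟨b, (hmemZ b).2 hb1⟩, hb2, ?_⟩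
        change ((⟨b, (hmemZ b).2 hb1⟩ : Z) : Z ⧸ (Subgroup.zpowers h).subgroupOf Z) = _
        rw [QuotientGroup.eq, Subgroup.mem_subgroupOf]
        refine ⟨j, ?_⟩
        change h ^ j = b⁻¹ * (z : G)
        rw [hb3]
        group
    have := hF.of_surjOn _ hs
    exact Set.finite_univ_iff.1 this
  exact Subgroup.index_ne_zero_of_finite

theorem relIndex_of_morse {G : Type*} [Group G] {S : Finset G} (hS : Gen S) {h : G}
    (hm : IsMorse S h) :
    (Subgroup.zpowers h).relIndex (Subgroup.centralizer {h}) ≠ 0 := by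
  intro h0
  obtain ⟨⟨K₀, C₀, hK, hC, hq⟩, hM⟩ := hm
  obtain ⟨M, hM⟩ := hM (4 * K₀ + wlen S h + 1) (C₀ + wlen S h + 2)
    (by have : (0 : ℝ) ≤ wlen S h := Nat.cast_nonneg _
        linarith)
    (by have : (0 : ℝ) ≤ wlen S h := Nat.cast_nonneg _
        linarith)
  obtain ⟨g, hg1, hg2, hg3⟩ := Conv_far hS h0 (⌊M⌋₊ + 1)
  obtain ⟨c, c0, c1, c2⟩ := (gmet hS).geod 1 g
  rw [wdist_one] at c1 c2
  obtain ⟨n, hn⟩ := exists_nat_ge (8 * K₀ * ((wlen S g : ℕ) + C₀ + 1))
  have H : Conv_H S g h c (wlen S g) n K₀ C₀ :=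
    { gen := hS
      comm := hg1
      c0 := c0
      cD := c1
      geo := c2
      far := hg3
      K1 := hK
      C1 := hC
      qi := by
        intro k
        have := (hq 0 k).1
        rw [zpow_zero, zpow_natCast, wdist_one] at this
        simpa using this
      nbig := hn }
  have hqg := Conv_qg H
  have h1 := hM ((2 * wlen S g + n : ℕ) : ℝ) (fun t => Conv_v g h c (wlen S g) n ⌊t⌋₊)
    (Nat.cast_nonneg _) hqg
    ⟨0, by
      simp only [Nat.floor_zero]
      rw [Conv_v1 _ _ _ _ _ _ (Nat.zero_le _), c0, zpow_zero]⟩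
    ⟨n, by
      simp only [Nat.floor_natCast]
      have : 2 * wlen S g + n = wlen S g + n + wlen S g := by ring
      rw [this, Conv_v3 _ _ _ _ _ _ c1 hg1 le_rfl, Nat.sub_self, c0, mul_one, zpow_natCast]⟩
    ((wlen S g : ℕ) : ℝ)
    ⟨Nat.cast_nonneg _, by
      push_cast
      have : (0 : ℝ) ≤ n := Nat.cast_nonneg _
      have : (0 : ℝ) ≤ wlen S g := Nat.cast_nonneg _
      linarith⟩
  obtain ⟨i, hi⟩ := h1
  simp only [Nat.floor_natCast] at hi
  rw [Conv_v1 _ _ _ _ _ _ le_rfl, c1] at hi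
  have h2 : (wlen S g : ℝ) ≤ wdist S g (h ^ i) := by exact_mod_cast hg3 i
  have h3 : ((⌊M⌋₊ + 1 : ℕ) : ℝ) ≤ wlen S g := by exact_mod_cast hg2
  have h4 := Nat.lt_floor_add_one M
  push_cast at h3
  linarith

theorem not_isOfFinOrder_of_morse {G : Type*} [Group G] {S : Finset G} {h : G}
    (hm : IsMorse S h) : ¬ IsOfFinOrder h := by
  intro hf
  obtain ⟨n, hn, hh⟩ := isOfFinOrder_iff_pow_eq_one.1 hf
  obtain ⟨⟨K, C, hK, hC, hq⟩, -⟩ := hm
  obtain ⟨k, hk⟩ := exists_nat_gt (K * C)
  have h1 := (hq 0 ((n * k : ℕ) : ℤ)).1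
  rw [zpow_zero, zpow_natCast, pow_mul, hh, one_pow, wdist_self] at h1
  have hK0 : 0 < K := lt_of_lt_of_le one_pos hK
  have h2 : |((0 : ℤ) : ℝ) - (((n * k : ℕ) : ℤ) : ℝ)| = (n : ℝ) * k := by
    push_cast
    rw [zero_sub, abs_neg, abs_of_nonneg (by positivity)]
  rw [h2] at h1
  have h3 : (n : ℝ) * k / K ≤ C := by
    have : ((0 : ℕ) : ℝ) = 0 := Nat.cast_zero
    linarith
  rw [div_le_iff₀ hK0] at h3
  have h4 : (1 : ℝ) ≤ n := by exact_mod_cast hn
  have h5 : (k : ℝ) ≤ n * k := by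
    have : (0 : ℝ) ≤ k := Nat.cast_nonneg _
    nlinarith
  linarith [mul_comm K C]

end Pool.Agent.MHN
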