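import Pool.Agent.MHN.Defs

/-!
Module Word (difficulty 3): elementary facts on word length and word metric.

All routine. `wlen S g = sInf {n | ∃ l, l.length = n ∧ (∀ s ∈ l, s ∈ S ∨ s⁻¹ ∈ S) ∧ l.prod = g}`.
* `wlen_exists`: since `S` generates, the set is nonempty (`Subgroup.closure_induction` or
  `Subgroup.exists_list_of_mem_closure`), then `Nat.sInf_mem`.
* `wlen_fin`: the elements of length `≤ n` are products of lists of length `≤ n` over a finite set
  (e.g. `List.finite_length_le`, or induction on `n` using `wlen_le_one`-type decompositions).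
* `wlen_hom`: `K` = the maximum of `wlen S' (f s)` over `s ∈ S`.
* `gmet` (geodesics): for `a b` take a shortest word `l` for `a⁻¹ * b` and
  `c i = a * (l.take i).prod`; `wdist (c i) (c j) ≤ j - i` since `(c i)⁻¹ * c j` is the product of
  `(l.take j).drop i`; the reverse inequality is the triangle inequality and minimality of `l`.
-/

set_option autoImplicit false

namespace Pool.Agent.MHN

variable {G : Type*} [Group G] {S : Finset G}

theorem wlen_one (S : Finset G) : wlen S 1 = 0 := by
  unfold wlen
  rw [Nat.sInf_eq_zero]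
  exact Or.inl ⟨[], rfl, by simp, rfl⟩

theorem wlen_exists (hS : Gen S) (g : G) :
    ∃ l : List G, l.length = wlen S g ∧ (∀ s ∈ l, s ∈ S ∨ s⁻¹ ∈ S) ∧ l.prod = g := by
  have hne : {n | ∃ l : List G, l.length = n ∧ (∀ s ∈ l, s ∈ S ∨ s⁻¹ ∈ S) ∧ l.prod = g}.Nonempty := by
    have hg : g ∈ Subgroup.closure (S : Set G) := by
      rw [hS]; exact Subgroup.mem_top g
    have hg' : g ∈ (Subgroup.closure (S : Set G)).toSubmonoid := hg
    rw [Subgroup.closure_toSubmonoid] at hg'
    obtain ⟨l, hl, hp⟩ := Submonoid.exists_list_of_mem_closure hg'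
    refine ⟨l.length, l, rfl, ?_, hp⟩
    intro s hs
    rcases hl s hs with h | h
    · exact Or.inl h
    · exact Or.inr h
  exact Nat.sInf_mem hne

theorem wlen_le_of_list {l : List G} (hl : ∀ s ∈ l, s ∈ S ∨ s⁻¹ ∈ S) :
    wlen S l.prod ≤ l.length :=
  Nat.sInf_le ⟨l, rfl, hl, rfl⟩

theorem wlen_mul (hS : Gen S) (a b : G) : wlen S (a * b) ≤ wlen S a + wlen S b := by
  obtain ⟨l, h1, h2, h3⟩ := wlen_exists hS a
  obtain ⟨l', h1', h2', h3'⟩ := wlen_exists hS b
  have h : wlen S (l ++ l').prod ≤ (l ++ l').length := by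
    apply wlen_le_of_list
    intro s hs
    rcases List.mem_append.1 hs with h | h
    · exact h2 s h
    · exact h2' s h
  rw [List.prod_append, h3, h3', List.length_append, h1, h1'] at h
  exact h

private theorem wordSub (S : Finset G) (a : G) :
    {n | ∃ l : List G, l.length = n ∧ (∀ s ∈ l, s ∈ S ∨ s⁻¹ ∈ S) ∧ l.prod = a} ⊆
    {n | ∃ l : List G, l.length = n ∧ (∀ s ∈ l, s ∈ S ∨ s⁻¹ ∈ S) ∧ l.prod = a⁻¹} := by
  rintro n ⟨l, h1, h2, h3⟩
  refine ⟨(l.map fun x => x⁻¹).reverse, by simp [h1], ?_, ?_⟩
  · intro s hs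
    rw [List.mem_reverse, List.mem_map] at hs
    obtain ⟨x, hx, rfl⟩ := hs
    rw [inv_inv]
    exact (h2 x hx).symm
  · rw [← List.prod_inv_reverse, h3]

theorem wlen_inv (S : Finset G) (a : G) : wlen S a⁻¹ = wlen S a := by
  unfold wlen
  congr 1
  apply Set.Subset.antisymm
  · have h := wordSub S a⁻¹
    rw [inv_inv] at h
    exact h
  · exact wordSub S a

theorem wlen_eq_zero (hS : Gen S) (g : G) : wlen S g = 0 ↔ g = 1 := by
  constructor
  · intro h
    obtain ⟨l, h1, _, h3⟩ := wlen_exists hS g
    rw [h, List.length_eq_zero_iff] at h1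
    rw [← h3, h1, List.prod_nil]
  · rintro rfl
    exact wlen_one S

theorem wlen_fin (hS : Gen S) (n : ℕ) : {g : G | wlen S g ≤ n}.Finite := by
  have hT : {s : G | s ∈ S ∨ s⁻¹ ∈ S}.Finite := by
    have h1 : {s : G | s ∈ S}.Finite := S.finite_toSet
    have h2 : {s : G | s⁻¹ ∈ S}.Finite := by
      have : {s : G | s⁻¹ ∈ S} = (fun x : G => x⁻¹) ⁻¹' (S : Set G) := rfl
      rw [this]
      exact S.finite_toSet.preimage (inv_injective.injOn)
    exact h1.union h2
  induction n with
  | zero =>
    apply (Set.finite_singleton (1 : G)).subset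
    intro g hg
    have h0 : wlen S g = 0 := Nat.le_zero.1 hg
    exact (wlen_eq_zero hS g).1 h0
  | succ n ih =>
    apply ((Set.finite_singleton (1 : G)).union (hT.image2 (fun x y => x * y) ih)).subset
    intro g hg
    obtain ⟨l, h1, h2, h3⟩ := wlen_exists hS g
    have hg' : wlen S g ≤ n + 1 := hg
    cases l with
    | nil =>
      left
      rw [← h3]
      simp
    | cons s t =>
      right
      refine ⟨s, h2 s (by simp), t.prod, ?_, ?_⟩
      · have h4 : wlen S t.prod ≤ t.length :=
          wlen_le_of_list (fun x hx => h2 x (List.mem_cons_of_mem _ hx))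
        rw [List.length_cons] at h1
        show wlen S t.prod ≤ n
        omega
      · rw [← h3, List.prod_cons]

theorem wlen_le_one (hS : Gen S) {g : G} (hg : wlen S g ≤ 1) : g = 1 ∨ g ∈ S ∨ g⁻¹ ∈ S := by
  obtain ⟨l, h1, h2, h3⟩ := wlen_exists hS g
  cases l with
  | nil => left; rw [← h3]; rfl
  | cons s t =>
    cases t with
    | nil =>
      right
      have h4 : g = s := by rw [← h3]; simp
      rw [h4]
      exact h2 s (by simp)
    | cons s' t' =>
      exfalso
      simp only [List.length_cons] at h1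
      omega

theorem wlen_hom {G' : Type*} [Group G'] {S' : Finset G'} (hS : Gen S) (hS' : Gen S')
    (f : G →* G') : ∃ K : ℕ, ∀ g, wlen S' (f g) ≤ K * wlen S g := by
  refine ⟨∑ s ∈ S, wlen S' (f s), ?_⟩
  have hK : ∀ s ∈ S, wlen S' (f s) ≤ ∑ s ∈ S, wlen S' (f s) := fun s hs =>
    Finset.single_le_sum (f := fun s => wlen S' (f s)) (fun _ _ => Nat.zero_le _) hs
  have hlist : ∀ l : List G, (∀ s ∈ l, s ∈ S ∨ s⁻¹ ∈ S) →
      wlen S' (f l.prod) ≤ (∑ s ∈ S, wlen S' (f s)) * l.length := by
    intro l
    induction l with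
    | nil => intro _; simp [wlen_one]
    | cons s t ih =>
      intro h
      have h1 := ih (fun x hx => h x (List.mem_cons_of_mem _ hx))
      have h2 : wlen S' (f s) ≤ ∑ s ∈ S, wlen S' (f s) := by
        rcases h s (by simp) with h3 | h3
        · exact hK s h3
        · have h4 := hK _ h3
          rw [map_inv, wlen_inv] at h4
          exact h4
      rw [List.prod_cons, map_mul, List.length_cons, mul_add, mul_one]
      have h5 := wlen_mul hS' (f s) (f t.prod)
      omega
  intro g
  obtain ⟨l, h1, h2, h3⟩ := wlen_exists hS g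
  have h4 := hlist l h2
  rw [h3, h1] at h4
  exact h4

theorem wdist_left (S : Finset G) (g a b : G) : wdist S (g * a) (g * b) = wdist S a b := by
  unfold wdist
  congr 1
  group

theorem wdist_self (S : Finset G) (a : G) : wdist S a a = 0 := by
  unfold wdist
  rw [inv_mul_cancel, wlen_one]

theorem wdist_comm (S : Finset G) (a b : G) : wdist S a b = wdist S b a := by
  unfold wdist
  rw [← wlen_inv S (a⁻¹ * b)]
  congr 1
  group

theorem wdist_tri (hS : Gen S) (a b c : G) : wdist S a c ≤ wdist S a b + wdist S b c := by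
  unfold wdist
  have h := wlen_mul hS (a⁻¹ * b) (b⁻¹ * c)
  have e : a⁻¹ * b * (b⁻¹ * c) = a⁻¹ * c := by group
  rw [e] at h
  exact h

theorem wdist_one (S : Finset G) (a : G) : wdist S 1 a = wlen S a := by
  unfold wdist
  rw [inv_one, one_mul]

private theorem wordGeod (hS : Gen S) (a b : G) : ∃ c : ℕ → G, c 0 = a ∧ c (wdist S a b) = b ∧
    ∀ i j, i ≤ j → j ≤ wdist S a b → wdist S (c i) (c j) = j - i := by
  obtain ⟨l, h1, h2, h3⟩ := wlen_exists hS (a⁻¹ * b)
  have hn : l.length = wdist S a b := h1
  have hup : ∀ i j, i ≤ j → j ≤ wdist S a b →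
      wdist S (a * (l.take i).prod) (a * (l.take j).prod) ≤ j - i := by
    intro i j hij hj
    rw [wdist_left]
    have e1 : (l.take j) = l.take i ++ (l.take j).drop i := by
      conv_lhs => rw [← List.take_append_drop i (l.take j)]
      rw [List.take_take, min_eq_left hij]
    have e2 : ((l.take i).prod)⁻¹ * (l.take j).prod = ((l.take j).drop i).prod := by
      conv_lhs => rw [e1]
      rw [List.prod_append]
      group
    unfold wdist
    rw [e2]
    have h5 : wlen S ((l.take j).drop i).prod ≤ ((l.take j).drop i).length := by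
      apply wlen_le_of_list
      intro s hs
      exact h2 s (List.mem_of_mem_take (List.mem_of_mem_drop hs))
    rw [List.length_drop, List.length_take] at h5
    omega
  have c0 : a * (l.take 0).prod = a := by simp
  have cn : a * (l.take (wdist S a b)).prod = b := by
    rw [← hn, List.take_length, h3]
    group
  refine ⟨fun i => a * (l.take i).prod, c0, cn, ?_⟩
  intro i j hij hj
  apply le_antisymm (hup i j hij hj)
  have g1 := hup 0 i (Nat.zero_le i) (hij.trans hj)
  have g2 := hup j (wdist S a b) hj (le_refl _)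
  rw [c0] at g1
  rw [cn] at g2
  have t1 := wdist_tri hS a (a * (l.take i).prod) b
  have t2 := wdist_tri hS (a * (l.take i).prod) (a * (l.take j).prod) b
  omega

theorem gmet (hS : Gen S) : GMet G (wdist S) where
  self := wdist_self S
  symm := wdist_comm S
  tri := wdist_tri hS
  geod := wordGeod hS

theorem lmet (hS : Gen S) {δ : ℝ} (hδ : Hyp δ (wdist S)) : LMet G δ (wdist S) where
  toGMet := gmet hS
  hyp := hδ
  left := wdist_left S
  fin := by
    intro n
    have h := wlen_fin hS n
    have e : {a : G | wdist S 1 a ≤ n} = {g : G | wlen S g ≤ n} := by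
      ext a
      simp only [Set.mem_ofPred_eq, wdist_one]
    rw [e]
    exact h

end Pool.Agent.MHN
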