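import Pool.Agent.MHN.DivSeq
import Pool.Agent.MHN.Word

/-!
Module Div (difficulty 4): the divergence estimate.

`Cs = |C₀| + 6`. Given `L`: let `Rm` be an upper bound of `R` on the finite set
`{w | wlen S w ≤ L}` (`wlen_fin`), `T = max l (2 Rm) > 0`, so that `Rm (1/ℓ x + 1/ℓ x') ≤ 1` when
`ℓ x, ℓ x' ≥ T`. `F` from `hF T`. Call `x : G` good if `ℓ x < T`; then `x = y * g`, `g ∈ F`,
`y : H`. Let `Eg` be an upper bound of `4 + R g * (2 / l)` over `g ∈ F` and of `4 + R w * (2 / l)`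
over `wlen S w ≤ 1`, `E = max 0 Eg`. `M : ℕ` with `M ≥ L (4 E + 5)`, `M ≥ L`.
The set of `u : H` of the form `g w g'⁻¹`, `g, g' ∈ F`, `wlen S w ≤ M` is finite: let `B` bound
`wlen A u` on it. `D₁` from `h4 B`. Let `λ` be from `wlen_hom` for `H.subtype`
(`wlen S (u : G) ≤ λ wlen A u`) and `D ≥ λ D₁ + max_{g ∈ F} wlen S g`, `D : ℕ`.
Apply `div_seq` with `a i = P (x i)`, `good i = (ℓ (x i) < T)` and `b i = P (y_i)` where
`x i = y_i * g_i` for good `i` (choice; `b i = 0` otherwise):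
* (s1) `h2` with `x := y_i`, `w := g_i`. (s2) `h2` with `w = (x i)⁻¹ x (i+1)`, `wlen S w ≤ 1`.
* (s3) `h2` with `w = (x i)⁻¹ * x j`, `wlen S w ≤ j - i ≤ L` (triangle inequality, induction), and
  `4 + R w (..) ≤ 4 + Rm (..) ≤ 5`.
* (s4) `u = y_i⁻¹ y_j = g_i ((x i)⁻¹ x j) g_j⁻¹` has `wlen A u ≤ B`;
  `λ * wdist A y_i (h^k) ≥ wdist S y_i (h^k) ≥ wdist S (x i) (h^k) - wlen S g_i ≥ D - .. ≥ λ D₁`, so
  `wdist A y_i (h^k) ≥ D₁` for all `k` (if `λ = 0` replace it by `λ + 1` first); then `h4`, with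
  `C₀ ≤ |C₀|`.
`Q = |C₀| + 7 E + 10`.
-/

set_option autoImplicit false

namespace Pool.Agent.MHN

private theorem div_bd {α : Type*} {s : Set α} (hs : s.Finite) (f : α → ℝ) :
    ∃ B : ℝ, 0 ≤ B ∧ ∀ x ∈ s, f x ≤ B := by
  obtain ⟨B, hB⟩ := (hs.image f).bddAbove
  refine ⟨max 0 B, le_max_left _ _, fun x hx => ?_⟩
  exact le_trans (hB ⟨x, hx, rfl⟩) (le_max_right _ _)

private theorem div_bdn {α : Type*} {s : Set α} (hs : s.Finite) (f : α → ℕ) :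
    ∃ B : ℕ, ∀ x ∈ s, f x ≤ B := by
  obtain ⟨B, hB⟩ := (hs.image f).bddAbove
  exact ⟨B, fun x hx => hB ⟨x, hx, rfl⟩⟩

private theorem div_path {G : Type*} [Group G] {S : Finset G} (hS : Gen S) {N : ℕ} {x : ℕ → G}
    (hx : ∀ i < N, wdist S (x i) (x (i + 1)) ≤ 1) {i j : ℕ} (hij : i ≤ j) (hj : j ≤ N) :
    wdist S (x i) (x j) ≤ j - i := by
  induction j, hij using Nat.le_induction with
  | base => rw [wdist_self]; omega
  | succ j hij ih =>
    have h1 := ih (by omega)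
    have h2 := hx j (by omega)
    have h3 := wdist_tri hS (x i) (x j) (x (j + 1))
    omega

theorem div_of_P {G : Type*} [Group G] {S : Finset G} (hS : Gen S) {H : Subgroup G} [H.Normal]
    {A : Finset H} (hA : Gen A) (h : H) (P ℓ R : G → ℝ) (C₀ l : ℝ) (hl : 0 < l)
    (hℓ : ∀ x, l ≤ ℓ x) (hR : ∀ w, 0 ≤ R w)
    (h2 : ∀ x w : G, |P (x * w) - P x| ≤ 4 + R w * (1 / ℓ x + 1 / ℓ (x * w)))
    (h4 : ∀ B : ℕ, ∃ D : ℕ, ∀ y u : H, wlen A u ≤ B → (∀ i : ℤ, D ≤ wdist A y (h ^ i)) →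
        |P ((y * u : H) : G) - P (y : G)| ≤ C₀)
    (hF : ∀ T : ℝ, ∃ F : Finset G, ∀ x : G, ℓ x < T → ∃ g ∈ F, ∃ y : H, x = y * g) :
    ∃ Cs : ℝ, 0 ≤ Cs ∧ ∀ L : ℕ, 0 < L → ∃ (D : ℕ) (Q : ℝ), ∀ (N : ℕ) (x : ℕ → G),
      (∀ i < N, wdist S (x i) (x (i + 1)) ≤ 1) →
      (∀ i ≤ N, ∀ j : ℤ, D ≤ wdist S (x i) ((h : G) ^ j)) →
      |P (x N) - P (x 0)| ≤ Cs / L * N + Q := by
  classical
  refine ⟨|C₀| + 6, by positivity, fun L hL => ?_⟩
  obtain ⟨Rm, hRm0, hRm⟩ := div_bd (wlen_fin hS L) R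
  obtain ⟨T, hT⟩ : ∃ T, T = max l (2 * Rm) := ⟨_, rfl⟩
  have hT0 : 0 < T := by rw [hT]; exact lt_of_lt_of_le hl (le_max_left _ _)
  have hT2 : 2 * Rm ≤ T := by rw [hT]; exact le_max_right _ _
  obtain ⟨F, hFT⟩ := hF T
  obtain ⟨E1, hE10, hE1⟩ := div_bd F.finite_toSet (fun g => 4 + R g * (2 / l))
  obtain ⟨E2, hE20, hE2⟩ := div_bd (wlen_fin hS 1) (fun g => 4 + R g * (2 / l))
  obtain ⟨E, hE⟩ : ∃ E, E = max E1 E2 := ⟨_, rfl⟩
  have hE0 : 0 ≤ E := by rw [hE]; exact le_trans hE10 (le_max_left _ _)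
  have hEF : ∀ g ∈ F, 4 + R g * (2 / l) ≤ E := fun g hg => by
    rw [hE]; exact le_trans (hE1 g hg) (le_max_left _ _)
  have hEw : ∀ g, wlen S g ≤ 1 → 4 + R g * (2 / l) ≤ E := fun g hg => by
    rw [hE]; exact le_trans (hE2 g hg) (le_max_right _ _)
  have h2l : ∀ x w : G, |P (x * w) - P x| ≤ 4 + R w * (2 / l) := by
    intro x w
    refine le_trans (h2 x w) ?_
    have e1 : 1 / ℓ x ≤ 1 / l := one_div_le_one_div_of_le hl (hℓ _)
    have e2 : 1 / ℓ (x * w) ≤ 1 / l := one_div_le_one_div_of_le hl (hℓ _)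
    have e3 : 1 / ℓ x + 1 / ℓ (x * w) ≤ 2 / l := by
      have : (2 : ℝ) / l = 1 / l + 1 / l := by ring
      rw [this]; exact add_le_add e1 e2
    have := mul_le_mul_of_nonneg_left e3 (hR w)
    linarith
  obtain ⟨M, hM1, hM2⟩ : ∃ M : ℕ, (L : ℝ) * (4 * E + 5) ≤ M ∧ L ≤ M := by
    obtain ⟨M1, hM1⟩ := exists_nat_ge ((L : ℝ) * (4 * E + 5))
    refine ⟨max M1 L, le_trans hM1 (by exact_mod_cast le_max_left _ _), le_max_right _ _⟩
  -- the finite set of transition elements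
  have hfin : {u : H | ∃ g ∈ F, ∃ g' ∈ F, ∃ w : G, wlen S w ≤ M ∧ (u : G) = g * w * g'⁻¹}.Finite := by
    have h1 : (Set.image2 (fun (a : G) (b : G × G) => a * b.1 * b.2⁻¹) (F : Set G)
        ({w : G | wlen S w ≤ M} ×ˢ (F : Set G))).Finite :=
      Set.Finite.image2 _ F.finite_toSet ((wlen_fin hS M).prod F.finite_toSet)
    refine Set.Finite.subset (h1.preimage (f := fun u : H => (u : G)) Subtype.val_injective.injOn) ?_
    rintro u ⟨g, hg, g', hg', w, hw, hu⟩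
    exact ⟨g, hg, (w, g'), ⟨hw, hg'⟩, hu.symm⟩
  obtain ⟨B, hB⟩ := div_bdn hfin (fun u => wlen A u)
  obtain ⟨D₁, hD₁⟩ := h4 B
  obtain ⟨K, hK⟩ := wlen_hom hA hS H.subtype
  obtain ⟨Wf, hWf⟩ := div_bdn F.finite_toSet (fun g => wlen S g)
  refine ⟨(K + 1) * D₁ + Wf, |C₀| + 7 * E + 10, fun N x hx hfar => ?_⟩
  have hch : ∀ i, ∃ (y : H) (g : G), ℓ (x i) < T → (g ∈ F ∧ x i = y * g) := by
    intro i
    by_cases hi : ℓ (x i) < T
    · obtain ⟨g, hg, y, hy⟩ := hFT (x i) hi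
      exact ⟨y, g, fun _ => ⟨hg, hy⟩⟩
    · exact ⟨1, 1, fun h => absurd h hi⟩
  choose y g hyg using hch
  refine div_seq N L M hL |C₀| E (abs_nonneg _) hE0 hM1 hM2 (fun i => P (x i))
    (fun i => P (y i : G)) (fun i => ℓ (x i) < T) ?_ ?_ ?_ ?_
  · intro i _ hi
    obtain ⟨hg, hxy⟩ := hyg i hi
    have h1 := h2l (y i : G) (g i)
    rw [← hxy] at h1
    rw [abs_sub_comm]
    exact le_trans h1 (hEF _ hg)
  · intro i hi
    have h1 := h2l (x i) ((x i)⁻¹ * x (i + 1))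
    rw [mul_inv_cancel_left] at h1
    exact le_trans h1 (hEw _ (hx i hi))
  · intro i j hij hj hL' hi hj'
    have h1 := h2 (x i) ((x i)⁻¹ * x j)
    rw [mul_inv_cancel_left] at h1
    have h3 : wlen S ((x i)⁻¹ * x j) ≤ L := by
      have := div_path hS hx hij hj
      unfold wdist at this
      omega
    have h4' := hRm _ h3
    have e1 : 1 / ℓ (x i) ≤ 1 / T := one_div_le_one_div_of_le hT0 (not_lt.1 hi)
    have e2 : 1 / ℓ (x j) ≤ 1 / T := one_div_le_one_div_of_le hT0 (not_lt.1 hj')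
    have e0 : 0 ≤ 1 / ℓ (x i) + 1 / ℓ (x j) :=
      add_nonneg (one_div_nonneg.2 (le_trans hl.le (hℓ _))) (one_div_nonneg.2 (le_trans hl.le (hℓ _)))
    have e3 : R ((x i)⁻¹ * x j) * (1 / ℓ (x i) + 1 / ℓ (x j)) ≤ Rm * (1 / T + 1 / T) :=
      mul_le_mul h4' (add_le_add e1 e2) e0 hRm0
    have e4 : Rm * (1 / T + 1 / T) ≤ 1 := by
      have : Rm * (1 / T + 1 / T) = 2 * Rm / T := by ring
      rw [this, div_le_one hT0]; exact hT2
    linarith
  · intro i j hij hj hM' hi hj'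
    obtain ⟨hgi, hxi⟩ := hyg i hi
    obtain ⟨hgj, hxj⟩ := hyg j hj'
    have hu : (((y i)⁻¹ * y j : H) : G) = g i * ((x i)⁻¹ * x j) * (g j)⁻¹ := by
      rw [hxi, hxj]
      push_cast
      group
    have h3 : wlen S ((x i)⁻¹ * x j) ≤ M := by
      have := div_path hS hx hij hj
      unfold wdist at this
      omega
    have h5 := hB ((y i)⁻¹ * y j) ⟨g i, hgi, g j, hgj, _, h3, hu⟩
    have h6 := hD₁ (y i) ((y i)⁻¹ * y j) h5 (fun k => by
      have h7 := hfar i (le_trans hij hj) k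
      have h8 := wdist_tri hS (x i) (y i : G) ((h : G) ^ k)
      have h9 : wdist S (x i) (y i : G) ≤ Wf := by
        have e : (x i)⁻¹ * (y i : G) = (g i)⁻¹ := by rw [hxi]; group
        unfold wdist
        rw [e, wlen_inv]
        exact hWf _ hgi
      have h10 : wdist S (y i : G) ((h : G) ^ k) ≤ K * wdist A (y i) (h ^ k) := by
        have := hK ((y i)⁻¹ * h ^ k)
        simpa [wdist] using this
      have h11 : (K + 1) * D₁ ≤ (K + 1) * wdist A (y i) (h ^ k) := by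
        have : K * wdist A (y i) (h ^ k) ≤ (K + 1) * wdist A (y i) (h ^ k) :=
          Nat.mul_le_mul_right _ (Nat.le_succ K)
        omega
      exact Nat.le_of_mul_le_mul_left h11 (Nat.succ_pos K))
    rw [mul_inv_cancel_left] at h6
    exact le_trans h6 (le_abs_self _)

end Pool.Agent.MHN
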