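import Pool.Agent.MHN.Word

/-!
Module ElemA (difficulty 3): the case of a cyclic subgroup of finite index; bounded orbits.

* `exists_transversal`: from `index ≠ 0` (finitely many right cosets `⟨h⟩ t`).
* `morse_of_finite_index`: every `x : G` is `h ^ (f x) * t` with `t ∈ F` finite. With `h` of
  infinite order one can choose `F` a transversal, so that `f x` is well defined and
  `f (h^n x) = n + f x`; then `|f (x s) - f x|` is bounded over all `x : G`, `s ∈ S ∪ S⁻¹`
  (`x = h^n t`, `x s = h^n (t s)`: only finitely many `t s`), so `|n| ≤ C wlen S (h^n)`: this is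
  the quasi-isometric embedding (`wlen S (h^n) ≤ |n| wlen S h`). The Morse part is trivial: every
  `x = h^n t` has `wdist S x (h^n) = wlen S t ≤ M`.
* `index_of_bounded`: `z = h^i b` with `wlen A b = wdist A z (h^i) < n`: finitely many cosets.
-/

set_option autoImplicit false

namespace Pool.Agent.MHN

/-- transversal functions: `x = h ^ (f x) * τ x`, with `τ` constant on right cosets. -/
private theorem ElemA_tau {G : Type*} [Group G] {h : G} (hi : (Subgroup.zpowers h).index ≠ 0) :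
    ∃ (f : G → ℤ) (τ : G → G) (F : Finset G), (∀ x, x = h ^ (f x) * τ x) ∧ (∀ x, τ x ∈ F) ∧
      ∀ (x : G) (n : ℤ), τ (h ^ n * x) = τ x := by
  classical
  let _ := Subgroup.fintypeOfIndexNeZero hi
  have hex : ∀ x : G, ∃ n : ℤ,
      x = h ^ n * (Quotient.out ((x⁻¹ : G) : G ⧸ Subgroup.zpowers h))⁻¹ := by
    intro x
    obtain ⟨k, hk⟩ := QuotientGroup.mk_out_eq_mul (Subgroup.zpowers h) x⁻¹
    obtain ⟨m, hm⟩ := Subgroup.mem_zpowers_iff.1 k.2
    refine ⟨m, ?_⟩
    rw [hk, ← hm]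
    group
  choose f hf using hex
  refine ⟨f, fun x => (Quotient.out ((x⁻¹ : G) : G ⧸ Subgroup.zpowers h))⁻¹,
    Finset.univ.image (fun q : G ⧸ Subgroup.zpowers h => (Quotient.out q)⁻¹), hf,
    fun x => Finset.mem_image.2 ⟨_, Finset.mem_univ _, rfl⟩, fun x n => ?_⟩
  have : (((h ^ n * x)⁻¹ : G) : G ⧸ Subgroup.zpowers h) = ((x⁻¹ : G) : G ⧸ Subgroup.zpowers h) := by
    rw [QuotientGroup.eq]
    refine Subgroup.mem_zpowers_iff.2 ⟨n, ?_⟩
    group
  simp only [this]

theorem exists_transversal {G : Type*} [Group G] {h : G} (hi : (Subgroup.zpowers h).index ≠ 0) :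
    ∃ F : Finset G, ∀ x : G, ∃ n : ℤ, ∃ t ∈ F, x = h ^ n * t := by
  obtain ⟨f, τ, F, h1, h2, _⟩ := ElemA_tau hi
  exact ⟨F, fun x => ⟨f x, τ x, h2 x, h1 x⟩⟩

private theorem ElemA_pow {G : Type*} [Group G] {S : Finset G} (hS : Gen S) (h : G) (n : ℤ) :
    (wlen S (h ^ n) : ℝ) ≤ wlen S h * |(n : ℝ)| := by
  have hnat : ∀ k : ℕ, wlen S (h ^ k) ≤ wlen S h * k := by
    intro k
    induction k with
    | zero => simp [wlen_one]
    | succ k ih =>
      rw [pow_succ, mul_add, mul_one]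
      exact (wlen_mul hS _ _).trans (Nat.add_le_add_right ih _)
  rcases Int.eq_nat_or_neg n with ⟨k, hk | hk⟩
  · rw [hk, zpow_natCast]
    have := hnat k
    rw [Int.cast_natCast, Nat.abs_cast]
    exact_mod_cast this
  · rw [hk, zpow_neg, zpow_natCast, wlen_inv]
    have := hnat k
    rw [Int.cast_neg, abs_neg, Int.cast_natCast, Nat.abs_cast]
    exact_mod_cast this

private theorem ElemA_lower {G : Type*} [Group G] {S : Finset G} (hS : Gen S) {h : G}
    (hh : ¬ IsOfFinOrder h) (f : G → ℤ) (τ : G → G) (F : Finset G)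
    (h1 : ∀ x, x = h ^ (f x) * τ x) (h2 : ∀ x, τ x ∈ F)
    (h3 : ∀ (x : G) (n : ℤ), τ (h ^ n * x) = τ x) :
    ∃ L : ℕ, ∀ n : ℤ, |(n : ℝ)| ≤ L * wlen S (h ^ n) := by
  classical
  have hinj := injective_zpow_iff_not_isOfFinOrder.2 hh
  have hf : ∀ (x : G) (n : ℤ), f (h ^ n * x) = n + f x := by
    intro x n
    apply hinj
    show h ^ f (h ^ n * x) = h ^ (n + f x)
    have e1 := h1 (h ^ n * x)
    rw [h3] at e1
    have e2 := h1 x
    have e3 : h ^ f (h ^ n * x) * τ x = h ^ (n + f x) * τ x := by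
      rw [← e1, zpow_add, mul_assoc, ← e2]
    exact mul_right_cancel e3
  -- the bound
  set T : Finset G := S ∪ S.image (fun s => s⁻¹) with hT
  set L : ℕ := (F ×ˢ T).sup (fun p => (f (p.1 * p.2)).natAbs) with hL
  have hmemT : ∀ s : G, (s ∈ S ∨ s⁻¹ ∈ S) → s ∈ T := by
    intro s hs
    rw [hT, Finset.mem_union, Finset.mem_image]
    rcases hs with hs | hs
    · exact Or.inl hs
    · exact Or.inr ⟨s⁻¹, hs, inv_inv s⟩
  have hstep : ∀ x s : G, (s ∈ S ∨ s⁻¹ ∈ S) → |f (x * s) - f x| ≤ L := by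
    intro x s hs
    have e : f (x * s) = f x + f (τ x * s) := by
      conv_lhs => rw [h1 x, mul_assoc]
      exact hf _ _
    rw [e, add_sub_cancel_left]
    have := Finset.le_sup (f := fun p : G × G => (f (p.1 * p.2)).natAbs)
      (Finset.mk_mem_product (h2 x) (hmemT s hs))
    rw [← hL] at this
    simp only at this
    rw [Int.abs_eq_natAbs]
    exact_mod_cast this
  have hlist : ∀ (l : List G), (∀ s ∈ l, s ∈ S ∨ s⁻¹ ∈ S) → ∀ x : G,
      |f (x * l.prod) - f x| ≤ L * l.length := by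
    intro l
    induction l with
    | nil => intro _ x; simp
    | cons s l ih =>
      intro hl x
      have ha := ih (fun t ht => hl t (List.mem_cons_of_mem _ ht)) (x * s)
      have hb := hstep x s (hl s List.mem_cons_self)
      rw [List.prod_cons, List.length_cons, ← mul_assoc]
      have hc : f (x * s * l.prod) - f x = (f (x * s * l.prod) - f (x * s)) + (f (x * s) - f x) := by
        ring
      rw [hc]
      refine (abs_add_le _ _).trans ?_
      push_cast
      linarith
  refine ⟨L, fun n => ?_⟩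
  obtain ⟨l, hl1, hl2, hl3⟩ := wlen_exists hS (h ^ n)
  have ha := hlist l hl2 1
  rw [hl3, hl1, one_mul] at ha
  have hb := hf 1 n
  rw [mul_one] at hb
  rw [hb, add_sub_cancel_right] at ha
  exact_mod_cast ha

theorem morse_of_finite_index {G : Type*} [Group G] {S : Finset G} (hS : Gen S) {h : G}
    (hh : ¬ IsOfFinOrder h) (hi : (Subgroup.zpowers h).index ≠ 0) : IsMorse S h := by
  classical
  obtain ⟨f, τ, F, h1, h2, h3⟩ := ElemA_tau hi
  obtain ⟨L, hL⟩ := ElemA_lower hS hh f τ F h1 h2 h3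
  have hdist : ∀ m n : ℤ, wdist S (h ^ m) (h ^ n) = wlen S (h ^ (n - m)) := by
    intro m n
    unfold wdist
    congr 1
    rw [← zpow_neg, ← zpow_add]
    congr 1
    ring
  refine ⟨⟨L + wlen S h + 1, 0, ?_, le_rfl, fun m n => ?_⟩, fun K C _ _ => ?_⟩
  · have : (0 : ℝ) ≤ L + wlen S h := by positivity
    linarith
  · have hK : (0 : ℝ) < L + wlen S h + 1 := by positivity
    have ha := hL (n - m)
    have hb := ElemA_pow hS h (n - m)
    rw [hdist]
    push_cast at ha hb
    rw [abs_sub_comm (n : ℝ) m] at ha hb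
    constructor
    · rw [sub_zero, div_le_iff₀ hK]
      refine ha.trans ?_
      have h0 : (0 : ℝ) ≤ wlen S (h ^ (n - m)) := Nat.cast_nonneg _
      have h4 : (0 : ℝ) ≤ wlen S h := Nat.cast_nonneg _
      nlinarith [mul_nonneg h0 h4]
    · refine hb.trans ?_
      have h0 : (0 : ℝ) ≤ |(m : ℝ) - n| := abs_nonneg _
      have h4 : (0 : ℝ) ≤ L := Nat.cast_nonneg _
      nlinarith [mul_nonneg h0 h4]
  · refine ⟨(F.sup (fun t => wlen S t) : ℕ), fun T c _ _ _ _ t _ => ⟨f (c t), ?_⟩⟩
    have e : wdist S (c t) (h ^ f (c t)) = wlen S (τ (c t)) := by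
      unfold wdist
      rw [← wlen_inv]
      congr 1
      have := h1 (c t)
      rw [mul_inv_rev, inv_inv, inv_mul_eq_iff_eq_mul]
      exact this
    rw [e]
    have := Finset.le_sup (f := fun t => wlen S t) (h2 (c t))
    exact_mod_cast this

theorem index_of_bounded {G : Type*} [Group G] {A : Finset G} (hA : Gen A)
    (h : G) {n : ℕ} (hn : ∀ z : G, ∃ i : ℤ, wdist A z (h ^ i) < n) :
    (Subgroup.zpowers h).index ≠ 0 := by
  have hfin := wlen_fin hA n
  have : Finite (G ⧸ Subgroup.zpowers h) := by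
    have hF : Finite {g : G | wlen A g ≤ n} := hfin.to_subtype
    apply Finite.of_surjective
      (fun b : {g : G | wlen A g ≤ n} => (((b : G)⁻¹ : G) : G ⧸ Subgroup.zpowers h))
    intro q
    obtain ⟨x, rfl⟩ := QuotientGroup.mk_surjective q
    obtain ⟨i, hi⟩ := hn x⁻¹
    refine ⟨⟨(h ^ i)⁻¹ * x⁻¹, ?_⟩, ?_⟩
    · show wlen A ((h ^ i)⁻¹ * x⁻¹) ≤ n
      unfold wdist at hi
      rw [inv_inv] at hi
      rw [← wlen_inv, mul_inv_rev, inv_inv, inv_inv]
      exact hi.le
    · show ((((h ^ i)⁻¹ * x⁻¹)⁻¹ : G) : G ⧸ Subgroup.zpowers h) = x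
      rw [QuotientGroup.eq]
      refine Subgroup.mem_zpowers_iff.2 ⟨-i, ?_⟩
      group
  exact Subgroup.index_ne_zero_of_finite

end Pool.Agent.MHN
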