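import Pool.Agent.MHN.FinT

/-!
Module ElemB (difficulty 3): the case where `⟨h⟩` has finite index in `H`.

* `ell_const`: let `φ = MulAut.conjNormal x⁻¹`, `k = φ h`. `⟨k⟩ = φ(⟨h⟩)` has the same index `e` in
  `H` as `⟨h⟩`. Some `m > 0` has `k^m ∈ ⟨h⟩`, `k^m = h^m'` (finite index). The index of `⟨k^m⟩` is
  `m e` and that of `⟨h^m'⟩` is `|m'| e` (infinite order; `⟨h^m⟩` has index `m` in `⟨h⟩`), so
  `|m'| = m`. Now `dx A x 1 (h^n) = wlen A (k^n)`, and `wlen A (k^(m n)) = wlen A (h^(± m n)) =
  wlen A (h^(m n))`; by `tl_tendsto` for `dx A x` and `dx A 1` along multiples of `m` (and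
  uniqueness of limits) the two translation lengths agree.
* `index_elem`: `finite_small` with `T = ell A h 1 + 1`: by `ell_const` every `x : G` is in `H g`,
  `g ∈ F`; so `H` has finite index in `G`, and `⟨h⟩` has finite index in `H`.
-/

set_option autoImplicit false

open Filter Topology

namespace Pool.Agent.MHN

universe u

private theorem ElemB_index_pow {K : Type*} [Group K] {k : K} (hk : ¬ IsOfFinOrder k) (m : ℤ) :
    (Subgroup.zpowers (k ^ m)).index = m.natAbs * (Subgroup.zpowers k).index := by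
  have hinj : Function.Injective (zpowersHom K k) := by
    intro a b hab
    have h1 : k ^ (Multiplicative.toAdd a) = k ^ (Multiplicative.toAdd b) := by
      simpa [zpowersHom_apply] using hab
    have h2 := injective_zpow_iff_not_isOfFinOrder.2 hk h1
    exact Multiplicative.toAdd.injective h2
  have hle : Subgroup.zpowers (k ^ m) ≤ Subgroup.zpowers k := by
    rw [Subgroup.zpowers_le]
    exact Subgroup.zpow_mem _ (Subgroup.mem_zpowers k) m
  rw [← Subgroup.relIndex_mul_index hle]
  congr 1
  have e1 : Subgroup.zpowers (k ^ m) =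
      Subgroup.map (zpowersHom K k) (Subgroup.zpowers (Multiplicative.ofAdd m)) := by
    rw [MonoidHom.map_zpowers]
    simp [zpowersHom_apply]
  have e2 : Subgroup.zpowers k = Subgroup.map (zpowersHom K k) ⊤ := by
    ext z
    simp only [Subgroup.mem_zpowers_iff, Subgroup.mem_map, Subgroup.mem_top, true_and]
    constructor
    · rintro ⟨n, hn⟩
      exact ⟨Multiplicative.ofAdd n, by simpa [zpowersHom_apply] using hn⟩
    · rintro ⟨n, hn⟩
      exact ⟨Multiplicative.toAdd n, by simpa [zpowersHom_apply] using hn⟩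
  rw [e1, e2, Subgroup.relIndex_map_map_of_injective _ _ hinj, Subgroup.relIndex_top_right]
  have := Int.index_zmultiples m
  rw [← this]
  rfl

theorem ell_const {G : Type u} [Group G] {H : Subgroup G} [H.Normal] {A : Finset H} {δ : ℝ}
    (hA : Gen A) (hδ : Hyp δ (wdist A)) {h : H} (hh : ¬ IsOfFinOrder h)
    (hi : (Subgroup.zpowers h).index ≠ 0) (x : G) : ell A h x = ell A h 1 := by
  set φ : H ≃* H := MulAut.conjNormal x⁻¹ with hφ
  set k : H := φ h with hk
  have hkinf : ¬ IsOfFinOrder k := by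
    intro hf
    have := (φ.symm : H →* H).isOfFinOrder hf
    apply hh
    simpa [hk] using this
  have hidx : (Subgroup.zpowers k).index = (Subgroup.zpowers h).index := by
    have := Subgroup.index_map_equiv (Subgroup.zpowers h) φ
    rw [← this]
    congr 1
    exact (MonoidHom.map_zpowers (φ : H →* H) h).symm
  obtain ⟨m, hm0, -, hm⟩ := Subgroup.exists_pow_mem_of_index_ne_zero hi k
  obtain ⟨m', hm'⟩ := Subgroup.mem_zpowers_iff.1 hm
  have hcard : m'.natAbs = m := by
    have h1 := ElemB_index_pow hh m'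
    have h2 := ElemB_index_pow hkinf (m : ℤ)
    rw [hm', zpow_natCast] at *
    rw [h1, hidx] at h2
    have := Nat.eq_of_mul_eq_mul_right (Nat.pos_of_ne_zero hi) h2
    simpa using this
  have hlen : ∀ n : ℕ, wlen A (k ^ (m * n)) = wlen A (h ^ (m * n)) := by
    intro n
    rw [pow_mul, ← hm']
    rcases Int.natAbs_eq m' with h1 | h1
    · rw [h1, hcard, zpow_natCast, ← pow_mul]
    · rw [h1, hcard, zpow_neg, zpow_natCast, inv_pow, wlen_inv, ← pow_mul]
  have hd1 : ∀ n : ℕ, dx A x 1 (h ^ n) = wlen A (k ^ n) := by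
    intro n
    unfold dx
    rw [inv_one, one_mul, map_pow]
  have hd2 : ∀ n : ℕ, dx A (1 : G) 1 (h ^ n) = wlen A (h ^ n) := by
    intro n
    rw [dx_one, wdist_one]
  have t1 := tl_tendsto (dx_lmet hA hδ x) h
  have t2 := tl_tendsto (dx_lmet hA hδ (1 : G)) h
  have hmul : Tendsto (fun n : ℕ => m * n) atTop atTop :=
    tendsto_id.const_mul_atTop' hm0
  have t1' := t1.comp hmul
  have t2' := t2.comp hmul
  refine tendsto_nhds_unique t1' ?_
  refine t2'.congr ?_
  intro n
  simp only [Function.comp]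
  rw [hd1, hd2, hlen]

theorem index_elem {G : Type u} [Group G] {H : Subgroup G} [H.Normal] {A : Finset H} {δ : ℝ}
    (hA : Gen A) (hδ : Hyp δ (wdist A)) {h : H} (hh : ¬ IsOfFinOrder h)
    (hc : (Subgroup.zpowers (h : G)).relIndex (Subgroup.centralizer {(h : G)}) ≠ 0)
    (hi : (Subgroup.zpowers h).index ≠ 0) : (Subgroup.zpowers (h : G)).index ≠ 0 := by
  obtain ⟨F, hF⟩ := finite_small hA hδ hh hc (ell A h 1 + 1)
  have hHfin : Finite (G ⧸ H) := by
    have : (Set.univ : Set (G ⧸ H)) ⊆ ((fun g : G => (g : G ⧸ H)) '' (F : Set G)) := by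
      intro q _
      obtain ⟨x, rfl⟩ := QuotientGroup.mk_surjective q
      obtain ⟨g, hg, y, hy⟩ := hF x (by rw [ell_const hA hδ hh hi x]; linarith)
      refine ⟨g, hg, ?_⟩
      show (g : G ⧸ H) = (x : G ⧸ H)
      rw [QuotientGroup.eq, hy, ← mul_assoc]
      have := ‹H.Normal›.conj_mem y y.2 g⁻¹
      simpa using this
    exact Set.finite_univ_iff.1 ((F.finite_toSet.image _).subset this)
  have hHi : H.index ≠ 0 := Subgroup.index_ne_zero_of_finite
  have hle : Subgroup.zpowers (h : G) ≤ H := by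
    rw [Subgroup.zpowers_le]; exact h.2
  have hrel : (Subgroup.zpowers (h : G)).relIndex H = (Subgroup.zpowers h).index := by
    rw [Subgroup.relIndex]
    congr 1
    ext z
    simp only [Subgroup.mem_subgroupOf, Subgroup.mem_zpowers_iff]
    constructor
    · rintro ⟨n, hn⟩
      exact ⟨n, Subtype.ext (by simpa using hn)⟩
    · rintro ⟨n, hn⟩
      exact ⟨n, by rw [← hn]; simp⟩
  rw [← Subgroup.relIndex_mul_index hle, hrel]
  exact mul_ne_zero hi hHi

end Pool.Agent.MHN
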