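import Pool.Agent.MHN.RT

/-!
Module FinT (difficulty 3): finitely many fibres with small translation length.

`ell A h x = tl (dx A x) h`.
* `ell_pos`: `tl_pos`. `ell_right`: `dx_right` and `rt_tl` (`funext`).
* `ell_small`: `exists_min` for `dx A x`: some `v : H` with `dx A x v (h * v) ≤ ell + 14 δ`, and
  `dx A x v (h * v) = wlen A (conjNormal x⁻¹ (v⁻¹ * h * v))`; take `u = conjNormal x⁻¹ v`, so that
  `x * u = v * x`.
* `finite_small`: let `B = {k : H | wlen A k ≤ T + 14 δ}` (finite, `wlen_fin`). For `k ∈ B` choose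
  `x_k : G` with `conjNormal x_k⁻¹ h = k` if there is one (else `1`). The centralizer `Z` of `h` is a
  finite union of cosets `⟨h⟩ c_i` (`relIndex ≠ 0`). `F = {c_i * x_k}`. If `ell A h x < T`, take `u`
  from `ell_small`; `k = conjNormal (x u)⁻¹ h ∈ B`; `c = x u x_k⁻¹ ∈ Z`, `c = h^m c_i`, so
  `x = h^m c_i x_k u⁻¹ ∈ H * (c_i x_k)` (`H` normal).
* `ell_bdd_below`: with `T = 1`: `ell A h x < 1` implies `x = y * g`, `g ∈ F`, and
  `ell A h (y * g) = ell A h g` (as `y * g = g * (g⁻¹ y g)`, `ell_right`). Minimum of finitely many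
  positive numbers and `1`.
-/

set_option autoImplicit false

namespace Pool.Agent.MHN

universe u

variable {G : Type u} [Group G] {H : Subgroup G} [H.Normal] {A : Finset H} {δ : ℝ} {h : H}

theorem ell_pos (hA : Gen A) (hδ : Hyp δ (wdist A)) (hh : ¬ IsOfFinOrder h) (x : G) :
    0 < ell A h x := tl_pos (dx_lmet hA hδ x) hh

theorem ell_right (hA : Gen A) (hδ : Hyp δ (wdist A)) (h : H) (x : G) (y : H) :
    ell A h (x * y) = ell A h x := by
  have h1 : dx A (x * (y : G)) =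
      fun a b => dx A x (a * MulAut.conjNormal x y) (b * MulAut.conjNormal x y) := by
    funext a b
    exact dx_right A x y a b
  unfold ell
  rw [h1]
  exact rt_tl (dx_lmet hA hδ x) h (MulAut.conjNormal x y)

theorem ell_small (hA : Gen A) (hδ : Hyp δ (wdist A)) (hh : ¬ IsOfFinOrder h) (x : G) :
    ∃ u : H, (wlen A (MulAut.conjNormal (x * (u : G))⁻¹ h) : ℝ) ≤ ell A h x + 14 * δ := by
  obtain ⟨v, hv⟩ := exists_min (dx_lmet hA hδ x) hh
  refine ⟨MulAut.conjNormal x⁻¹ v, ?_⟩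
  have h1 : (MulAut.conjNormal (x * ((MulAut.conjNormal x⁻¹ v : H) : G))⁻¹ h : H) =
      MulAut.conjNormal x⁻¹ (v⁻¹ * (h * v)) := by
    apply Subtype.ext
    simp only [MulAut.conjNormal_apply, Subgroup.coe_mul, Subgroup.coe_inv]
    group
  rw [h1]
  exact hv

theorem finite_small (hA : Gen A) (hδ : Hyp δ (wdist A)) (hh : ¬ IsOfFinOrder h)
    (hc : (Subgroup.zpowers (h : G)).relIndex (Subgroup.centralizer {(h : G)}) ≠ 0) (T : ℝ) :
    ∃ F : Finset G, ∀ x : G, ell A h x < T → ∃ g ∈ F, ∃ y : H, x = y * g := by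
  classical
  set Z : Subgroup G := Subgroup.centralizer {(h : G)} with hZ
  set K : Subgroup Z := (Subgroup.zpowers (h : G)).subgroupOf Z with hK
  have hKi : K.index ≠ 0 := hc
  have : Finite (Z ⧸ K) := by
    have : K.FiniteIndex := ⟨hKi⟩
    exact Subgroup.finite_quotient_of_finiteIndex
  let _ : Fintype (Z ⧸ K) := Fintype.ofFinite _
  set n : ℕ := ⌊T + 14 * δ⌋₊ with hn
  set B : Finset H := (wlen_fin hA n).toFinset with hB
  let xk : H → G := fun k =>
    if hk : ∃ x : G, MulAut.conjNormal x⁻¹ h = k then hk.choose else 1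
  let r : (Z ⧸ K) → G := fun q => ((Quotient.out q : Z) : G)⁻¹
  refine ⟨((Finset.univ : Finset (Z ⧸ K)) ×ˢ B).image (fun p => r p.1 * xk p.2), ?_⟩
  intro x hx
  obtain ⟨u, hu⟩ := ell_small hA hδ hh x
  set k : H := MulAut.conjNormal (x * (u : G))⁻¹ h with hk
  have hkB : k ∈ B := by
    rw [hB, Set.Finite.mem_toFinset, Set.mem_ofPred_eq, hn]
    apply Nat.le_floor
    linarith
  have hex : ∃ x : G, MulAut.conjNormal x⁻¹ h = k := ⟨x * (u : G), rfl⟩
  have hxk : MulAut.conjNormal (xk k)⁻¹ h = k := by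
    have : xk k = hex.choose := dif_pos hex
    rw [this]
    exact hex.choose_spec
  have hxk' : (xk k)⁻¹ * (h : G) * (xk k) = (x * (u : G))⁻¹ * (h : G) * (x * (u : G)) := by
    have h2 := congrArg (fun z : H => (z : G)) (hxk.trans hk)
    simp only [MulAut.conjNormal_apply, inv_inv] at h2
    exact h2
  have hcom : (x * (u : G) * (xk k)⁻¹) * (h : G) = (h : G) * (x * (u : G) * (xk k)⁻¹) := by
    have h3 : (x * (u : G) * (xk k)⁻¹) * (h : G) =
        (x * (u : G)) * ((xk k)⁻¹ * (h : G) * (xk k)) * (xk k)⁻¹ := by group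
    rw [h3, hxk']
    group
  have hcZ : x * (u : G) * (xk k)⁻¹ ∈ Z := by
    rw [hZ, Subgroup.mem_centralizer_singleton_iff]
    exact hcom
  let c : Z := ⟨x * (u : G) * (xk k)⁻¹, hcZ⟩
  let q : Z ⧸ K := (QuotientGroup.mk c⁻¹)
  obtain ⟨z, hz⟩ := QuotientGroup.mk_out_eq_mul K c⁻¹
  have hzH : (((z : K) : Z) : G) ∈ Subgroup.zpowers (h : G) := by
    exact Subgroup.mem_subgroupOf.1 z.2
  have hzH' : (((z : K) : Z) : G) ∈ H := by
    have hle : Subgroup.zpowers (h : G) ≤ H := by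
      rw [Subgroup.zpowers_le]
      exact h.2
    exact hle hzH
  have hr : r q = (((z : K) : Z) : G)⁻¹ * (x * (u : G) * (xk k)⁻¹) := by
    show ((Quotient.out (QuotientGroup.mk c⁻¹ : Z ⧸ K) : Z) : G)⁻¹ = _
    rw [hz]
    simp [c, mul_assoc]
  refine ⟨r q * xk k, Finset.mem_image.2 ⟨(q, k), ?_, rfl⟩, ?_⟩
  · simp [hkB]
  · refine ⟨⟨(((z : K) : Z) : G) * ((r q * xk k) * (u : G)⁻¹ * (r q * xk k)⁻¹), ?_⟩, ?_⟩
    · apply H.mul_mem hzH'
      exact ‹H.Normal›.conj_mem _ (H.inv_mem u.2) _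
    · show x = (((z : K) : Z) : G) * ((r q * xk k) * (u : G)⁻¹ * (r q * xk k)⁻¹) * (r q * xk k)
      rw [hr]
      group

theorem ell_bdd_below (hA : Gen A) (hδ : Hyp δ (wdist A)) (hh : ¬ IsOfFinOrder h)
    (hc : (Subgroup.zpowers (h : G)).relIndex (Subgroup.centralizer {(h : G)}) ≠ 0) :
    ∃ l : ℝ, 0 < l ∧ ∀ x : G, l ≤ ell A h x := by
  classical
  obtain ⟨F, hF⟩ := finite_small hA hδ hh hc 1
  have h1 : ∀ F : Finset G, ∃ l : ℝ, 0 < l ∧ ∀ g ∈ F, l ≤ ell A h g := by
    intro F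
    induction F using Finset.induction_on with
    | empty => exact ⟨1, one_pos, by simp⟩
    | insert a s _ ih =>
      obtain ⟨l, hl, hs⟩ := ih
      refine ⟨min l (ell A h a), lt_min hl (ell_pos hA hδ hh a), ?_⟩
      intro g hg
      rcases Finset.mem_insert.1 hg with rfl | hg
      · exact min_le_right _ _
      · exact (min_le_left _ _).trans (hs g hg)
  obtain ⟨l, hl, hlF⟩ := h1 F
  refine ⟨min l 1, lt_min hl one_pos, ?_⟩
  intro x
  by_cases hx : ell A h x < 1
  · obtain ⟨g, hg, y, rfl⟩ := hF x hx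
    have h2 : (y : G) * g = g * ((MulAut.conjNormal g⁻¹ y : H) : G) := by
      simp only [MulAut.conjNormal_apply, inv_inv]
      group
    rw [h2, ell_right hA hδ]
    exact (min_le_left _ _).trans (hlF g hg)
  · exact (min_le_right _ _).trans (not_lt.1 hx)

end Pool.Agent.MHN
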