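import Pool.Agent.MHN.Word

/-!
Module MorseOf (difficulty 4): from the divergence estimate to the Morse property.

(QI) `|n| - C₀ ≤ |P (h^n) - P 1| ≤ E * wlen S (h^n)` (`h1` with `x = 1`, `hE`), and
`wlen S (h^n) ≤ |n| * wlen S h`; `wdist S (h^m) (h^n) = wlen S (h^(n-m))`. So `n ↦ h^n` is a
quasi-isometric embedding with `K = max 1 (|E|, wlen S h)`, `C = |C₀|` etc.

(Morse) Let `K ≥ 1`, `C ≥ 0`. Let `k = ⌈K + C⌉₊`, `η = wlen S h`. Choose `L : ℕ`, `L > 0`, with
`L ≥ 2 k K (η + 1) (Cs + 1)` and `D, Q` from `hD L`. `R₁ = D + k` (a natural number).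
Let `c` be a `(K, C)`-quasi-geodesic on `[0, T]` with `c 0, c T` powers of `h`. Discretise:
`v i = c (min i T)` for `i : ℕ`, `i ≤ n := ⌈T⌉₊`. Then `wdist (v i) (v (i+1)) ≤ K + C ≤ k`,
`v 0, v n` are powers of `h`, and `|i - j| - 1 ≤ K (wdist (v i) (v j) + C)`. For `t ∈ [0, T]`,
`wdist (c t) (v ⌊t⌋₊) ≤ K + C`, so it is enough to bound the distance of `v i₀` to the powers of
`h`. Suppose `wdist (v i₀) (h^j) > R₁` for all `j`. Let `s` be the last `i < i₀` with
`∃ j, wdist (v i) (h^j) ≤ R₁`, `t` the first `i > i₀` with this property (both exist, because of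
the endpoints). So all `i` strictly between `s` and `t` have distance `> R₁` to all powers.
Interpolate: there is `x : ℕ → G` with `x 0 = v s`, `x N = v t`, `N ≤ k (t - s)`, unit steps
`wdist (x i) (x (i+1)) ≤ 1`, such that every `x i` (`i ≤ N`) is within `k` of some `v i'` with
`s < i' < t` (note `s < i₀ < t`); hence `wdist (x i) (h^j) ≥ R₁ - k = D` for all `j`. (A handy way:
prove by induction on `t' - s'` that `v s'` and `v t'` are joined by such a path through geodesics
`gmet.geod` between consecutive points; the points on the geodesic `v i → v (i+1)` are within `k`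
of both ends.) By `hD L`: `|P (v t) - P (v s)| ≤ Cs / L * k (t - s) + Q`.
Choose `h^p`, `h^q` within `R₁` of `v s`, `v t`: by `hE`, `h1`
`|q - p| ≤ |P (v t) - P (v s)| + 2 |E| R₁ + 2 C₀`. And
`(t - s) - 1 ≤ K (wdist (v s) (v t) + C) ≤ K (2 R₁ + η |q - p| + C)`. Together
`(t - s) ≤ K η (Cs / L) k (t - s) + Q'` with `K η (Cs/L) k ≤ 1/2` so `t - s ≤ 2 Q'`, and
`wdist (v i₀) (h^p) ≤ wdist (v i₀) (v s) + R₁ ≤ k (t - s) + R₁`: bounded by a constant depending
only on `K, C` (and `S, h, P, ...`).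
-/

set_option autoImplicit false

namespace Pool.Agent.MHN

variable {G : Type*} [Group G] {S : Finset G}

private theorem MorseOf_npow (hS : Gen S) (h : G) (n : ℕ) : wlen S (h ^ n) ≤ n * wlen S h := by
  induction n with
  | zero => simp [wlen_one]
  | succ n ih =>
    rw [pow_succ]
    refine (wlen_mul hS _ _).trans ?_
    rw [Nat.succ_mul]
    omega

private theorem MorseOf_zpow (hS : Gen S) (h : G) (n : ℤ) :
    (wlen S (h ^ n) : ℝ) ≤ wlen S h * |(n : ℝ)| := by
  obtain ⟨k, rfl | rfl⟩ := n.eq_nat_or_neg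
  · have h1 := MorseOf_npow hS h k
    rw [zpow_natCast]
    have h2 : (wlen S (h ^ k) : ℝ) ≤ k * wlen S h := by exact_mod_cast h1
    push_cast
    rw [abs_of_nonneg (by positivity)]
    linarith
  · have h1 := MorseOf_npow hS h k
    rw [zpow_neg, zpow_natCast, wlen_inv]
    have h2 : (wlen S (h ^ k) : ℝ) ≤ k * wlen S h := by exact_mod_cast h1
    push_cast
    rw [abs_neg, abs_of_nonneg (by positivity)]
    linarith

private theorem MorseOf_dist (hS : Gen S) (h : G) (m n : ℤ) :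
    (wdist S (h ^ m) (h ^ n) : ℝ) ≤ wlen S h * |(m : ℝ) - n| := by
  have h1 : wdist S (h ^ m) (h ^ n) = wlen S (h ^ (n - m)) := by
    rw [wdist, ← zpow_neg, ← zpow_add]
    congr 2
    ring
  rw [h1]
  refine (MorseOf_zpow hS h (n - m)).trans ?_
  push_cast
  rw [abs_sub_comm]

private theorem MorseOf_P {h : G} {P : G → ℝ} {C₀ : ℝ}
    (h1 : ∀ (x : G) (n : ℤ), |P (h ^ n * x) - P x - n| ≤ C₀) (m n : ℤ) :
    |(m : ℝ) - n| ≤ |P (h ^ m) - P (h ^ n)| + 2 * C₀ := by
  have h2 := h1 1 m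
  have h3 := h1 1 n
  rw [mul_one] at h2 h3
  have h4 : (m : ℝ) - n = (P (h ^ m) - P (h ^ n)) + (P (h ^ n) - P 1 - n) - (P (h ^ m) - P 1 - m) := by
    ring
  rw [h4]
  refine (abs_sub _ _).trans ?_
  have h5 := abs_add_le (P (h ^ m) - P (h ^ n)) (P (h ^ n) - P 1 - n)
  linarith

theorem qi_of_lip (hS : Gen S) (h : G) (P : G → ℝ) (C₀ E : ℝ)
    (h1 : ∀ (x : G) (n : ℤ), |P (h ^ n * x) - P x - n| ≤ C₀)
    (hE : ∀ x y : G, |P x - P y| ≤ E * wdist S x y) :
    ∃ K C : ℝ, 1 ≤ K ∧ 0 ≤ C ∧ ∀ m n : ℤ,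
      |(m : ℝ) - n| / K - C ≤ (wdist S (h ^ m) (h ^ n) : ℝ) ∧
        (wdist S (h ^ m) (h ^ n) : ℝ) ≤ K * |(m : ℝ) - n| + C := by
  have hC₀ : 0 ≤ C₀ := (abs_nonneg _).trans (h1 1 0)
  refine ⟨max 1 (max |E| (wlen S h)), 2 * C₀, le_max_left _ _, by linarith, fun m n => ⟨?_, ?_⟩⟩
  · have hK : 1 ≤ max 1 (max |E| (wlen S h : ℝ)) := le_max_left _ _
    have hKE : E ≤ max 1 (max |E| (wlen S h : ℝ)) :=
      (le_abs_self E).trans ((le_max_left _ _).trans (le_max_right _ _))
    generalize max 1 (max |E| (wlen S h : ℝ)) = K at hK hKE ⊢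
    have hKpos : 0 < K := by linarith
    have h2 := MorseOf_P h1 m n
    have h3 := hE (h ^ m) (h ^ n)
    have h4 : E * (wdist S (h ^ m) (h ^ n) : ℝ) ≤ K * wdist S (h ^ m) (h ^ n) :=
      mul_le_mul_of_nonneg_right hKE (by positivity)
    rw [sub_le_iff_le_add, div_le_iff₀ hKpos]
    nlinarith
  · have hKw : (wlen S h : ℝ) ≤ max 1 (max |E| (wlen S h : ℝ)) :=
      (le_max_right _ _).trans (le_max_right _ _)
    have h2 := MorseOf_dist hS h m n
    have h3 : (wlen S h : ℝ) * |(m : ℝ) - n| ≤ max 1 (max |E| (wlen S h : ℝ)) * |(m : ℝ) - n| :=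
      mul_le_mul_of_nonneg_right hKw (abs_nonneg _)
    linarith

/-- interpolation -/
private theorem MorseOf_path {X : Type*} {d : X → X → ℕ} (hd : GMet X d) {v : ℕ → X} {k : ℕ}
    (hk : 0 < k) (hv : ∀ i, d (v i) (v (i + 1)) ≤ k) (s m : ℕ) :
    ∃ x : ℕ → X, x 0 = v s ∧ x (k * m) = v (s + m) ∧ (∀ j, d (x j) (x (j + 1)) ≤ 1) ∧
      ∀ j, d (x j) (v (s + j / k)) ≤ k ∧ d (x j) (v (s + j / k + 1)) ≤ k := by
  choose gc g0 g1 g2 using hd.geod
  refine ⟨fun j => gc (v (s + j / k)) (v (s + j / k + 1))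
    (min (j % k) (d (v (s + j / k)) (v (s + j / k + 1)))), ?_, ?_, ?_, ?_⟩
  · simp only [Nat.zero_div, Nat.zero_mod, Nat.zero_min, add_zero]
    exact g0 _ _
  · simp only [Nat.mul_mod_right, Nat.zero_min, Nat.mul_div_cancel_left m hk]
    exact g0 _ _
  · intro j
    simp only
    rcases Nat.lt_or_ge (j % k + 1) k with h1 | h1
    · have e1 : (j + 1) / k = j / k := by
        rw [Nat.add_div hk]
        have : 1 % k = 1 := Nat.mod_eq_of_lt (by omega)
        rw [this, Nat.div_eq_of_lt (by omega : 1 < k), if_neg (by omega)]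
        omega
      have e2 : (j + 1) % k = j % k + 1 := by
        rw [Nat.add_mod, Nat.mod_eq_of_lt (by omega : 1 < k)]
        exact Nat.mod_eq_of_lt h1
      rw [e1, e2]
      rw [g2 _ _ _ _ (min_le_min_right _ (Nat.le_succ _)) (min_le_right _ _)]
      omega
    · have h2 : j % k = k - 1 := by
        have := Nat.mod_lt j hk
        omega
      have e0 : j + 1 = k * (j / k + 1) := by
        have := Nat.div_add_mod j k
        rw [Nat.mul_add, mul_one]
        omega
      have e1 : (j + 1) / k = j / k + 1 := by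
        rw [e0, Nat.mul_div_cancel_left _ hk]
      have e2 : (j + 1) % k = 0 := by
        rw [e0, Nat.mul_mod_right]
      rw [e1, e2, Nat.zero_min, g0, h2]
      have h3 := hv (s + j / k)
      have h4 := g2 (v (s + j / k)) (v (s + j / k + 1))
        (min (k - 1) (d (v (s + j / k)) (v (s + j / k + 1)))) (d (v (s + j / k)) (v (s + j / k + 1)))
        (min_le_right _ _) le_rfl
      rw [g1] at h4
      have e3 : s + (j / k + 1) = s + j / k + 1 := by ring
      rw [e3, h4]
      omega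
  · intro j
    simp only
    have h3 := hv (s + j / k)
    constructor
    · have h4 := g2 (v (s + j / k)) (v (s + j / k + 1)) 0
        (min (j % k) (d (v (s + j / k)) (v (s + j / k + 1)))) (Nat.zero_le _) (min_le_right _ _)
      rw [g0] at h4
      rw [hd.symm, h4]
      omega
    · have h4 := g2 (v (s + j / k)) (v (s + j / k + 1))
        (min (j % k) (d (v (s + j / k)) (v (s + j / k + 1)))) (d (v (s + j / k)) (v (s + j / k + 1)))
        (min_le_right _ _) le_rfl
      rw [g1] at h4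
      rw [h4]
      omega

theorem morse_of_div (hS : Gen S) (h : G) (P : G → ℝ)
    (C₀ E Cs : ℝ) (hCs : 0 ≤ Cs) (h1 : ∀ (x : G) (n : ℤ), |P (h ^ n * x) - P x - n| ≤ C₀)
    (hE : ∀ x y : G, |P x - P y| ≤ E * wdist S x y)
    (hD : ∀ L : ℕ, 0 < L → ∃ (D : ℕ) (Q : ℝ), ∀ (N : ℕ) (x : ℕ → G),
      (∀ i < N, wdist S (x i) (x (i + 1)) ≤ 1) →
      (∀ i ≤ N, ∀ j : ℤ, D ≤ wdist S (x i) (h ^ j)) →
      |P (x N) - P (x 0)| ≤ Cs / L * N + Q) : IsMorse S h := by
  refine ⟨qi_of_lip hS h P C₀ E h1 hE, fun K C hK hC => ?_⟩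
  have hC₀ : 0 ≤ C₀ := (abs_nonneg _).trans (h1 1 0)
  have hKpos : 0 < K := by linarith
  -- the constants
  obtain ⟨k, hkd⟩ : ∃ k : ℕ, k = ⌈K + C⌉₊ := ⟨_, rfl⟩
  have hk : K + C ≤ k := by rw [hkd]; exact Nat.le_ceil _
  have hkpos : 0 < k := by
    have : (0 : ℝ) < k := by linarith
    exact_mod_cast this
  have hkpos' : (0 : ℝ) < k := by exact_mod_cast hkpos
  obtain ⟨η, hη⟩ : ∃ η : ℝ, η = wlen S h := ⟨_, rfl⟩
  have hη0 : 0 ≤ η := by rw [hη]; positivity
  obtain ⟨L, hLd⟩ : ∃ L : ℕ, L = ⌈2 * k * K * (η + 1) * (Cs + 1)⌉₊ + 1 := ⟨_, rfl⟩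
  have hL : 2 * k * K * (η + 1) * (Cs + 1) ≤ L := by
    rw [hLd]
    push_cast
    have := Nat.le_ceil (2 * k * K * (η + 1) * (Cs + 1))
    linarith
  have hLpos : 0 < L := by omega
  have hLpos' : (0 : ℝ) < L := by exact_mod_cast hLpos
  have hhalf : K * η * (Cs / L * k) ≤ 1 / 2 := by
    have e1 : K * η * (Cs / L * k) = (K * η * Cs * k) / L := by ring
    rw [e1, div_le_iff₀ hLpos']
    have e2 : K * η * Cs * k ≤ K * (η + 1) * (Cs + 1) * k := by
      have e3 : η * Cs ≤ (η + 1) * (Cs + 1) := by nlinarith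
      have e4 := mul_le_mul_of_nonneg_left e3 (mul_nonneg hKpos.le hkpos'.le)
      nlinarith
    nlinarith
  obtain ⟨D, Q, hDQ⟩ := hD L hLpos
  obtain ⟨R₁, hR₁⟩ : ∃ R₁ : ℕ, R₁ = D + k := ⟨_, rfl⟩
  obtain ⟨Z, hZ⟩ : ∃ Z : ℝ, Z = |Q| + 2 * |E| * R₁ + 2 * C₀ := ⟨_, rfl⟩
  have hZ0 : 0 ≤ Z := by rw [hZ]; positivity
  obtain ⟨Q', hQ'⟩ : ∃ Q' : ℝ, Q' = 2 * (1 + K * (C + 2 * R₁ + η * Z)) := ⟨_, rfl⟩
  have hQ'0 : 0 ≤ Q' := by rw [hQ']; positivity
  refine ⟨k + R₁ + k * Q', fun T c hT hc hc0 hcT => ?_⟩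
  -- the discretisation
  have hτ : ∀ i : ℕ, min (i : ℝ) T ∈ Set.Icc 0 T := fun i =>
    ⟨le_min (by positivity) hT, min_le_right _ _⟩
  obtain ⟨v, hv⟩ : ∃ v : ℕ → G, v = fun i : ℕ => c (min (i : ℝ) T) := ⟨_, rfl⟩
  have hvk : ∀ i, wdist S (v i) (v (i + 1)) ≤ k := by
    intro i
    have h2 := (hc _ (hτ i) _ (hτ (i + 1))).2
    have h3 : |min (i : ℝ) T - min ((i + 1 : ℕ) : ℝ) T| ≤ 1 := by
      have h4 := abs_min_sub_min_le_max (i : ℝ) T ((i + 1 : ℕ) : ℝ) T
      refine h4.trans ?_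
      push_cast
      simp
    have h5 : (wdist S (v i) (v (i + 1)) : ℝ) ≤ k := by
      rw [hv]
      simp only
      refine h2.trans ?_
      have := mul_le_mul_of_nonneg_left h3 hKpos.le
      linarith
    exact_mod_cast h5
  have hvd : ∀ (i m : ℕ), wdist S (v i) (v (i + m)) ≤ k * m := by
    intro i m
    induction m with
    | zero => simp [wdist_self]
    | succ m ih =>
      refine (wdist_tri hS _ (v (i + m)) _).trans ?_
      have := hvk (i + m)
      rw [← add_assoc, Nat.mul_succ]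
      omega
  obtain ⟨n, hn⟩ : ∃ n : ℕ, n = ⌈T⌉₊ := ⟨_, rfl⟩
  have hTn : T ≤ n := by rw [hn]; exact Nat.le_ceil T
  have hnT : (n : ℝ) < T + 1 := by rw [hn]; exact Nat.ceil_lt_add_one hT
  have near0 : ∃ j : ℤ, wdist S (v 0) (h ^ j) ≤ R₁ := by
    obtain ⟨m, hm⟩ := hc0
    refine ⟨m, ?_⟩
    rw [hv]
    simp only [Nat.cast_zero]
    rw [min_eq_left hT, hm, wdist_self]
    exact Nat.zero_le _
  have nearn : ∃ j : ℤ, wdist S (v n) (h ^ j) ≤ R₁ := by
    obtain ⟨m, hm⟩ := hcT
    refine ⟨m, ?_⟩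
    rw [hv]
    simp only
    rw [min_eq_right hTn, hm, wdist_self]
    exact Nat.zero_le _
  -- the main claim
  have main : ∀ i₀ ≤ n, ∃ j : ℤ, (wdist S (v i₀) (h ^ j) : ℝ) ≤ R₁ + k * Q' := by
    intro i₀ hi₀
    by_cases hnear : ∃ j : ℤ, wdist S (v i₀) (h ^ j) ≤ R₁
    · obtain ⟨j, hj⟩ := hnear
      refine ⟨j, ?_⟩
      have : (wdist S (v i₀) (h ^ j) : ℝ) ≤ R₁ := by exact_mod_cast hj
      have : 0 ≤ (k : ℝ) * Q' := by positivity
      linarith
    · classical
      obtain ⟨s, hs⟩ : ∃ s, s = Nat.findGreatest (fun i => ∃ j : ℤ, wdist S (v i) (h ^ j) ≤ R₁) i₀ :=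
        ⟨_, rfl⟩
      have hs1 : s ≤ i₀ := by rw [hs]; exact Nat.findGreatest_le _
      have hs2 : ∃ j : ℤ, wdist S (v s) (h ^ j) ≤ R₁ := by
        rw [hs]
        exact Nat.findGreatest_spec (P := fun i => ∃ j : ℤ, wdist S (v i) (h ^ j) ≤ R₁)
          (Nat.zero_le i₀) near0
      have hs3 : ∀ i, s < i → i ≤ i₀ → ¬ ∃ j : ℤ, wdist S (v i) (h ^ j) ≤ R₁ := by
        intro i h2 h3
        rw [hs] at h2
        exact Nat.findGreatest_is_greatest h2 h3
      have hs4 : s < i₀ := by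
        rcases Nat.lt_or_ge s i₀ with h2 | h2
        · exact h2
        · exact absurd (by rw [le_antisymm hs1 h2] at hs2; exact hs2) hnear
      have hn0 : i₀ < n := by
        rcases Nat.lt_or_ge i₀ n with h2 | h2
        · exact h2
        · exact absurd (by rw [le_antisymm hi₀ h2]; exact nearn) hnear
      have hex : ∃ t, i₀ < t ∧ ∃ j : ℤ, wdist S (v t) (h ^ j) ≤ R₁ := ⟨n, hn0, nearn⟩
      obtain ⟨t, ht⟩ : ∃ t, t = Nat.find hex := ⟨_, rfl⟩
      have ht1 : i₀ < t ∧ ∃ j : ℤ, wdist S (v t) (h ^ j) ≤ R₁ := by rw [ht]; exact Nat.find_spec hex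
      have ht2 : t ≤ n := by rw [ht]; exact Nat.find_min' hex ⟨hn0, nearn⟩
      have ht3 : ∀ i, i₀ < i → i < t → ¬ ∃ j : ℤ, wdist S (v i) (h ^ j) ≤ R₁ := by
        intro i h2 h3 h4
        rw [ht] at h3
        exact Nat.find_min hex h3 ⟨h2, h4⟩
      have hfar : ∀ i, s < i → i < t → ∀ j : ℤ, R₁ < wdist S (v i) (h ^ j) := by
        intro i h2 h3 j
        rcases Nat.lt_or_ge i₀ i with h4 | h4
        · have := ht3 i h4 h3
          push Not at this
          exact this j
        · have := hs3 i h2 h4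
          push Not at this
          exact this j
      obtain ⟨m, hm⟩ : ∃ m, t = s + m := ⟨t - s, by omega⟩
      have hm2 : 2 ≤ m := by omega
      obtain ⟨x, hx0, hxm, hx1, hxk⟩ := MorseOf_path (gmet hS) hkpos hvk s m
      have hxD : ∀ i ≤ k * m, ∀ j : ℤ, D ≤ wdist S (x i) (h ^ j) := by
        intro i hi j
        -- a point of the discretisation strictly between, within distance k
        have hex2 : ∃ i', s < i' ∧ i' < t ∧ wdist S (v i') (x i) ≤ k := by
          have hb : i / k ≤ m := by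
            rw [Nat.div_le_iff_le_mul_add_pred hkpos]
            omega
          rcases Nat.eq_zero_or_pos (i / k) with h2 | h2
          · refine ⟨s + 1, by omega, by omega, ?_⟩
            have h3 := (hxk i).2
            rw [h2, add_zero, wdist_comm] at h3
            exact h3
          · rcases Nat.lt_or_ge (i / k) m with h3 | h3
            · refine ⟨s + i / k, by omega, by omega, ?_⟩
              have h4 := (hxk i).1
              rw [wdist_comm] at h4
              exact h4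
            · have h4 : i = k * m := by
                have h5 : i / k = m := le_antisymm hb h3
                have h6 := Nat.mul_div_le i k
                rw [h5] at h6
                omega
              refine ⟨s + m - 1, by omega, by omega, ?_⟩
              rw [h4, hxm]
              have h5 := hvk (s + m - 1)
              have h6 : s + m - 1 + 1 = s + m := by omega
              rw [h6] at h5
              exact h5
        obtain ⟨i', h2, h3, h4⟩ := hex2
        have h5 := hfar i' h2 h3 j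
        have h6 := wdist_tri hS (v i') (x i) (h ^ j)
        omega
      have hPx := hDQ (k * m) x (fun i _ => hx1 i) hxD
      rw [hx0, hxm, ← hm] at hPx
      obtain ⟨p, hp⟩ := hs2
      obtain ⟨q, hq⟩ := ht1.2
      refine ⟨p, ?_⟩
      have hpR : (wdist S (v s) (h ^ p) : ℝ) ≤ R₁ := by exact_mod_cast hp
      have hqR : (wdist S (v t) (h ^ q) : ℝ) ≤ R₁ := by exact_mod_cast hq
      -- bound of |p - q|
      have hEabs : ∀ (a b : G), (wdist S a b : ℝ) ≤ R₁ → |P a - P b| ≤ |E| * R₁ := by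
        intro a b hab
        refine (hE a b).trans ?_
        calc E * (wdist S a b : ℝ) ≤ |E| * wdist S a b :=
              mul_le_mul_of_nonneg_right (le_abs_self E) (by positivity)
          _ ≤ |E| * R₁ := mul_le_mul_of_nonneg_left hab (abs_nonneg _)
      have h2 := hEabs _ _ hpR
      have h3 := hEabs _ _ hqR
      have h4 := MorseOf_P h1 p q
      have h5 : |P (h ^ p) - P (h ^ q)| ≤ |P (v t) - P (v s)| + 2 * |E| * R₁ := by
        have h6 : P (h ^ p) - P (h ^ q) = -(P (v t) - P (v s)) - (P (v s) - P (h ^ p)) + (P (v t) - P (h ^ q)) := by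
          ring
        rw [h6]
        refine (abs_add_le _ _).trans ?_
        have h7 := abs_sub (-(P (v t) - P (v s))) (P (v s) - P (h ^ p))
        rw [abs_neg] at h7
        linarith
      -- the length
      have hX0 : (0 : ℝ) ≤ m := by positivity
      have h6 : |P (v t) - P (v s)| ≤ Cs / L * k * m + |Q| := by
        refine hPx.trans ?_
        push_cast
        have := le_abs_self Q
        linarith
      have h7 : |(p : ℝ) - q| ≤ Cs / L * k * m + Z := by
        rw [hZ]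
        linarith
      have h8 : (wdist S (v s) (v t) : ℝ) ≤ 2 * R₁ + η * |(p : ℝ) - q| := by
        have e1 : (wdist S (v s) (v t) : ℝ) ≤ wdist S (v s) (h ^ p) + wdist S (h ^ p) (v t) := by
          exact_mod_cast wdist_tri hS _ _ _
        have e2 : (wdist S (h ^ p) (v t) : ℝ) ≤ wdist S (h ^ p) (h ^ q) + wdist S (h ^ q) (v t) := by
          exact_mod_cast wdist_tri hS _ _ _
        have e3 := MorseOf_dist hS h p q
        rw [wdist_comm S (h ^ q) (v t)] at e2
        rw [hη]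
        linarith
      have h9 := (hc _ (hτ s) _ (hτ t)).1
      have h10 : (m : ℝ) - 1 ≤ |min (s : ℝ) T - min (t : ℝ) T| := by
        have e1 : (t : ℝ) - 1 ≤ min (t : ℝ) T := by
          refine le_min (by linarith) ?_
          have : (t : ℝ) ≤ n := by exact_mod_cast ht2
          linarith
        have e2 : min (s : ℝ) T ≤ s := min_le_left _ _
        have e3 : (t : ℝ) = s + m := by exact_mod_cast hm
        rw [abs_sub_comm]
        refine le_trans ?_ (le_abs_self _)
        linarith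
      have h11 : |min (s : ℝ) T - min (t : ℝ) T| / K - C ≤ 2 * R₁ + η * (Cs / L * k * m + Z) := by
        have e1 : wdist S (c (min (s : ℝ) T)) (c (min (t : ℝ) T)) = wdist S (v s) (v t) := by rw [hv]
        rw [e1] at h9
        have e2 := mul_le_mul_of_nonneg_left h7 hη0
        linarith
      rw [sub_le_iff_le_add, div_le_iff₀ hKpos] at h11
      have h12 : (m : ℝ) ≤ Q' := by
        have e1 : (2 * R₁ + η * (Cs / L * k * m + Z) + C) * K =
            K * (C + 2 * R₁ + η * Z) + K * η * (Cs / L * k) * m := by ring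
        rw [e1] at h11
        have e2 : K * η * (Cs / L * k) * m ≤ 1 / 2 * m := mul_le_mul_of_nonneg_right hhalf hX0
        rw [hQ']
        linarith
      -- conclusion
      have h13 : (wdist S (v i₀) (v s) : ℝ) ≤ k * m := by
        obtain ⟨r, hr⟩ : ∃ r, i₀ = s + r := ⟨i₀ - s, by omega⟩
        have e1 := hvd s r
        rw [← hr, wdist_comm] at e1
        have e2 : wdist S (v i₀) (v s) ≤ k * m := e1.trans (Nat.mul_le_mul_left _ (by omega))
        exact_mod_cast e2
      have h14 : (wdist S (v i₀) (h ^ p) : ℝ) ≤ wdist S (v i₀) (v s) + wdist S (v s) (h ^ p) := by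
        exact_mod_cast wdist_tri hS _ _ _
      have h15 : (k : ℝ) * m ≤ k * Q' := mul_le_mul_of_nonneg_left h12 hkpos'.le
      linarith
  intro t ht
  have hfl : (⌊t⌋₊ : ℝ) ≤ t := Nat.floor_le ht.1
  have hfl2 : t < ⌊t⌋₊ + 1 := Nat.lt_floor_add_one t
  have hi : ⌊t⌋₊ ≤ n := by
    have : (⌊t⌋₊ : ℝ) ≤ n := hfl.trans (ht.2.trans hTn)
    exact_mod_cast this
  obtain ⟨j, hj⟩ := main _ hi
  refine ⟨j, ?_⟩
  have e1 : (wdist S (c t) (h ^ j) : ℝ) ≤ wdist S (c t) (v ⌊t⌋₊) + wdist S (v ⌊t⌋₊) (h ^ j) := by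
    exact_mod_cast wdist_tri hS _ _ _
  have e2 : (wdist S (c t) (v ⌊t⌋₊) : ℝ) ≤ k := by
    have e3 := (hc t ht _ (hτ ⌊t⌋₊)).2
    have e4 : |t - min (⌊t⌋₊ : ℝ) T| ≤ 1 := by
      rw [min_eq_left (hfl.trans ht.2), abs_le]
      constructor <;> linarith
    have e5 := mul_le_mul_of_nonneg_left e4 hKpos.le
    rw [hv]
    simp only
    linarith
  linarith

end Pool.Agent.MHN
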