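import Pool.Agent.MHN.PFun
import Pool.Agent.MHN.FinT
import Pool.Agent.MHN.Div
import Pool.Agent.MHN.MorseOf
import Pool.Agent.MHN.ElemA
import Pool.Agent.MHN.ElemB
import Pool.Agent.MHN.Conv

set_option autoImplicit false

namespace Pool.Agent.MHN

universe u

theorem lip_of_step {G : Type u} [Group G] {S : Finset G} (hS : Gen S) {P : G → ℝ} {E : ℝ}
    (hE : ∀ x w : G, wlen S w ≤ 1 → |P (x * w) - P x| ≤ E) (x y : G) :
    |P x - P y| ≤ E * wdist S x y := by
  have key : ∀ (n : ℕ) (x y : G), wdist S x y = n → |P x - P y| ≤ E * n := by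
    intro n
    induction n with
    | zero =>
      intro x y hxy
      have : x⁻¹ * y = 1 := (wlen_eq_zero hS _).1 hxy
      have : x = y := by rw [inv_mul_eq_one] at this; exact this
      simp [this]
    | succ n ih =>
      intro x y hxy
      obtain ⟨c, hc0, hc1, hcc⟩ := (gmet hS).geod x y
      rw [hxy] at hc1
      have hn : wdist S (c 0) (c n) = n := by
        have := hcc 0 n (Nat.zero_le _) (by omega)
        simpa using this
      have h1' := ih x (c n) (by rw [← hc0]; exact hn)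
      have h2' : wdist S (c n) (c (n + 1)) = 1 := by
        have := hcc n (n + 1) (Nat.le_succ _) (by omega)
        simpa using this
      have h3' := hE (c n) ((c n)⁻¹ * y) (by
        have : wdist S (c n) (c (n+1)) ≤ 1 := h2'.le
        rw [hc1] at this; exact this)
      rw [mul_inv_cancel_left] at h3'
      have : |P x - P y| ≤ |P x - P (c n)| + |P (c n) - P y| := abs_sub_le _ _ _
      rw [abs_sub_comm (P y)] at h3'
      push_cast
      linarith
  exact key _ x y rfl

theorem criterion_nonelem {G : Type u} [Group G] {S : Finset G} (hS : Gen S) {H : Subgroup G}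
    [H.Normal] {A : Finset H} {δ : ℝ} (hA : Gen A) (hδ : Hyp δ (wdist A)) (k : H)
    (hk' : ¬ IsOfFinOrder k)
    (hc' : (Subgroup.zpowers (k : G)).relIndex (Subgroup.centralizer {(k : G)}) ≠ 0)
    (hne : ∀ n : ℕ, ∃ z : H, ∀ i : ℤ, n ≤ wdist A z (k ^ i)) : IsMorse S (k : G) := by
  obtain ⟨P, R, C₀, hC₀, hR, h1, h2, h4⟩ := exists_P hA hδ k hk' hne
  obtain ⟨l, hl, hle⟩ := ell_bdd_below hA hδ hk' hc'
  obtain ⟨Cs, hCs, hD⟩ := div_of_P hS hA k P (ell A k) R C₀ l hl hle hR h2 h4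
    (finite_small hA hδ hk' hc')
  have hstep : ∃ E : ℝ, 0 ≤ E ∧ ∀ x w : G, wlen S w ≤ 1 → |P (x * w) - P x| ≤ E := by
    have hfin := wlen_fin hS 1
    obtain ⟨M, hM⟩ := (hfin.image R).bddAbove
    refine ⟨4 + (|M|) * (2 / l), by positivity, fun x w hw => ?_⟩
    have hRw : R w ≤ |M| := le_trans (hM ⟨w, hw, rfl⟩) (le_abs_self _)
    refine (h2 x w).trans ?_
    have e1 : 1 / ell A k x ≤ 1 / l := one_div_le_one_div_of_le hl (hle x)
    have e2 : 1 / ell A k (x * w) ≤ 1 / l := one_div_le_one_div_of_le hl (hle _)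
    have e3 : 0 ≤ 1 / l := by positivity
    have e4 : 1 / ell A k x + 1 / ell A k (x * w) ≤ 2 / l := by
      have : (2 : ℝ) / l = 1 / l + 1 / l := by ring
      rw [this]; linarith
    have e5 : 0 ≤ 1 / ell A k x + 1 / ell A k (x * w) := by
      have := lt_of_lt_of_le hl (hle x)
      have := lt_of_lt_of_le hl (hle (x * w))
      positivity
    have := mul_le_mul hRw e4 e5 (abs_nonneg M)
    linarith
  obtain ⟨E, hE0, hE⟩ := hstep
  have h1' : ∀ (x : G) (n : ℤ), |P ((k : G) ^ n * x) - P x - n| ≤ C₀ / l := by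
    intro x n
    refine (h1 x n).trans ?_
    exact div_le_div_of_nonneg_left hC₀ hl (hle x)
  exact morse_of_div hS (k : G) P (C₀ / l) E Cs hCs h1' (lip_of_step hS hE) hD

theorem criterion_elem {G : Type u} [Group G] {S : Finset G} (hS : Gen S) {H : Subgroup G}
    [H.Normal] {A : Finset H} {δ : ℝ} (hA : Gen A) (hδ : Hyp δ (wdist A)) (k : H)
    (hk' : ¬ IsOfFinOrder k)
    (hc' : (Subgroup.zpowers (k : G)).relIndex (Subgroup.centralizer {(k : G)}) ≠ 0)
    (hne : ¬ ∀ n : ℕ, ∃ z : H, ∀ i : ℤ, n ≤ wdist A z (k ^ i)) : IsMorse S (k : G) := by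
  push Not at hne
  obtain ⟨n, hn⟩ := hne
  have hi := index_of_bounded hA k (n := n) hn
  have hkk : ¬ IsOfFinOrder (k : G) := fun hf => hk' (by
    rwa [Submonoid.isOfFinOrder_coe] at hf)
  exact morse_of_finite_index hS hkk (index_elem hA hδ hk' hc' hi)

theorem criterion {G : Type u} [Group G] {S : Finset G} (hS : Gen S) (H : Subgroup G) [H.Normal]
    (hH : IsHyperbolicGroup H) (h : G) (hm : h ∈ H) (hh : ¬ IsOfFinOrder h) :
    IsMorse S h ↔ (Subgroup.zpowers h).relIndex (Subgroup.centralizer {h}) ≠ 0 := by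
  refine ⟨relIndex_of_morse hS, fun hc => ?_⟩
  obtain ⟨A, hA, δ, hδ⟩ := hH
  have hk' : ¬ IsOfFinOrder (⟨h, hm⟩ : H) := fun hf => hh (by
    have := Submonoid.isOfFinOrder_coe.2 hf
    exact this)
  by_cases hne : ∀ n : ℕ, ∃ z : H, ∀ i : ℤ, n ≤ wdist A z ((⟨h, hm⟩ : H) ^ i)
  · exact criterion_nonelem hS hA hδ ⟨h, hm⟩ hk' hc hne
  · exact criterion_elem hS hA hδ ⟨h, hm⟩ hk' hc hne

end Pool.Agent.MHN
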