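import Pool.Agent.MHN.Defs

/-!
Module UL (difficulty 2): limits along the hyperfilter.

`ul_tendsto`: `Filter.map f (hyperfilter ℕ)` is an ultrafilter containing the compact set
`Set.Icc (-B) B`, so it converges (`IsCompact.ultrafilter_le_nhds`), and `limUnder` is the limit
(`tendsto_nhds_limUnder`). The others follow with `le_of_tendsto`, `ge_of_tendsto`,
`Tendsto.sub`, `Tendsto.abs`. `hyperfilter_const`: an ultrafilter containing a finite union
contains one of the sets (`Ultrafilter.finite_biUnion_mem_iff`).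
-/

set_option autoImplicit false

open Filter Topology

namespace Pool.Agent.MHN

theorem ul_tendsto {f : ℕ → ℝ} {B : ℝ} (hB : ∀ n, |f n| ≤ B) :
    Tendsto f (hyperfilter ℕ : Filter ℕ) (𝓝 (ul f)) := by
  have hc : IsCompact (Set.Icc (-B) B) := isCompact_Icc
  have hmem : Set.Icc (-B) B ∈ ((hyperfilter ℕ).map f : Ultrafilter ℝ) := by
    rw [Ultrafilter.mem_map]
    have : f ⁻¹' Set.Icc (-B) B = Set.univ := by
      ext n
      simp only [Set.mem_preimage, Set.mem_Icc, Set.mem_univ, iff_true]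
      exact abs_le.1 (hB n)
    rw [this]
    exact Filter.univ_mem
  obtain ⟨x, -, hx⟩ := hc.ultrafilter_le_nhds ((hyperfilter ℕ).map f) (by
    rw [Filter.le_principal_iff]
    exact hmem)
  exact tendsto_nhds_limUnder ⟨x, hx⟩

theorem ul_eq {f : ℕ → ℝ} {c : ℝ} (h : Tendsto f (hyperfilter ℕ : Filter ℕ) (𝓝 c)) :
    ul f = c := h.limUnder_eq

theorem ul_le {f : ℕ → ℝ} {B c : ℝ} (hB : ∀ n, |f n| ≤ B)
    (h : ∀ᶠ n in (hyperfilter ℕ : Filter ℕ), f n ≤ c) : ul f ≤ c :=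
  le_of_tendsto (ul_tendsto hB) h

theorem le_ul {f : ℕ → ℝ} {B c : ℝ} (hB : ∀ n, |f n| ≤ B)
    (h : ∀ᶠ n in (hyperfilter ℕ : Filter ℕ), c ≤ f n) : c ≤ ul f :=
  ge_of_tendsto (ul_tendsto hB) h

theorem ul_sub_le {f g : ℕ → ℝ} {B B' c : ℝ} (hB : ∀ n, |f n| ≤ B) (hB' : ∀ n, |g n| ≤ B')
    (h : ∀ᶠ n in (hyperfilter ℕ : Filter ℕ), |f n - g n| ≤ c) : |ul f - ul g| ≤ c :=
  le_of_tendsto ((ul_tendsto hB).sub (ul_tendsto hB')).abs h

theorem hyperfilter_const {X : Type*} {s : Set X} (hs : s.Finite) {g : ℕ → X}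
    (hg : ∀ n, g n ∈ s) : ∃ x ∈ s, ∀ᶠ n in (hyperfilter ℕ : Filter ℕ), g n = x := by
  have h1 : (⋃ x ∈ s, {n : ℕ | g n = x}) ∈ (hyperfilter ℕ : Ultrafilter ℕ) := by
    have : (⋃ x ∈ s, {n : ℕ | g n = x}) = Set.univ := by
      ext n
      simp [hg n]
    rw [this]
    exact Filter.univ_mem
  rw [Ultrafilter.finite_biUnion_mem_iff hs] at h1
  obtain ⟨x, hx, h2⟩ := h1
  exact ⟨x, hx, h2⟩

theorem hyperfilter_of_atTop {p : ℕ → Prop} (h : ∀ᶠ n in atTop, p n) :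
    ∀ᶠ n in (hyperfilter ℕ : Filter ℕ), p n := by
  have h1 : (hyperfilter ℕ : Filter ℕ) ≤ atTop := by
    rw [← Nat.cofinite_eq_atTop]
    exact hyperfilter_le_cofinite
  exact h1 h

end Pool.Agent.MHN
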