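import Pool.Agent.MHN.PowC
import Pool.Agent.MHN.UL

/-!
Module Bus (difficulty 2): stability of Busemann differences.

`bus_stable`: for `N` with `d 1 (a N)` large put `S₁ = d u v + d (a N) (a' N) ≤ d u v + K`,
`S₂ = d u (a N) + d v (a' N)`, `S₃ = d u (a' N) + d v (a N)`. The four-point condition gives
`S₂ ≤ max (S₁, S₃) + 2 δ` and `S₃ ≤ max (S₁, S₂) + 2 δ`; for `d 1 (a N)` large `S₂, S₃ > S₁ + 2 δ`,
so `|S₂ - S₃| ≤ 2 δ`, and `S₂ - S₃` is the quantity in the absolute value.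
`pow_large`: `pow_growth` and `hyperfilter_of_atTop`; `d 1 ((h ^ N)⁻¹) = d 1 (h ^ N)`.
-/

set_option autoImplicit false

open Filter Topology

namespace Pool.Agent.MHN

variable {H : Type*} [Group H] {δ : ℝ} {d : H → H → ℕ} {h : H}

theorem bus_stable (hd : LMet H δ d) {a a' : ℕ → H} {K : ℕ} (ha : ∀ N, d (a N) (a' N) ≤ K)
    (hinf : ∀ B : ℕ, ∀ᶠ N in (hyperfilter ℕ : Filter ℕ), B ≤ d 1 (a N)) (u v : H) :
    ∀ᶠ N in (hyperfilter ℕ : Filter ℕ),
      |((d u (a N) : ℝ) - d v (a N)) - ((d u (a' N) : ℝ) - d v (a' N))| ≤ 2 * δ := by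
  have hδ : 0 ≤ δ := by
    have := hd.hyp u u u u
    simp only [hd.self, Nat.cast_zero, add_zero, max_self, zero_add] at this
    linarith
  filter_upwards [hinf (d u v + 2 * K + d 1 u + d 1 v + ⌈2 * δ⌉₊ + 1)] with N hN
  have c0 := Nat.le_ceil (2 * δ)
  have hNr : (d u v : ℝ) + 2 * K + d 1 u + d 1 v + ⌈2 * δ⌉₊ + 1 ≤ d 1 (a N) := by exact_mod_cast hN
  have t1 : (d 1 (a N) : ℝ) ≤ d 1 u + d u (a N) := by exact_mod_cast hd.tri 1 u (a N)
  have t2 : (d 1 (a N) : ℝ) ≤ d 1 v + d v (a N) := by exact_mod_cast hd.tri 1 v (a N)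
  have t3 : (d u (a N) : ℝ) ≤ d u (a' N) + d (a' N) (a N) := by
    exact_mod_cast hd.tri u (a' N) (a N)
  have t4 : (d v (a N) : ℝ) ≤ d v (a' N) + d (a' N) (a N) := by
    exact_mod_cast hd.tri v (a' N) (a N)
  have hs : (d (a' N) (a N) : ℝ) = d (a N) (a' N) := by rw [hd.symm]
  have hK : (d (a N) (a' N) : ℝ) ≤ K := by exact_mod_cast ha N
  have e0 : (0 : ℝ) ≤ d (a N) (a' N) := Nat.cast_nonneg _
  have e1 : (0 : ℝ) ≤ d u v := Nat.cast_nonneg _
  have e2 : (0 : ℝ) ≤ d 1 u := Nat.cast_nonneg _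
  have e3 : (0 : ℝ) ≤ d 1 v := Nat.cast_nonneg _
  have hvu : (d v u : ℝ) = d u v := by rw [hd.symm]
  have hav : (d (a N) v : ℝ) = d v (a N) := by rw [hd.symm]
  have hau : (d (a N) u : ℝ) = d u (a N) := by rw [hd.symm]
  have ha'v : (d (a' N) v : ℝ) = d v (a' N) := by rw [hd.symm]
  have ha'u : (d (a' N) u : ℝ) = d u (a' N) := by rw [hd.symm]
  -- S₂ ≤ max (S₁, S₃) + 2δ
  have p1 := hd.hyp u v (a N) (a' N)
  -- d u (a N) + d v (a' N) ≤ max (d u v + d (a N) (a' N)) (d v (a N) + d u (a' N)) + 2δ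
  have p2 := hd.hyp u v (a' N) (a N)
  rw [abs_le]
  rcases le_total ((d u v : ℝ) + d (a N) (a' N)) ((d v (a N) : ℝ) + d u (a' N)) with q | q
  · rw [max_eq_right q] at p1
    rcases le_total ((d u v : ℝ) + d (a' N) (a N)) ((d v (a' N) : ℝ) + d u (a N)) with q' | q'
    · rw [max_eq_right q'] at p2
      constructor <;> linarith
    · rw [max_eq_left q'] at p2
      constructor <;> linarith
  · rw [max_eq_left q] at p1
    rcases le_total ((d u v : ℝ) + d (a' N) (a N)) ((d v (a' N) : ℝ) + d u (a N)) with q' | q'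
    · rw [max_eq_right q'] at p2
      constructor <;> linarith
    · rw [max_eq_left q'] at p2
      constructor <;> linarith

theorem pow_large (hd : LMet H δ d) (hh : ¬ IsOfFinOrder h) (B : ℕ) :
    ∀ᶠ N in (hyperfilter ℕ : Filter ℕ), B ≤ d 1 (h ^ N) ∧ B ≤ d 1 ((h ^ N)⁻¹) := by
  obtain ⟨ρ, c, hρ, hc, h1, -⟩ := pow_growth hd hh
  refine hyperfilter_of_atTop ?_
  obtain ⟨n₀, hn₀⟩ := exists_nat_gt ((B + ρ) / c)
  filter_upwards [eventually_ge_atTop n₀] with N hN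
  have hN' : (n₀ : ℝ) ≤ N := by exact_mod_cast hN
  have h2 : (B : ℝ) + ρ < c * N := by
    rw [div_lt_iff₀ hc] at hn₀
    nlinarith
  have h3 := h1 N
  have h4 : (B : ℝ) ≤ d 1 (h ^ N) := by linarith
  have h5 : B ≤ d 1 (h ^ N) := by exact_mod_cast h4
  refine ⟨h5, ?_⟩
  have h6 : d 1 ((h ^ N)⁻¹) = d 1 (h ^ N) := by
    rw [← hd.left (h ^ N) 1 ((h ^ N)⁻¹), mul_one, mul_inv_cancel, hd.symm]
  rw [h6]; exact h5

end Pool.Agent.MHN
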