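import Pool.Agent.MHN.Word

/-!
Module Conj (difficulty 2): transport of the metrics; the family `dx A x`.

* `delta_nonneg`: the four-point condition with all four points equal.
* `aut`: transport of structure (geodesics: `φ.symm ∘ c`).
* `right`: `d (a * y) (b * y) = d (y⁻¹ * a * y) (y⁻¹ * b * y)` by left-invariance, so this is
  `aut` for the inner automorphism `MulAut.conj y⁻¹`.
* `dx_lmet`: `dx A x a b = wdist A (φ a) (φ b)` with `φ = MulAut.conjNormal x⁻¹`.
* `dx_bilip`: `wlen_hom` for the automorphisms `MulAut.conjNormal w⁻¹` and `MulAut.conjNormal w`;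
  take the maximum of the two constants.
* `dx_left`, `dx_right`: both sides are `wlen A` of the same element of `H`
  (use `Subtype.ext` and `MulAut.conjNormal_apply`).
-/

set_option autoImplicit false

namespace Pool.Agent.MHN

section Conj
variable {H : Type*} [Group H] {δ : ℝ} {d : H → H → ℕ}

theorem LMet.delta_nonneg (hd : LMet H δ d) : 0 ≤ δ := by
  have h := hd.hyp 1 1 1 1
  rw [hd.self] at h
  simp at h
  exact h

/-- transport by an automorphism -/
theorem LMet.aut (hd : LMet H δ d) (φ : H ≃* H) : LMet H δ (fun a b => d (φ a) (φ b)) where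
  self x := hd.self _
  symm x y := hd.symm _ _
  tri x y z := hd.tri _ _ _
  geod x y := by
    obtain ⟨c, h0, h1, h2⟩ := hd.geod (φ x) (φ y)
    refine ⟨fun i => φ.symm (c i), ?_, ?_, ?_⟩
    · show φ.symm (c 0) = x
      rw [h0, MulEquiv.symm_apply_apply]
    · show φ.symm (c (d (φ x) (φ y))) = y
      rw [h1, MulEquiv.symm_apply_apply]
    · intro i j hij hj
      show d (φ (φ.symm (c i))) (φ (φ.symm (c j))) = j - i
      rw [MulEquiv.apply_symm_apply, MulEquiv.apply_symm_apply]
      exact h2 i j hij hj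
  hyp x y z w := hd.hyp _ _ _ _
  left g a b := by
    show d (φ (g * a)) (φ (g * b)) = d (φ a) (φ b)
    rw [map_mul, map_mul, hd.left]
  fin n := by
    have h := (hd.fin n).preimage (φ.injective.injOn (s := φ ⁻¹' {a : H | d 1 a ≤ n}))
    refine h.subset ?_
    intro a ha
    show d 1 (φ a) ≤ n
    have h1 : d (φ 1) (φ a) ≤ n := ha
    rwa [map_one] at h1

/-- right translation -/
theorem LMet.right (hd : LMet H δ d) (y : H) : LMet H δ (fun a b => d (a * y) (b * y)) := by
  have h := hd.aut (MulAut.conj y⁻¹)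
  have e : (fun a b => d (MulAut.conj y⁻¹ a) (MulAut.conj y⁻¹ b)) =
      (fun a b => d (a * y) (b * y)) := by
    funext a b
    rw [MulAut.conj_apply, MulAut.conj_apply, inv_inv, mul_assoc, mul_assoc, hd.left]
  rwa [e] at h
end Conj

section Dx
variable {G : Type*} [Group G] {H : Subgroup G} [H.Normal] {A : Finset H} {δ : ℝ}

theorem dx_one (A : Finset H) : dx A (1 : G) = wdist A := by
  funext a b
  unfold dx wdist
  rw [inv_one, map_one, MulAut.one_apply]

theorem dx_lmet (hA : Gen A) (hδ : Hyp δ (wdist A)) (x : G) : LMet H δ (dx A x) := by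
  have h := (lmet hA hδ).aut (MulAut.conjNormal x⁻¹)
  have e : (fun a b => wdist A (MulAut.conjNormal x⁻¹ a) (MulAut.conjNormal x⁻¹ b)) = dx A x := by
    funext a b
    unfold dx wdist
    generalize (MulAut.conjNormal x⁻¹ : H ≃* H) = φ
    rw [map_mul, map_inv]
  rwa [e] at h

theorem dx_bilip (hA : Gen A) (w : G) : ∃ K : ℕ, ∀ x a b,
    dx A (x * w) a b ≤ K * dx A x a b ∧ dx A x a b ≤ K * dx A (x * w) a b := by
  obtain ⟨K1, h1⟩ := wlen_hom hA hA (MulAut.conjNormal w⁻¹ : H ≃* H).toMonoidHom
  obtain ⟨K2, h2⟩ := wlen_hom hA hA (MulAut.conjNormal w : H ≃* H).toMonoidHom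
  refine ⟨max K1 K2, fun x a b => ⟨?_, ?_⟩⟩
  · have e : dx A (x * w) a b =
        wlen A ((MulAut.conjNormal w⁻¹ : H ≃* H).toMonoidHom (MulAut.conjNormal x⁻¹ (a⁻¹ * b))) := by
      unfold dx
      congr 1
      apply Subtype.ext
      show ((MulAut.conjNormal (x * w)⁻¹ (a⁻¹ * b) : H) : G) =
        ((MulAut.conjNormal w⁻¹ (MulAut.conjNormal x⁻¹ (a⁻¹ * b)) : H) : G)
      rw [MulAut.conjNormal_apply, MulAut.conjNormal_apply, MulAut.conjNormal_apply]
      group
    rw [e]
    exact (h1 _).trans (Nat.mul_le_mul_right _ (le_max_left _ _))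
  · have e : dx A x a b = wlen A ((MulAut.conjNormal w : H ≃* H).toMonoidHom
        (MulAut.conjNormal (x * w)⁻¹ (a⁻¹ * b))) := by
      unfold dx
      congr 1
      apply Subtype.ext
      show ((MulAut.conjNormal x⁻¹ (a⁻¹ * b) : H) : G) =
        ((MulAut.conjNormal w (MulAut.conjNormal (x * w)⁻¹ (a⁻¹ * b)) : H) : G)
      rw [MulAut.conjNormal_apply, MulAut.conjNormal_apply, MulAut.conjNormal_apply]
      group
    rw [e]
    exact (h2 _).trans (Nat.mul_le_mul_right _ (le_max_right _ _))

theorem dx_left (A : Finset H) (x : G) (y : H) (a b : H) :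
    dx A ((y : G) * x) a b = dx A x (a * y) (b * y) := by
  unfold dx
  congr 1
  apply Subtype.ext
  rw [MulAut.conjNormal_apply, MulAut.conjNormal_apply]
  push_cast
  group

theorem dx_right (A : Finset H) (x : G) (y : H) (a b : H) :
    dx A (x * (y : G)) a b =
      dx A x (a * MulAut.conjNormal x y) (b * MulAut.conjNormal x y) := by
  unfold dx
  congr 1
  apply Subtype.ext
  rw [MulAut.conjNormal_apply, MulAut.conjNormal_apply]
  push_cast
  rw [MulAut.conjNormal_apply]
  group
end Dx

end Pool.Agent.MHN
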