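import Pool.Agent.MHN.Stmt

set_option autoImplicit false

open Filter

namespace Pool.Agent.MHN

/-! ### Abstract metrics -/

/-- a graph-like (discretely geodesic) integer-valued pseudometric -/
structure GMet (X : Type*) (d : X → X → ℕ) : Prop where
  self : ∀ x, d x x = 0
  symm : ∀ x y, d x y = d y x
  tri : ∀ x y z, d x z ≤ d x y + d y z
  geod : ∀ x y, ∃ c : ℕ → X, c 0 = x ∧ c (d x y) = y ∧
    ∀ i j, i ≤ j → j ≤ d x y → d (c i) (c j) = j - i

/-- the four-point condition -/
def Hyp {X : Type*} (δ : ℝ) (d : X → X → ℕ) : Prop :=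
  ∀ x y z w, (d x z : ℝ) + d y w ≤ max ((d x y : ℝ) + d z w) ((d y z : ℝ) + d x w) + 2 * δ

/-- left-invariant hyperbolic graph-like metric with finite balls on a group -/
structure LMet (H : Type*) [Group H] (δ : ℝ) (d : H → H → ℕ) : Prop extends GMet H d where
  hyp : Hyp δ d
  left : ∀ g a b, d (g * a) (g * b) = d a b
  fin : ∀ n : ℕ, {a : H | d 1 a ≤ n}.Finite

/-- the Gromov product `(a|b)_x` -/
noncomputable def gp {X : Type*} (d : X → X → ℕ) (a b x : X) : ℝ :=
  ((d x a : ℝ) + d x b - d a b) / 2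

/-- limit along the hyperfilter -/
noncomputable def ul (f : ℕ → ℝ) : ℝ :=
  limUnder (Filter.hyperfilter ℕ : Filter ℕ) f

/-- distance from the axis of `h` -/
noncomputable def al {H : Type*} [Group H] (d : H → H → ℕ) (h u : H) : ℝ :=
  ul fun N => gp d (h ^ N) ((h ^ N)⁻¹) u

/-- position along the axis of `h` -/
noncomputable def be {H : Type*} [Group H] (d : H → H → ℕ) (h u : H) : ℝ :=
  ul fun N => ((d u ((h ^ N)⁻¹) : ℝ) - d u (h ^ N)) / 2

/-- translation length of `h` -/
noncomputable def tl {H : Type*} [Group H] (d : H → H → ℕ) (h : H) : ℝ :=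
  limUnder Filter.atTop fun n : ℕ => (d 1 (h ^ n) : ℝ) / n

/-- the word metric of the normal subgroup `H` transported by conjugation with `x⁻¹` -/
noncomputable def dx {G : Type*} [Group G] {H : Subgroup G} [H.Normal] (A : Finset H) (x : G)
    (a b : H) : ℕ :=
  wlen A (MulAut.conjNormal x⁻¹ (a⁻¹ * b))

/-- translation length of `h` in the fibre over `x` -/
noncomputable def ell {G : Type*} [Group G] {H : Subgroup G} [H.Normal] (A : Finset H) (h : H)
    (x : G) : ℝ :=
  tl (dx A x) h

end Pool.Agent.MHN
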