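import Mathlib

/-!
Module DivSeq (difficulty 3): a combinatorial lemma on real sequences.

Call a time `i` bad if it is not good.
(1) If `i < j ≤ N` and all times strictly between `i` and `j` are bad, then
`|a j - a i| ≤ 2 E + 5 ((j - i) / L + 1)`: steps `i → i+1` and `j-1 → j` cost `E` each (s2); the
part from `i+1` to `j-1` is cut into at most `(j-i-2)/L + 1` pieces of length `≤ L` with bad
ends, each costs `≤ 5` (s3) (induction on the length).
(2) For good `i ≤ N`: `|a N - b i| ≤ (C₀+6)/L * (N-i) + (C₀ + 3E + 5)`, by strong induction on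
`N - i`. Let `j` be the last good time in `[i, min N (i+M)]`. If `j ≥ i + L`: `|b j - b i| ≤ C₀ ≤
C₀ (j-i)/L` (s4), and induction for `j`. If `j < i + L` and there is a next good time `j' ≤ N`
after `j`, then `j' > i + M`, `|b j' - b i| ≤ C₀ + 4 E + 5 + 5 (j'-i)/L` by (s4), (s1) twice, (1),
where `4 E + 5 ≤ M / L ≤ (j'-i)/L` and `C₀ ≤ C₀ (j'-i)/L`; induction for `j'`. If there is no good
time in `(j, N]`: `|a N - b i| ≤ C₀ + E + 2 E + 5 ((N-j)/L + 1)`.
(3) If there is no good time `≤ N`, use (1) for `0, N` (or `N = 0`); else use (1) from `0` to the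
first good time (if it is not `0`), (s1) and (2).
-/

set_option autoImplicit false

namespace Pool.Agent.MHN

private theorem divSeq_run {N L : ℕ} (hL : 0 < L) {a : ℕ → ℝ} {good : ℕ → Prop}
    (s3 : ∀ i j, i ≤ j → j ≤ N → j ≤ i + L → ¬ good i → ¬ good j → |a j - a i| ≤ 5)
    (n : ℕ) : ∀ i j, j = i + n → j ≤ N → (∀ k, i ≤ k → k ≤ j → ¬ good k) →
      |a j - a i| ≤ 5 * (((j : ℝ) - i) / L + 1) := by
  have hL' : (0 : ℝ) < L := by exact_mod_cast hL
  induction n using Nat.strong_induction_on with
  | _ n ih =>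
    intro i j hj hN hb
    by_cases h : n ≤ L
    · have h1 := s3 i j (by omega) hN (by omega) (hb i le_rfl (by omega)) (hb j (by omega) le_rfl)
      have h2 : 0 ≤ ((j : ℝ) - i) / L := by
        apply div_nonneg _ hL'.le
        have : (i : ℝ) ≤ j := by exact_mod_cast (by omega : i ≤ j)
        linarith
      linarith
    · have h1 := s3 i (i + L) (by omega) (by omega) (by omega) (hb i le_rfl (by omega))
        (hb (i + L) (by omega) (by omega))
      have h2 := ih (n - L) (by omega) (i + L) j (by omega) hN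
        (fun k hk hk' => hb k (by omega) hk')
      have h3 : ((j : ℝ) - ((i + L : ℕ) : ℝ)) / L = ((j : ℝ) - i) / L - 1 := by
        push_cast
        field_simp
        ring
      rw [h3] at h2
      have h4 : |a j - a i| ≤ |a j - a (i + L)| + |a (i + L) - a i| := abs_sub_le _ _ _
      linarith

theorem div_seq (N L M : ℕ) (hL : 0 < L) (C₀ E : ℝ) (hC : 0 ≤ C₀) (hE : 0 ≤ E)
    (hM : (L : ℝ) * (4 * E + 5) ≤ M) (hLM : L ≤ M) (a b : ℕ → ℝ) (good : ℕ → Prop)
    (s1 : ∀ i ≤ N, good i → |b i - a i| ≤ E)
    (s2 : ∀ i < N, |a (i + 1) - a i| ≤ E)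
    (s3 : ∀ i j, i ≤ j → j ≤ N → j ≤ i + L → ¬ good i → ¬ good j → |a j - a i| ≤ 5)
    (s4 : ∀ i j, i ≤ j → j ≤ N → j ≤ i + M → good i → good j → |b j - b i| ≤ C₀) :
    |a N - a 0| ≤ (C₀ + 6) / L * N + (C₀ + 7 * E + 10) := by
  classical
  have hL' : (0 : ℝ) < L := by exact_mod_cast hL
  -- strictly between
  have mid : ∀ i j, i < j → j ≤ N → (∀ k, i < k → k < j → ¬ good k) →
      |a j - a i| ≤ 2 * E + 5 * (((j : ℝ) - i) / L + 1) := by
    intro i j hij hjN hb
    have h0 : 0 ≤ ((j : ℝ) - i) / L := by
      apply div_nonneg _ hL'.le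
      have : (i : ℝ) ≤ j := by exact_mod_cast hij.le
      linarith
    rcases Nat.lt_or_ge (i + 1) j with h | h
    · have h1 := s2 i (by omega)
      have h2 := s2 (j - 1) (by omega)
      have e : j - 1 + 1 = j := by omega
      rw [e] at h2
      have h3 := divSeq_run hL s3 (j - 1 - (i + 1)) (i + 1) (j - 1) (by omega) (by omega)
        (fun k hk hk' => hb k (by omega) (by omega))
      have h4 : (((j - 1 : ℕ) : ℝ) - ((i + 1 : ℕ) : ℝ)) / L ≤ ((j : ℝ) - i) / L := by
        apply div_le_div_of_nonneg_right _ hL'.le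
        have : ((j - 1 : ℕ) : ℝ) ≤ j := by exact_mod_cast Nat.sub_le j 1
        push_cast
        linarith
      have h5 : |a j - a i| ≤ |a j - a (j - 1)| + |a (j - 1) - a i| := abs_sub_le _ _ _
      have h6 : |a (j - 1) - a i| ≤ |a (j - 1) - a (i + 1)| + |a (i + 1) - a i| := abs_sub_le _ _ _
      linarith
    · have e : j = i + 1 := by omega
      have h1 := s2 i (by omega)
      rw [← e] at h1
      linarith
  have tail : ∀ i, i ≤ N → (∀ k, i < k → k ≤ N → ¬ good k) →
      |a N - a i| ≤ E + 5 * (((N : ℝ) - i) / L + 1) := by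
    intro i hi hb
    have h0 : 0 ≤ ((N : ℝ) - i) / L := by
      apply div_nonneg _ hL'.le
      have : (i : ℝ) ≤ N := by exact_mod_cast hi
      linarith
    rcases Nat.lt_or_ge i N with h | h
    · have h1 := s2 i h
      have h3 := divSeq_run hL s3 (N - (i + 1)) (i + 1) N (by omega) le_rfl
        (fun k hk hk' => hb k (by omega) (by omega))
      have h4 : ((N : ℝ) - ((i + 1 : ℕ) : ℝ)) / L ≤ ((N : ℝ) - i) / L := by
        apply div_le_div_of_nonneg_right _ hL'.le
        push_cast
        linarith
      have h6 : |a N - a i| ≤ |a N - a (i + 1)| + |a (i + 1) - a i| := abs_sub_le _ _ _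
      linarith
    · have e : i = N := by omega
      subst e
      rw [sub_self, abs_zero]
      linarith
  have head : ∀ j, j ≤ N → (∀ k, k < j → ¬ good k) →
      |a j - a 0| ≤ E + 5 * ((j : ℝ) / L + 1) := by
    intro j hj hb
    have h0 : 0 ≤ (j : ℝ) / L := by positivity
    rcases Nat.eq_zero_or_pos j with h | h
    · subst h
      rw [sub_self, abs_zero]
      linarith
    · have h1 := s2 (j - 1) (by omega)
      have e : j - 1 + 1 = j := by omega
      rw [e] at h1
      have h3 := divSeq_run hL s3 (j - 1) 0 (j - 1) (by omega) (by omega)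
        (fun k hk hk' => hb k (by omega))
      have h4 : (((j - 1 : ℕ) : ℝ) - ((0 : ℕ) : ℝ)) / L ≤ (j : ℝ) / L := by
        apply div_le_div_of_nonneg_right _ hL'.le
        have : ((j - 1 : ℕ) : ℝ) ≤ j := by exact_mod_cast Nat.sub_le j 1
        push_cast
        linarith
      have h6 : |a j - a 0| ≤ |a j - a (j - 1)| + |a (j - 1) - a 0| := abs_sub_le _ _ _
      linarith
  -- the main induction
  have main : ∀ n i, N - i = n → i ≤ N → good i →
      |a N - b i| ≤ (C₀ + 6) / L * ((N : ℝ) - i) + (C₀ + 3 * E + 5) := by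
    intro n
    induction n using Nat.strong_induction_on with
    | _ n ih =>
      intro i hn hiN hgi
      -- last good time in [i, min N (i+M)]
      obtain ⟨j, hj, hjmax⟩ : ∃ j, (i ≤ j ∧ j ≤ min N (i + M) ∧ good j) ∧
          ∀ k, i ≤ k → k ≤ min N (i + M) → good k → k ≤ j := by
        have hne : ((Finset.Icc i (min N (i + M))).filter good).Nonempty :=
          ⟨i, by simp [hiN, hgi]⟩
        refine ⟨Finset.max' _ hne, ?_, fun k h1 h2 h3 => Finset.le_max' _ k
          (Finset.mem_filter.2 ⟨Finset.mem_Icc.2 ⟨h1, h2⟩, h3⟩)⟩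
        have := Finset.max'_mem _ hne
        simp only [Finset.mem_filter, Finset.mem_Icc] at this
        exact ⟨this.1.1, this.1.2, this.2⟩
      obtain ⟨hij, hjm, hgj⟩ := hj
      have hjN : j ≤ N := le_trans hjm (min_le_left _ _)
      have hjM : j ≤ i + M := le_trans hjm (min_le_right _ _)
      have hb := s4 i j hij hjN hjM hgi hgj
      have hij' : (i : ℝ) ≤ j := by exact_mod_cast hij
      have hjN' : (j : ℝ) ≤ N := by exact_mod_cast hjN
      by_cases hA : i + L ≤ j
      · have h1 := ih (N - j) (by omega) j rfl hjN hgj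
        have h2 : (1 : ℝ) ≤ ((j : ℝ) - i) / L := by
          rw [le_div_iff₀ hL']
          have : ((i + L : ℕ) : ℝ) ≤ j := by exact_mod_cast hA
          push_cast at this
          linarith
        have h3 : (C₀ + 6) / L * ((N : ℝ) - i) =
            (C₀ + 6) / L * ((N : ℝ) - j) + (C₀ + 6) * (((j : ℝ) - i) / L) := by
          field_simp
          ring
        have h4 : C₀ ≤ (C₀ + 6) * (((j : ℝ) - i) / L) := by nlinarith
        have h5 : |a N - b i| ≤ |a N - b j| + |b j - b i| := abs_sub_le _ _ _
        rw [h3]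
        linarith
      · by_cases hB : ∃ k, j < k ∧ k ≤ N ∧ good k
        · have hsp := Nat.find_spec hB
          have hmn := fun m hm => Nat.find_min hB (m := m) hm
          set j' := Nat.find hB with hj'def
          obtain ⟨hjj', hj'N, hgj'⟩ := hsp
          have hbig : i + M < j' := by
            by_contra hcon
            have := hjmax j' (by omega) (by rw [le_min_iff]; exact ⟨hj'N, by omega⟩) hgj'
            omega
          have hbad : ∀ k, j < k → k < j' → ¬ good k := fun k h1 h2 h3 =>
            hmn k h2 ⟨h1, by omega, h3⟩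
          have h1 := ih (N - j') (by omega) j' rfl hj'N hgj'
          have h2 := mid j j' hjj' hj'N hbad
          have h3 := s1 j' hj'N hgj'
          have h4 := s1 j hjN hgj
          have hbig' : (i : ℝ) + M ≤ j' := by exact_mod_cast hbig.le
          have h5 : (M : ℝ) / L ≤ ((j' : ℝ) - i) / L :=
            div_le_div_of_nonneg_right (by linarith) hL'.le
          have h6 : 4 * E + 5 ≤ (M : ℝ) / L := by
            rw [le_div_iff₀ hL']
            linarith
          have h7 : (1 : ℝ) ≤ ((j' : ℝ) - i) / L := by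
            refine le_trans ?_ h5
            rw [le_div_iff₀ hL']
            have : (L : ℝ) ≤ M := by exact_mod_cast hLM
            linarith
          have h8 : ((j' : ℝ) - j) / L ≤ ((j' : ℝ) - i) / L :=
            div_le_div_of_nonneg_right (by linarith) hL'.le
          have h9 : (C₀ + 6) / L * ((N : ℝ) - i) =
              (C₀ + 6) / L * ((N : ℝ) - j') + (C₀ + 6) * (((j' : ℝ) - i) / L) := by
            field_simp
            ring
          have h10 : |a N - b i| ≤ |a N - b j'| + |b j' - b i| := abs_sub_le _ _ _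
          have h11 : |b j' - b i| ≤ |b j' - a j'| + |a j' - b i| := abs_sub_le _ _ _
          have h12 : |a j' - b i| ≤ |a j' - a j| + |a j - b i| := abs_sub_le _ _ _
          have h13 : |a j - b i| ≤ |a j - b j| + |b j - b i| := abs_sub_le _ _ _
          have h14 : |a j - b j| = |b j - a j| := abs_sub_comm _ _
          have h15 : C₀ ≤ C₀ * (((j' : ℝ) - i) / L) := le_mul_of_one_le_right hC h7
          rw [h9]
          have h16 : (C₀ + 6) * (((j' : ℝ) - i) / L) =
            C₀ * (((j' : ℝ) - i) / L) + 6 * (((j' : ℝ) - i) / L) := by ring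
          rw [h16]
          linarith
        · push Not at hB
          have h1 := tail j hjN (fun k h1 h2 => hB k h1 h2)
          have h4 := s1 j hjN hgj
          have h12 : |a N - b i| ≤ |a N - a j| + |a j - b i| := abs_sub_le _ _ _
          have h13 : |a j - b i| ≤ |a j - b j| + |b j - b i| := abs_sub_le _ _ _
          have h14 : |a j - b j| = |b j - a j| := abs_sub_comm _ _
          have h8 : ((N : ℝ) - j) / L ≤ ((N : ℝ) - i) / L :=
            div_le_div_of_nonneg_right (by linarith) hL'.le
          have h9 : (C₀ + 6) / L * ((N : ℝ) - i) = C₀ * (((N : ℝ) - i) / L) +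
              6 * (((N : ℝ) - i) / L) := by
            field_simp
          have h0 : 0 ≤ ((N : ℝ) - i) / L := div_nonneg (by linarith) hL'.le
          have h10 : 0 ≤ C₀ * (((N : ℝ) - i) / L) := mul_nonneg hC h0
          rw [h9]
          linarith
  by_cases hG : ∃ k, k ≤ N ∧ good k
  · have hsp := Nat.find_spec hG
    have hmn := fun m hm => Nat.find_min hG (m := m) hm
    set g := Nat.find hG with hgdef
    obtain ⟨hgN, hgg⟩ := hsp
    have h1 := head g hgN (fun k hk hk' => hmn k hk ⟨by omega, hk'⟩)
    have h2 := s1 g hgN hgg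
    have h3 := main _ g rfl hgN hgg
    have h4 : |a N - a 0| ≤ |a N - b g| + |b g - a 0| := abs_sub_le _ _ _
    have h5 : |b g - a 0| ≤ |b g - a g| + |a g - a 0| := abs_sub_le _ _ _
    have h6 : (C₀ + 6) / L * (N : ℝ) = (C₀ + 6) / L * ((N : ℝ) - g) + C₀ * ((g : ℝ) / L) +
        6 * ((g : ℝ) / L) := by
      field_simp
      ring
    have h7 : 0 ≤ (g : ℝ) / L := by positivity
    have h8 : 0 ≤ C₀ * ((g : ℝ) / L) := mul_nonneg hC h7
    rw [h6]
    linarith
  · push Not at hG
    have h1 := tail 0 (Nat.zero_le _) (fun k _ h => hG k h)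
    have h6 : (C₀ + 6) / L * (N : ℝ) = C₀ * ((N : ℝ) / L) + 6 * ((N : ℝ) / L) := by
      field_simp
    have h7 : 0 ≤ (N : ℝ) / L := by positivity
    have h8 : 0 ≤ C₀ * ((N : ℝ) / L) := mul_nonneg hC h7
    rw [h6]
    push_cast at h1
    rw [sub_zero] at h1
    linarith

end Pool.Agent.MHN
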