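import Pool.Agent.MHN.TL
import Pool.Agent.MHN.Word

/-!
Module Far (difficulty 3): points far from the axis; contraction.

* `far_right`: if `|be (z y) - be z| > δ` then by `fermi_lower` (and `al_nonneg`)
  `al z ≤ d z (z y) + 2 δ = d 1 y + 2 δ`.
* `near_orbit`: let `i` be the nearest integer to `be y / tl`; by `fermi_upper`, `al_shift`,
  `be_shift` (for `u = 1`, `be_one`) `d y (h^i) ≤ al y + (al 1 + 6 δ) + (tl/2 + 6 δ) + 2 δ`.
* `contraction`: by `far_right` it is enough that `al y > B + 2 δ`, and this follows from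
  `near_orbit` if `D` is large.
* `exists_far_seq`: for each `j` take `z` with `d z (h^i) ≥ n` for all `i`, `n` large, so that
  `al z ≥ j` (`near_orbit`), and replace `z` by `h^(-i) z` with `i` the nearest integer to
  `be z / tl`, so that `|be| ≤ tl/2 + 6 δ` (`be_shift`) (the distances to the powers of `h` are
  only permuted by this).
-/

set_option autoImplicit false

open Filter Topology

namespace Pool.Agent.MHN

variable {H : Type*} [Group H] {δ : ℝ} {d : H → H → ℕ} {h : H}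

theorem far_right (hd : LMet H δ d) (hh : ¬ IsOfFinOrder h) (z y : H)
    (hz : (d 1 y : ℝ) + 2 * δ < al d h z) : |be d h (z * y) - be d h z| ≤ δ := by
  by_contra hcon
  have h1 := fermi_lower hd hh (z * y) z (not_le.1 hcon)
  have h2 : d (z * y) z = d 1 y := by
    rw [hd.symm]
    conv_lhs => rw [show d z (z * y) = d (z * 1) (z * y) by rw [mul_one]]
    rw [hd.left]
  rw [h2] at h1
  have h3 := al_nonneg hd hh (z * y)
  have h4 := abs_nonneg (be d h (z * y) - be d h z)
  linarith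

private theorem far_round (t x : ℝ) (ht : 0 < t) : |x - (round (x / t) : ℝ) * t| ≤ t / 2 := by
  have h := abs_sub_round (x / t)
  have h2 : x - (round (x / t) : ℝ) * t = (x / t - round (x / t)) * t := by
    field_simp
  rw [h2, abs_mul, abs_of_pos ht]
  have := mul_le_mul_of_nonneg_right h ht.le
  linarith

theorem near_orbit (hd : LMet H δ d) (hh : ¬ IsOfFinOrder h) :
    ∃ C : ℝ, ∀ y : H, ∃ i : ℤ, (d y (h ^ i) : ℝ) ≤ al d h y + C := by
  refine ⟨al d h 1 + 14 * δ + tl d h / 2, fun y => ⟨round (be d h y / tl d h), ?_⟩⟩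
  set i := round (be d h y / tl d h) with hi
  have ht := tl_pos hd hh
  have h1 := fermi_upper hd hh y (h ^ i)
  have h2 := al_shift hd hh 1 i
  have h3 := be_shift hd hh 1 i
  rw [mul_one] at h2 h3
  rw [be_one hd, sub_zero] at h3
  have h4 := far_round (tl d h) (be d h y) ht
  rw [← hi] at h4
  have h5 := (abs_le.1 h2).2
  have h6 : |be d h y - be d h (h ^ i)| ≤ |be d h y - i * tl d h| + |i * tl d h - be d h (h ^ i)| :=
    abs_sub_le _ _ _
  rw [abs_sub_comm (i * tl d h) (be d h (h ^ i))] at h6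
  linarith

theorem contraction (hd : LMet H δ d) (hh : ¬ IsOfFinOrder h) (B : ℕ) :
    ∃ D : ℕ, ∀ y u : H, d 1 u ≤ B → (∀ i : ℤ, D ≤ d y (h ^ i)) →
      |be d h (y * u) - be d h y| ≤ δ := by
  obtain ⟨C, hC⟩ := near_orbit hd hh
  refine ⟨⌈C + B + 2 * δ⌉₊ + 1, fun y u hu hy => far_right hd hh y u ?_⟩
  obtain ⟨i, hi⟩ := hC y
  have h1 : ((⌈C + B + 2 * δ⌉₊ + 1 : ℕ) : ℝ) ≤ d y (h ^ i) := by exact_mod_cast hy i
  have h2 := Nat.le_ceil (C + B + 2 * δ)
  have h3 : (d 1 u : ℝ) ≤ B := by exact_mod_cast hu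
  push_cast at h1
  linarith

theorem exists_far_seq (hd : LMet H δ d) (hh : ¬ IsOfFinOrder h)
    (hne : ∀ n : ℕ, ∃ z : H, ∀ i : ℤ, n ≤ d z (h ^ i)) :
    ∃ (z : ℕ → H) (B : ℝ), (∀ j, |be d h (z j)| ≤ B) ∧ ∀ j : ℕ, (j : ℝ) ≤ al d h (z j) := by
  obtain ⟨C, hC⟩ := near_orbit hd hh
  have ht := tl_pos hd hh
  have key : ∀ j : ℕ, ∃ z : H, |be d h z| ≤ tl d h / 2 + 6 * δ ∧ (j : ℝ) ≤ al d h z := by
    intro j
    obtain ⟨w, hw⟩ := hne ⌈(j : ℝ) + C + 6 * δ⌉₊
    obtain ⟨i, hi⟩ := hC w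
    have h1 : ((⌈(j : ℝ) + C + 6 * δ⌉₊ : ℕ) : ℝ) ≤ d w (h ^ i) := by exact_mod_cast hw i
    have h2 := Nat.le_ceil ((j : ℝ) + C + 6 * δ)
    set m := round (be d h w / tl d h) with hm
    have h3 := be_shift hd hh w (-m)
    have h4 := al_shift hd hh w (-m)
    have h5 := far_round (tl d h) (be d h w) ht
    rw [← hm] at h5
    refine ⟨h ^ (-m) * w, ?_, ?_⟩
    · push_cast at h3
      have h6 : be d h (h ^ (-m) * w) = (be d h (h ^ (-m) * w) - be d h w - -(m : ℝ) * tl d h) +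
          (be d h w - (m : ℝ) * tl d h) := by ring
      rw [h6]
      refine (abs_add_le _ _).trans ?_
      linarith
    · have h7 := (abs_le.1 h4).1
      linarith
  choose z hz using key
  exact ⟨z, _, fun j => (hz j).1, fun j => (hz j).2⟩

end Pool.Agent.MHN
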