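import Pool.Agent.MHN.PowC
import Pool.Agent.MHN.UL

/-!
Module Fermi (difficulty 4): Fermi coordinates `al` (distance to the axis of `h`), `be` (position).

Write `A = h ^ N`, `B = (h ^ N)⁻¹`; `d 1 A = d 1 B` by left-invariance and symmetry.
* bounds: `|(d u B - d u A) / 2| ≤ d 1 u` (as `|d u A - d 1 A| ≤ d 1 u`);
  `0 ≤ gp d A B u ≤ gp d A B 1 + d 1 u` and `gp d A B 1 = (|h^N| + |h^N| - |h^(2N)|)/2 ≤ ρ` by
  `pow_growth` (`d B A = |h ^ (2N)|`). So `al_tendsto`, `be_tendsto` follow from `ul_tendsto`.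
* `be_one`: all terms are 0. `be_lip`, `al_nonneg`, `al_lip`: termwise, then limits.
* `fermi_upper`: four points `u, A, v, B`:
  `d u v + d A B ≤ max (d u A + d v B, d A v + d u B) + 2 δ` (up to symmetry) and
  `max (x, y) = (x + y)/2 + |x - y|/2`; with `x = d u A + d v B`, `y = d u B + d v A` we have
  `(x + y)/2 - d A B = gp d A B u + gp d A B v` and `(y - x)/2 = be_N u - be_N v`. So for every `N`:
  `d u v ≤ al_N u + al_N v + |be_N u - be_N v| + 2 δ`. Take the limit.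
* `fermi_lower`: if `|be u - be v| > δ` then for hyperfilter-most `N` `|be_N u - be_N v| > δ`, i.e.
  `|x - y| > 2 δ`. The larger of `x, y` is `≤ max (d u v + d A B, smaller) + 2 δ`, so it is
  `≤ d u v + d A B + 2 δ`. Hence `al_N u + al_N v + |be_N u - be_N v| - 2 δ ≤ d u v`.
* `axis_point`: for each `N` let `c` be a geodesic from `B` to `A`, `n = d B A`; the point `c i` has
  `gp d A B (c i) = 0` and `be_N (c i) = (i - (n - i)) / 2 = i - n / 2`, while
  `be_N v ∈ [-n/2, n/2]`; so some `i ≤ n` has `|be_N (c i) - be_N v| ≤ 1 / 2`. Put `g N = c i`. By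
  the inequality for fixed `N` above, `d (g N) v ≤ 0 + al_N v + 1/2 + 2 δ` is bounded, so `g N` lies
  in a finite set (`hd.fin`, left-invariance) and is hyperfilter-constant (`hyperfilter_const`),
  `= u` say. Then `al u = 0` and `|be u - be v| ≤ 1/2` in the limit.
-/

set_option autoImplicit false

open Filter Topology

namespace Pool.Agent.MHN

variable {H : Type*} [Group H] {δ : ℝ} {d : H → H → ℕ} {h : H}

private theorem fermi_dAB (hd : LMet H δ d) (N : ℕ) : d 1 ((h ^ N)⁻¹) = d 1 (h ^ N) := by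
  have h1 := hd.left (h ^ N) 1 ((h ^ N)⁻¹)
  rw [mul_one, mul_inv_cancel] at h1
  rw [← h1, hd.symm]

private theorem fermi_dBA (hd : LMet H δ d) (N : ℕ) :
    d (h ^ N) ((h ^ N)⁻¹) = d 1 (h ^ (N + N)) := by
  have h1 := hd.left (h ^ N) ((h ^ N)⁻¹) (h ^ N)
  rw [mul_inv_cancel, ← pow_add] at h1
  rw [h1, hd.symm]

private theorem fermi_tri (hd : LMet H δ d) (x y z : H) : (d x z : ℝ) ≤ d x y + d y z := by
  exact_mod_cast hd.tri x y z

private theorem fermi_symm (hd : LMet H δ d) (x y : H) : (d x y : ℝ) = d y x := by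
  exact_mod_cast hd.symm x y

private theorem fermi_up (hd : LMet H δ d) (A B u v : H) :
    (d u v : ℝ) ≤ gp d A B u + gp d A B v
      + |((d u B : ℝ) - d u A) / 2 - ((d v B : ℝ) - d v A) / 2| + 2 * δ := by
  have h1 := hd.hyp u A v B
  have h2 := fermi_symm hd A v
  have h3 := le_abs_self (((d u B : ℝ) - d u A) / 2 - ((d v B : ℝ) - d v A) / 2)
  have h4 := neg_abs_le (((d u B : ℝ) - d u A) / 2 - ((d v B : ℝ) - d v A) / 2)
  have h5 : max ((d u A : ℝ) + d v B) ((d A v : ℝ) + d u B) ≤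
      ((d u A : ℝ) + d v B + d A v + d u B) / 2
        + |((d u B : ℝ) - d u A) / 2 - ((d v B : ℝ) - d v A) / 2| := by
    apply max_le
    · linarith
    · linarith
  unfold gp
  linarith

private theorem fermi_low (hd : LMet H δ d) (A B u v : H)
    (huv : δ < |((d u B : ℝ) - d u A) / 2 - ((d v B : ℝ) - d v A) / 2|) :
    gp d A B u + gp d A B v
      + |((d u B : ℝ) - d u A) / 2 - ((d v B : ℝ) - d v A) / 2| - 2 * δ ≤ (d u v : ℝ) := by
  have h1 := hd.hyp u v A B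
  have h2 := hd.hyp u v B A
  have h3 := fermi_symm hd A B
  unfold gp
  rcases le_total 0 (((d u B : ℝ) - d u A) / 2 - ((d v B : ℝ) - d v A) / 2) with h | h
  · rw [abs_of_nonneg h] at huv ⊢
    rcases max_cases ((d u v : ℝ) + d B A) ((d v B : ℝ) + d u A) with h5 | h5
    · rw [h5.1] at h2
      linarith
    · rw [h5.1] at h2
      linarith
  · rw [abs_of_nonpos h] at huv ⊢
    rcases max_cases ((d u v : ℝ) + d A B) ((d v A : ℝ) + d u B) with h5 | h5
    · rw [h5.1] at h1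
      linarith
    · rw [h5.1] at h1
      linarith

theorem be_bound (hd : LMet H δ d) (u : H) (N : ℕ) :
    |((d u ((h ^ N)⁻¹) : ℝ) - d u (h ^ N)) / 2| ≤ d 1 u := by
  have h1 := fermi_tri hd u 1 ((h ^ N)⁻¹)
  have h2 := fermi_tri hd u 1 (h ^ N)
  have h3 := fermi_tri hd 1 u ((h ^ N)⁻¹)
  have h4 := fermi_tri hd 1 u (h ^ N)
  have h5 := fermi_symm hd u 1
  have h6 : (d 1 ((h ^ N)⁻¹) : ℝ) = d 1 (h ^ N) := by exact_mod_cast fermi_dAB hd N
  rw [abs_le]
  constructor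
  · linarith
  · linarith

theorem gp_bound (hd : LMet H δ d) (hh : ¬ IsOfFinOrder h) :
    ∃ ρ : ℝ, 0 ≤ ρ ∧ ∀ (u : H) (N : ℕ), |gp d (h ^ N) ((h ^ N)⁻¹) u| ≤ ρ + d 1 u := by
  obtain ⟨ρ, c, hρ, hc, h1, h2⟩ := pow_growth hd hh
  refine ⟨ρ, hρ, fun u N => ?_⟩
  have h3 := h2 N N
  have h4 : (d (h ^ N) ((h ^ N)⁻¹) : ℝ) = d 1 (h ^ (N + N)) := by exact_mod_cast fermi_dBA hd N
  have h5 := fermi_tri hd u 1 ((h ^ N)⁻¹)
  have h6 := fermi_tri hd u 1 (h ^ N)
  have h7 := fermi_tri hd (h ^ N) u ((h ^ N)⁻¹)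
  have h8 := fermi_symm hd u 1
  have h9 : (d 1 ((h ^ N)⁻¹) : ℝ) = d 1 (h ^ N) := by exact_mod_cast fermi_dAB hd N
  have h10 := fermi_symm hd u (h ^ N)
  have h11 : (0 : ℝ) ≤ d 1 u := Nat.cast_nonneg _
  unfold gp
  rw [abs_le]
  constructor
  · linarith
  · linarith

theorem al_tendsto (hd : LMet H δ d) (hh : ¬ IsOfFinOrder h) (u : H) :
    Tendsto (fun N : ℕ => gp d (h ^ N) ((h ^ N)⁻¹) u) (hyperfilter ℕ : Filter ℕ)
      (𝓝 (al d h u)) := by
  obtain ⟨ρ, hρ, h1⟩ := gp_bound hd hh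
  exact ul_tendsto (h1 u)

theorem be_tendsto (hd : LMet H δ d) (u : H) :
    Tendsto (fun N : ℕ => ((d u ((h ^ N)⁻¹) : ℝ) - d u (h ^ N)) / 2)
      (hyperfilter ℕ : Filter ℕ) (𝓝 (be d h u)) := ul_tendsto (be_bound hd u)

theorem be_one (hd : LMet H δ d) : be d h 1 = 0 := by
  apply ul_eq
  have h1 : (fun N : ℕ => ((d 1 ((h ^ N)⁻¹) : ℝ) - d 1 (h ^ N)) / 2) = fun _ => (0 : ℝ) := by
    funext N
    rw [fermi_dAB hd N]
    ring
  rw [h1]
  exact tendsto_const_nhds

theorem be_lip (hd : LMet H δ d) (u v : H) : |be d h u - be d h v| ≤ d u v := by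
  refine ul_sub_le (be_bound hd u) (be_bound hd v) (Eventually.of_forall fun N => ?_)
  have h1 := fermi_tri hd u v ((h ^ N)⁻¹)
  have h2 := fermi_tri hd u v (h ^ N)
  have h3 := fermi_tri hd v u ((h ^ N)⁻¹)
  have h4 := fermi_tri hd v u (h ^ N)
  have h5 := fermi_symm hd u v
  rw [abs_le]
  constructor
  · linarith
  · linarith

theorem al_nonneg (hd : LMet H δ d) (hh : ¬ IsOfFinOrder h) (u : H) : 0 ≤ al d h u := by
  obtain ⟨ρ, hρ, h1⟩ := gp_bound hd hh
  refine le_ul (h1 u) (Eventually.of_forall fun N => ?_)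
  have h7 := fermi_tri hd (h ^ N) u ((h ^ N)⁻¹)
  have h10 := fermi_symm hd u (h ^ N)
  unfold gp
  linarith

theorem al_lip (hd : LMet H δ d) (hh : ¬ IsOfFinOrder h) (u v : H) :
    |al d h u - al d h v| ≤ d u v := by
  obtain ⟨ρ, hρ, h0⟩ := gp_bound hd hh
  refine ul_sub_le (h0 u) (h0 v) (Eventually.of_forall fun N => ?_)
  have h1 := fermi_tri hd u v ((h ^ N)⁻¹)
  have h2 := fermi_tri hd u v (h ^ N)
  have h3 := fermi_tri hd v u ((h ^ N)⁻¹)
  have h4 := fermi_tri hd v u (h ^ N)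
  have h5 := fermi_symm hd u v
  unfold gp
  rw [abs_le]
  constructor
  · linarith
  · linarith

theorem fermi_upper (hd : LMet H δ d) (hh : ¬ IsOfFinOrder h) (u v : H) :
    (d u v : ℝ) ≤ al d h u + al d h v + |be d h u - be d h v| + 2 * δ := by
  have h1 := (((al_tendsto hd hh u).add (al_tendsto hd hh v)).add
    ((be_tendsto (h := h) hd u).sub (be_tendsto (h := h) hd v)).abs).add_const (2 * δ)
  exact ge_of_tendsto' h1 fun N => fermi_up hd (h ^ N) ((h ^ N)⁻¹) u v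

theorem fermi_lower (hd : LMet H δ d) (hh : ¬ IsOfFinOrder h) (u v : H)
    (huv : δ < |be d h u - be d h v|) :
    al d h u + al d h v + |be d h u - be d h v| - 2 * δ ≤ (d u v : ℝ) := by
  have h0 := ((be_tendsto (h := h) hd u).sub (be_tendsto (h := h) hd v)).abs
  have h1 := (((al_tendsto hd hh u).add (al_tendsto hd hh v)).add h0).sub_const (2 * δ)
  have h2 := h0.eventually_const_lt huv
  refine le_of_tendsto h1 (h2.mono fun N hN => ?_)
  exact fermi_low hd (h ^ N) ((h ^ N)⁻¹) u v hN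

theorem axis_point (hd : LMet H δ d) (hh : ¬ IsOfFinOrder h) (v : H) :
    ∃ u, al d h u = 0 ∧ |be d h u - be d h v| ≤ 1 / 2 := by
  obtain ⟨ρ, hρ, h0⟩ := gp_bound hd hh
  have key : ∀ N : ℕ, ∃ g : H, gp d (h ^ N) ((h ^ N)⁻¹) g = 0 ∧
      |((d g ((h ^ N)⁻¹) : ℝ) - d g (h ^ N)) / 2 - ((d v ((h ^ N)⁻¹) : ℝ) - d v (h ^ N)) / 2|
        ≤ 1 / 2 := by
    intro N
    obtain ⟨c, hc0, hc1, hc2⟩ := hd.geod ((h ^ N)⁻¹) (h ^ N)
    set A := h ^ N with hA
    set B := A⁻¹ with hB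
    have t1 := hd.tri v B A
    have t2 := hd.tri v A B
    have s1 := hd.symm A B
    set n := d B A with hn
    have hi : (d v B + n - d v A) / 2 ≤ n := by omega
    set i := (d v B + n - d v A) / 2 with hidef
    have e1 : d B (c i) = i := by
      have := hc2 0 i (Nat.zero_le _) hi
      rw [hc0] at this
      simpa using this
    have e2 : d (c i) A = n - i := by
      have := hc2 i n hi le_rfl
      rw [hc1] at this
      exact this
    have e3 : d (c i) B = i := by rw [hd.symm]; exact e1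
    have e2' : (d (c i) A : ℝ) = (n : ℝ) - i := by rw [e2, Nat.cast_sub hi]
    have e3' : (d (c i) B : ℝ) = i := by rw [e3]
    refine ⟨c i, ?_, ?_⟩
    · unfold gp
      rw [e2', e3', s1]
      ring
    · rw [e2', e3']
      have h3 : 2 * i + d v A ≤ d v B + n := by omega
      have h4 : d v B + n ≤ 2 * i + 1 + d v A := by omega
      have h3' : 2 * (i : ℝ) + d v A ≤ d v B + n := by exact_mod_cast h3
      have h4' : (d v B : ℝ) + n ≤ 2 * i + 1 + d v A := by exact_mod_cast h4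
      rw [abs_le]
      constructor
      · linarith
      · linarith
  choose g hg1 hg2 using key
  have hbd : ∀ N, g N ∈ {a : H | d 1 a ≤ ⌈(d 1 v : ℝ) + (ρ + d 1 v + 1 / 2 + 2 * δ)⌉₊} := by
    intro N
    have h1 := fermi_up hd (h ^ N) ((h ^ N)⁻¹) (g N) v
    have h2 := hg2 N
    have h3 := (abs_le.1 (h0 v N)).2
    have h4 := fermi_tri hd 1 v (g N)
    have h5 := fermi_symm hd v (g N)
    rw [hg1 N] at h1
    have h6 : (d 1 (g N) : ℝ) ≤ (d 1 v : ℝ) + (ρ + d 1 v + 1 / 2 + 2 * δ) := by linarith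
    have h7 : (d 1 (g N) : ℝ) ≤ ⌈(d 1 v : ℝ) + (ρ + d 1 v + 1 / 2 + 2 * δ)⌉₊ :=
      h6.trans (Nat.le_ceil _)
    exact_mod_cast h7
  obtain ⟨u, _, hu⟩ := hyperfilter_const (hd.fin _) hbd
  refine ⟨u, ?_, ?_⟩
  · apply ul_eq
    refine tendsto_const_nhds.congr' (hu.mono fun N hN => ?_)
    rw [← hN]
    exact (hg1 N).symm
  · refine ul_sub_le (be_bound hd u) (be_bound hd v) (hu.mono fun N hN => ?_)
    rw [← hN]
    exact hg2 N

end Pool.Agent.MHN
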