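import Pool.Agent.MHN.MLb

/-!
Module ML (difficulty 3): the Morse lemma for bi-Lipschitz graph-like metrics.

Let `gp d a b c ≤ r`. Take a `d`-geodesic from `a` to `c` followed by one from `c` to `b`: a map
`p : ℕ → X`, `p 0 = a`, `p m = c`, `p n = b`, `m = d a c`, `n = d a c + d c b ≤ d a b + 2 r`, with
`d (p i) (p (i + 1)) ≤ 1` and (triangle inequality) `d (p i) (p j) ≥ (j - i) - 2 r` for
`i ≤ j ≤ n`. Hence `d' (p i) (p (i + 1)) ≤ K` and `j - i ≤ K * d' (p i) (p j) + 2 r`.
Let `s` be a `d'`-geodesic from `a` to `b`, `q = d' a b`. By `ml_near`, every `s t` is within `D₀`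
of some `p i`. Let `A` = set of `t ≤ q` with some `i ≤ m`, `d' (s t) (p i) ≤ D₀`, `B` the same with
`m ≤ i ≤ n`. `0 ∈ A`, `q ∈ B`, `A ∪ B = [0, q]`, so there are `t ∈ A`, `t' ∈ B` with
`|t - t'| ≤ 1` (e.g. the largest `t ∈ A`; `t ∈ B` if `t = q`, else `t + 1 ∉ A`, so `t + 1 ∈ B`).
So `i ≤ m ≤ j` with `d' (p i) (p j) ≤ 2 D₀ + 1`, `j - i ≤ K (2 D₀ + 1) + 2 r`, thus
`d' (p m) (p i) ≤ K (j - i)` and `d' c (s t) ≤ D₀ + K (K (2 D₀ + 1) + 2 |r|) =: r'`. Finally
`gp d' a b c ≤ gp d' a b (s t) + d' c (s t) = d' c (s t)`.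
(If `r < 0` there is nothing to do: `gp d a b c ≥ 0` by the triangle inequality.)
-/

set_option autoImplicit false

namespace Pool.Agent.MHN

universe u

theorem gp_nonneg {X : Type*} {d : X → X → ℕ} (hg : GMet X d) (a b x : X) :
    0 ≤ gp d a b x := by
  have h := hg.tri a x b
  rw [hg.symm a x] at h
  have h' : (d a b : ℝ) ≤ d x a + d x b := by exact_mod_cast h
  unfold gp
  linarith

/-- the concatenation of two geodesics -/
private theorem ML_path {X : Type u} {d : X → X → ℕ} (hg : GMet X d) (a b c : X) :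
    ∃ p : ℕ → X, p 0 = a ∧ p (d a c) = c ∧ p (d a c + d c b) = b ∧
      (∀ i < d a c + d c b, d (p i) (p (i + 1)) ≤ 1) ∧
      (∀ i ≤ d a c + d c b, d a (p i) ≤ i) ∧
      (∀ j ≤ d a c + d c b, d (p j) b ≤ d a c + d c b - j) ∧
      (∀ i ≤ d a c, d (p i) c ≤ d a c - i) := by
  obtain ⟨c1, h10, h11, h1⟩ := hg.geod a c
  obtain ⟨c2, h20, h21, h2⟩ := hg.geod c b
  generalize d a c = m at *
  generalize hk : d c b = k at *
  refine ⟨fun i => if i ≤ m then c1 i else c2 (i - m), ?_, ?_, ?_, ?_, ?_, ?_, ?_⟩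
  · simp only [Nat.zero_le, if_true]
    exact h10
  · simp only [le_refl, if_true]
    exact h11
  · show (if m + k ≤ m then c1 (m + k) else c2 (m + k - m)) = b
    split_ifs with h
    · have hk0 : k = 0 := by omega
      subst hk0
      rw [add_zero, h11, ← h20]
      exact h21
    · rw [Nat.add_sub_cancel_left]
      exact h21
  · intro i hi
    show d (if i ≤ m then c1 i else c2 (i - m)) (if i + 1 ≤ m then c1 (i + 1) else c2 (i + 1 - m)) ≤ 1
    split_ifs with ha hb hb
    · rw [h1 i (i + 1) (by omega) hb]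
      omega
    · have him : i = m := by omega
      subst him
      rw [h11, Nat.add_sub_cancel_left, ← h20, h2 0 1 (by omega) (by omega)]
    · omega
    · rw [h2 (i - m) (i + 1 - m) (by omega) (by omega)]
      omega
  · intro i hi
    show d a (if i ≤ m then c1 i else c2 (i - m)) ≤ i
    split_ifs with ha
    · have h3 := h1 0 i (by omega) ha
      rw [h10] at h3
      omega
    · have h3 := h2 0 (i - m) (by omega) (by omega)
      rw [h20] at h3
      have h4 := hg.tri a c (c2 (i - m))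
      have h5 := h1 0 m (by omega) le_rfl
      rw [h10, h11] at h5
      omega
  · intro j hj
    show d (if j ≤ m then c1 j else c2 (j - m)) b ≤ m + k - j
    split_ifs with ha
    · have h3 := h1 j m ha le_rfl
      rw [h11] at h3
      have h4 := hg.tri (c1 j) c b
      omega
    · have h3 := h2 (j - m) k (by omega) le_rfl
      rw [h21] at h3
      omega
  · intro i hi
    show d (if i ≤ m then c1 i else c2 (i - m)) c ≤ m - i
    rw [if_pos hi]
    have h3 := h1 i m hi le_rfl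
    rw [h11] at h3
    omega

/-- the Morse lemma for bi-Lipschitz graph-like metrics, in terms of Gromov products -/
theorem morse_lemma (δ r : ℝ) (K : ℕ) : ∃ r' : ℝ, 0 ≤ r' ∧ ∀ (X : Type u) (d d' : X → X → ℕ),
    GMet X d → GMet X d' → Hyp δ d' → (∀ x y, d' x y ≤ K * d x y) →
    (∀ x y, d x y ≤ K * d' x y) → ∀ a b c, gp d a b c ≤ r → gp d' a b c ≤ r' := by
  obtain ⟨D, hD⟩ := ml_near.{u} δ r K
  refine ⟨D + K * (K * (2 * D + 1) + 2 * |r|), by positivity, ?_⟩
  intro X d d' hg hg' hh hK1 hK2 a b c hr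
  obtain ⟨p, hp0, hpm, hpn, hp1, hpa, hpb, hpc⟩ := ML_path hg a b c
  have hr' : (d a c : ℝ) + d c b ≤ d a b + 2 * r := by
    unfold gp at hr
    rw [hg.symm c a] at hr
    linarith
  generalize hm : d a c = m at *
  generalize hk : d c b = k at *
  have hij : ∀ i j, i ≤ j → j ≤ m + k → ((j : ℝ) - i) ≤ K * d' (p i) (p j) + 2 * r := by
    intro i j hij hj
    have h1 := hpa i (by omega)
    have h2 := hpb j hj
    have h3 := hg.tri a (p i) b
    have h4 := hg.tri (p i) (p j) b
    have h5 := hK2 (p i) (p j)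
    have h6 : d a b + j ≤ i + d (p i) (p j) + (m + k) := by omega
    have h7 : (d a b : ℝ) + j ≤ i + d (p i) (p j) + (m + k) := by exact_mod_cast h6
    have h8 : (d (p i) (p j) : ℝ) ≤ K * d' (p i) (p j) := by exact_mod_cast h5
    linarith
  obtain ⟨s, hs0, hsq, hs⟩ := hg'.geod a b
  have hnear := hD X d' (m + k) p s hg' hh
    (fun i hi => (hK1 _ _).trans (by
      calc K * d (p i) (p (i + 1)) ≤ K * 1 := Nat.mul_le_mul_left K (hp1 i hi)
        _ = K := mul_one K)) hij
    (by rw [hs0, hp0]) (by rw [hp0, hpn]; exact hsq) (by rw [hp0, hpn]; exact hs)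
  rw [hp0, hpn] at hnear
  -- the two sets
  have key : ∃ t t' i j, t ≤ d' a b ∧ t' ≤ d' a b ∧ i ≤ m ∧ m ≤ j ∧ j ≤ m + k ∧
      d' (s t) (p i) ≤ D ∧ d' (s t') (p j) ≤ D ∧ d' (s t) (s t') ≤ 1 := by
    by_contra hcon
    push Not at hcon
    have hA : ∀ t ≤ d' a b, ∃ i ≤ m, d' (s t) (p i) ≤ D := by
      intro t
      induction t with
      | zero =>
        intro _
        refine ⟨0, Nat.zero_le _, ?_⟩
        rw [hs0, hp0, hg'.self]
        exact Nat.zero_le _
      | succ t ih =>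
        intro ht
        obtain ⟨i, hi, hi'⟩ := ih (by omega)
        obtain ⟨j, hj, hj'⟩ := hnear (t + 1) ht
        rcases le_total j m with h | h
        · exact ⟨j, h, hj'⟩
        · exfalso
          have h3 := hcon t (t + 1) i j (by omega) ht hi h hj hi' hj'
          rw [hs t (t + 1) (by omega) ht] at h3
          omega
    obtain ⟨i, hi, hi'⟩ := hA (d' a b) le_rfl
    have h3 := hcon (d' a b) (d' a b) i (m + k) le_rfl le_rfl hi (by omega) le_rfl hi' (by
      rw [hsq, hpn, hg'.self]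
      exact Nat.zero_le _)
    rw [hg'.self] at h3
    omega
  obtain ⟨t, t', i, j, ht, ht', hi, hj, hj', h1, h2, h3⟩ := key
  have h4 : d' (p i) (p j) ≤ 2 * D + 1 := by
    have e1 := hg'.tri (p i) (s t) (p j)
    have e2 := hg'.tri (s t) (s t') (p j)
    rw [hg'.symm (p i) (s t)] at e1
    omega
  have h5 := hij i j (by omega) hj'
  have h6 : d' c (p i) ≤ K * (m - i) := by
    rw [hg'.symm]
    exact (hK1 _ _).trans (Nat.mul_le_mul_left K (hpc i hi))
  have h7 : d' c (s t) ≤ K * (m - i) + D := by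
    have e1 := hg'.tri c (p i) (s t)
    rw [hg'.symm (p i) (s t)] at e1
    omega
  have h8 : ((m - i : ℕ) : ℝ) ≤ K * (2 * D + 1) + 2 * |r| := by
    have e1 : ((m - i : ℕ) : ℝ) ≤ (j : ℝ) - i := by
      rw [Nat.cast_sub hi]
      have : (m : ℝ) ≤ j := by exact_mod_cast hj
      linarith
    have e2 : (d' (p i) (p j) : ℝ) ≤ 2 * D + 1 := by exact_mod_cast h4
    have e3 : (K : ℝ) * d' (p i) (p j) ≤ K * (2 * D + 1) :=
      mul_le_mul_of_nonneg_left e2 (Nat.cast_nonneg K)
    have e4 : r ≤ |r| := le_abs_self r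
    linarith
  have h9 : (d' c (s t) : ℝ) ≤ K * (K * (2 * D + 1) + 2 * |r|) + D := by
    have e1 : (d' c (s t) : ℝ) ≤ K * ((m - i : ℕ) : ℝ) + D := by exact_mod_cast h7
    have e2 := mul_le_mul_of_nonneg_left h8 (Nat.cast_nonneg (α := ℝ) K)
    linarith
  have g1 := hg'.tri c (s t) a
  have g2 := hg'.tri c (s t) b
  have g3 := hs 0 t (Nat.zero_le _) ht
  have g4 := hs t (d' a b) ht le_rfl
  rw [hs0, hg'.symm a (s t)] at g3
  rw [hsq] at g4
  have g5 : d' c a + d' c b ≤ 2 * d' c (s t) + d' a b := by omega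
  have g6 : (d' c a : ℝ) + d' c b ≤ 2 * d' c (s t) + d' a b := by exact_mod_cast g5
  unfold gp
  linarith

end Pool.Agent.MHN
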