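import Pool.Agent.MHN.Defs

/-!
Module MLa (difficulty 2): the logarithmic chain lemma.

By induction on `m`. `Hyp` is equivalent to
`gp d a b x ≥ min (gp d a c x) (gp d c b x) - δ` (four-point condition for `a, c, b, x`).
For `m = 0`: `n = 1`, the hypothesis. Step: if `n = 1` use `0 ≤ δ` (four-point condition with
all points equal gives `0 ≤ δ`); if `n ≥ 2` split `n = n₁ + n₂` with `0 < n₁, n₂ ≤ 2 ^ m`.
-/

set_option autoImplicit false

namespace Pool.Agent.MHN

theorem gp_min {X : Type*} {δ : ℝ} {d : X → X → ℕ} (hg : GMet X d) (hh : Hyp δ d) (a b c x : X) :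
    min (gp d a c x) (gp d c b x) - δ ≤ gp d a b x := by
  have h := hh a c b x
  have s1 : (d c x : ℝ) = d x c := by rw [hg.symm c x]
  have s2 : (d b x : ℝ) = d x b := by rw [hg.symm b x]
  have s3 : (d a x : ℝ) = d x a := by rw [hg.symm a x]
  rw [s1, s2, s3] at h
  unfold gp
  rcases max_cases ((d a c : ℝ) + d x b) ((d c b : ℝ) + d x a) with ⟨h1, _⟩ | ⟨h1, _⟩
  · rw [h1] at h
    have h2 := min_le_left (((d x a : ℝ) + d x c - d a c) / 2) (((d x c : ℝ) + d x b - d c b) / 2)
    linarith
  · rw [h1] at h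
    have h2 := min_le_right (((d x a : ℝ) + d x c - d a c) / 2) (((d x c : ℝ) + d x b - d c b) / 2)
    linarith

theorem ml_chain {X : Type*} {δ : ℝ} {d : X → X → ℕ} (hg : GMet X d) (hh : Hyp δ d) (x : X)
    (p : ℕ → X) (c : ℝ) (m i n : ℕ) (hn : 0 < n) (hm : n ≤ 2 ^ m)
    (hc : ∀ j, i ≤ j → j < i + n → c ≤ gp d (p j) (p (j + 1)) x) :
    c - m * δ ≤ gp d (p i) (p (i + n)) x := by
  have hδ : 0 ≤ δ := by
    have h := hh x x x x
    rw [hg.self x] at h
    simp at h
    exact h
  induction m generalizing i n with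
  | zero =>
    have hn1 : n = 1 := by
      simp at hm
      omega
    subst hn1
    have h := hc i (le_refl i) (by omega)
    simpa using h
  | succ m ih =>
    rcases Nat.lt_or_ge (2 ^ m) n with h1 | h1
    · have hp : 0 < 2 ^ m := Nat.pow_pos (by norm_num)
      have hm' : n ≤ 2 ^ m + 2 ^ m := by
        have : 2 ^ (m + 1) = 2 ^ m + 2 ^ m := by ring
        omega
      have e1 := ih i (2 ^ m) hp (le_refl _) (fun j h2 h3 => hc j h2 (by omega))
      have e2 := ih (i + 2 ^ m) (n - 2 ^ m) (by omega) (by omega)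
        (fun j h2 h3 => hc j (by omega) (by omega))
      have e3 : i + 2 ^ m + (n - 2 ^ m) = i + n := by omega
      rw [e3] at e2
      have e4 := gp_min hg hh (p i) (p (i + n)) (p (i + 2 ^ m)) x
      have e5 := le_min e1 e2
      push_cast
      linarith
    · have e1 := ih i n hn h1 hc
      push_cast
      linarith

end Pool.Agent.MHN
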