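import Pool.Agent.MHN.MLa

/-!
Module MLb (difficulty 4): a geodesic stays near a quasi-geodesic with the same endpoints.

Let `q = d (p 0) (p n)` and `D = max_{t ≤ q} min_{i ≤ n} d (c t) (p i)` (a natural number,
attained at `t₀`; put `x = c t₀`). All `p i` have `d x (p i) ≥ D`. We bound `D` in terms of
`δ, K, r` only. Assume `D ≥ 1`. Let `t₁ = t₀ - 2 D` (natural subtraction), `t₂ = min (t₀ + 2 D) q`,
`y = c t₁`, `z = c t₂`. Choose `i₁ ≤ n` with `d y (p i₁) ≤ D`; if `t₀ < 2 D` (so `y = c 0 = p 0`)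
take `i₁ = 0`. Then `gp d y (p i₁) x ≥ D` in both cases. Same for `z` and `i₂` (`i₂ = n` if
`t₀ + 2 D > q`). As `x` lies on the geodesic between `y` and `z`, `gp d y z x = 0`. By `gp_min`
twice, `0 ≥ min (D, gp d (p i₁) (p i₂) x, D) - 2 δ`. Now `d (p i₁) (p i₂) ≤ D + 4 D + D = 6 D`, so
`|i₁ - i₂| ≤ 6 K D + 2 r =: n'`, and every step has
`gp d (p j) (p (j + 1)) x ≥ d x (p j) - d (p j) (p (j + 1)) ≥ D - K`. With `ml_chain` (if
`i₁ ≠ i₂`; if `i₁ = i₂` the Gromov product is `d x (p i₁) ≥ D`; by symmetry let `i₁ ≤ i₂`),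
`gp d (p i₁) (p i₂) x ≥ D - K - m δ` as soon as `2 ^ m ≥ |i₁ - i₂|`. So for every `m` with
`2 ^ m ≥ 6 K D + 2 r` we have `D ≤ K + (m + 2) δ`. This bounds `D`: e.g. take
`m = Nat.clog 2 ⌈6 K D + 2 |r| + 1⌉` or `m = ⌊D / (2 (δ + 1))⌋` for which `2 ^ m ≥ 6 K D + 2 r`
once `D` is large (exponential beats linear, `tendsto_pow_const_div_const_pow_of_one_lt` or
similar), giving `D ≤ K + 2 δ + D / 2`, i.e. `D ≤ 2 K + 4 δ`. The threshold depends only on
`δ, K, r`. (If `X` has a point then `0 ≤ δ`.)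
-/

set_option autoImplicit false

namespace Pool.Agent.MHN

universe u

open Filter in
private theorem MLb_thr (A B : ℝ) : ∃ M : ℕ, ∀ m : ℕ, M ≤ m → A * (m + 1) + B ≤ 2 ^ m := by
  have h1 : Tendsto (fun m : ℕ => ((m : ℝ) ^ 1) / (2 : ℝ) ^ m) atTop (nhds 0) :=
    tendsto_pow_const_div_const_pow_of_one_lt 1 (by norm_num)
  have h2 : Tendsto (fun m : ℕ => ((m : ℝ) ^ 0) / (2 : ℝ) ^ m) atTop (nhds 0) :=
    tendsto_pow_const_div_const_pow_of_one_lt 0 (by norm_num)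
  have h3 : Tendsto (fun m : ℕ => A * (((m : ℝ) ^ 1) / (2 : ℝ) ^ m) +
      (A + B) * (((m : ℝ) ^ 0) / (2 : ℝ) ^ m)) atTop (nhds (A * 0 + (A + B) * 0)) :=
    (h1.const_mul A).add (h2.const_mul (A + B))
  rw [mul_zero, mul_zero, add_zero] at h3
  have h4 := h3.eventually (gt_mem_nhds (show (0 : ℝ) < 1 by norm_num))
  obtain ⟨M, hM⟩ := eventually_atTop.1 h4
  refine ⟨M, fun m hm => ?_⟩
  have h5 := hM m hm
  have h6 : (0 : ℝ) < 2 ^ m := by positivity
  rw [pow_one, pow_zero] at h5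
  have h7 : A * ((m : ℝ) / 2 ^ m) + (A + B) * (1 / 2 ^ m) = (A * (m + 1) + B) / 2 ^ m := by
    field_simp
    ring
  rw [h7, div_lt_one h6] at h5
  exact h5.le

private theorem MLb_num (δ r : ℝ) (hδ : 0 ≤ δ) (K : ℕ) : ∃ D₀ : ℕ, ∀ D : ℕ,
    (∀ m : ℕ, 6 * K * D + 2 * r ≤ (2 : ℝ) ^ m → (D : ℝ) ≤ K + (m + 2) * δ) → D ≤ D₀ := by
  obtain ⟨M, hM⟩ := MLb_thr (12 * K * (δ + 1)) (2 * r)
  refine ⟨⌈max (2 * (K : ℝ) + 4 * δ) (2 * (δ + 1) * (M + 1))⌉₊, fun D hD => ?_⟩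
  have hpos : 0 < 2 * (δ + 1) := by linarith
  set m := ⌊(D : ℝ) / (2 * (δ + 1))⌋₊ with hm
  have h1 : (m : ℝ) ≤ (D : ℝ) / (2 * (δ + 1)) := Nat.floor_le (by positivity)
  have h2 : (D : ℝ) / (2 * (δ + 1)) < m + 1 := Nat.lt_floor_add_one _
  rw [le_div_iff₀ hpos] at h1
  rw [div_lt_iff₀ hpos] at h2
  have key : (D : ℝ) ≤ max (2 * (K : ℝ) + 4 * δ) (2 * (δ + 1) * (M + 1)) := by
    by_cases hMm : M ≤ m
    · have h3 := hM m hMm
      have h4 : 6 * K * D + 2 * r ≤ (2 : ℝ) ^ m := by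
        refine le_trans ?_ h3
        have h5 : (6 * (K : ℝ)) * D ≤ (6 * (K : ℝ)) * ((m + 1) * (2 * (δ + 1))) :=
          mul_le_mul_of_nonneg_left h2.le (by positivity)
        nlinarith
      have h6 := hD m h4
      apply le_max_of_le_left
      nlinarith
    · push Not at hMm
      apply le_max_of_le_right
      have h3 : (m : ℝ) ≤ M := by exact_mod_cast hMm.le
      have h4 : ((m : ℝ) + 1) * (2 * (δ + 1)) ≤ ((M : ℝ) + 1) * (2 * (δ + 1)) :=
        mul_le_mul_of_nonneg_right (by linarith) hpos.le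
      linarith
  exact_mod_cast key.trans (Nat.le_ceil _)

private theorem MLb_gp_symm {X : Type*} {d : X → X → ℕ} (hg : GMet X d) (a b x : X) :
    gp d a b x = gp d b a x := by
  unfold gp
  rw [hg.symm a b]
  ring

/-- the chain estimate, for ordered indices -/
private theorem MLb_chain {X : Type*} {δ : ℝ} {d : X → X → ℕ} (hg : GMet X d) (hh : Hyp δ d)
    (hδ : 0 ≤ δ) (x : X) (p : ℕ → X) (K D n m : ℕ) (i₁ i₂ : ℕ) (h12 : i₁ ≤ i₂) (h2 : i₂ ≤ n)
    (hK : ∀ i < n, d (p i) (p (i + 1)) ≤ K) (hD : ∀ i ≤ n, D ≤ d x (p i))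
    (hm : ((i₂ : ℝ) - i₁) ≤ 2 ^ m) :
    (D : ℝ) - K - m * δ ≤ gp d (p i₁) (p i₂) x := by
  rcases eq_or_lt_of_le h12 with h | h
  · subst h
    have h3 : (D : ℝ) ≤ d x (p i₁) := by exact_mod_cast hD i₁ h2
    have h4 : (0 : ℝ) ≤ m * δ := by positivity
    have h5 : (0 : ℝ) ≤ K := by positivity
    unfold gp
    rw [hg.self]
    push_cast
    linarith
  · obtain ⟨k, rfl⟩ := Nat.exists_eq_add_of_lt h
    have h3 : i₁ + k + 1 = i₁ + (k + 1) := by ring
    rw [h3] at h2 hm ⊢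
    apply ml_chain hg hh x p ((D : ℝ) - K) m i₁ (k + 1) (by omega)
    · push_cast at hm
      have : ((k + 1 : ℕ) : ℝ) ≤ ((2 ^ m : ℕ) : ℝ) := by
        push_cast
        linarith
      exact_mod_cast this
    · intro j hj1 hj2
      have a1 : (D : ℝ) ≤ d x (p j) := by exact_mod_cast hD j (by omega)
      have a2 : (D : ℝ) ≤ d x (p (j + 1)) := by exact_mod_cast hD (j + 1) (by omega)
      have a3 : (d (p j) (p (j + 1)) : ℝ) ≤ K := by exact_mod_cast hK j (by omega)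
      have a4 : (0 : ℝ) ≤ K := by positivity
      unfold gp
      linarith

theorem ml_near (δ r : ℝ) (K : ℕ) : ∃ D₀ : ℕ, ∀ (X : Type u) (d : X → X → ℕ) (n : ℕ)
    (p c : ℕ → X), GMet X d → Hyp δ d → (∀ i < n, d (p i) (p (i + 1)) ≤ K) →
    (∀ i j, i ≤ j → j ≤ n → ((j : ℝ) - i) ≤ K * d (p i) (p j) + 2 * r) →
    c 0 = p 0 → c (d (p 0) (p n)) = p n →
    (∀ i j, i ≤ j → j ≤ d (p 0) (p n) → d (c i) (c j) = j - i) →
    ∀ t ≤ d (p 0) (p n), ∃ i ≤ n, d (c t) (p i) ≤ D₀ :=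
  by
  classical
  by_cases hδ : 0 ≤ δ
  swap
  · refine ⟨0, fun X d n p c hg hh => ?_⟩
    exfalso
    apply hδ
    have h1 := hh (p 0) (p 0) (p 0) (p 0)
    rw [max_self] at h1
    linarith
  obtain ⟨D₀, hD₀⟩ := MLb_num δ r hδ K
  refine ⟨D₀, fun X d n p c hg hh hK hr hc0 hcn hgeo t ht => ?_⟩
  set q := d (p 0) (p n) with hq
  -- the maximal `D`
  let P : ℕ → Prop := fun D => ∃ t ≤ q, ∀ i ≤ n, D ≤ d (c t) (p i)
  have hP0 : P 0 := ⟨0, Nat.zero_le _, fun i _ => Nat.zero_le _⟩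
  have hPb : ∀ D, P D → D ≤ q := by
    rintro D ⟨t, ht, h⟩
    have h1 := h 0 (Nat.zero_le _)
    rw [← hc0, hg.symm, hgeo 0 t (Nat.zero_le _) ht] at h1
    omega
  obtain ⟨D, hPD, hPn⟩ : ∃ D, P D ∧ ¬ P (D + 1) := by
    by_contra hcon
    push Not at hcon
    have : ∀ D, P D := fun D => Nat.rec hP0 (fun k hk => hcon k hk) D
    have := hPb _ (this (q + 1))
    omega
  have hnear : ∀ t ≤ q, ∃ i ≤ n, d (c t) (p i) ≤ D := by
    intro t ht
    by_contra hcon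
    push Not at hcon
    exact hPn ⟨t, ht, fun i hi => hcon i hi⟩
  obtain ⟨t₀, ht₀, hfar⟩ := hPD
  have hmain : D ≤ D₀ := by
    apply hD₀
    intro m hm
    -- the left point
    have hdt : ∀ i j, i ≤ j → j ≤ q → (d (c i) (c j) : ℝ) = j - i := by
      intro i j hij hj
      rw [hgeo i j hij hj, Nat.cast_sub hij]
    have hleft : ∃ i₁ ≤ n, d (c (t₀ - 2 * D)) (p i₁) ≤ D ∧
        (D : ℝ) ≤ gp d (c (t₀ - 2 * D)) (p i₁) (c t₀) := by
      rcases le_or_gt t₀ (2 * D) with h | h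
      · have h1 : t₀ - 2 * D = 0 := by omega
        refine ⟨0, Nat.zero_le _, ?_, ?_⟩
        · rw [h1, hc0, hg.self]
          exact Nat.zero_le _
        · rw [h1, hc0]
          have h2 : (D : ℝ) ≤ d (c t₀) (p 0) := by exact_mod_cast hfar 0 (Nat.zero_le _)
          unfold gp
          rw [hg.self]
          push_cast
          linarith
      · obtain ⟨i₁, hi₁, h1⟩ := hnear (t₀ - 2 * D) (by omega)
        refine ⟨i₁, hi₁, h1, ?_⟩
        have h2 : (D : ℝ) ≤ d (c t₀) (p i₁) := by exact_mod_cast hfar i₁ hi₁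
        have h3 : (d (c (t₀ - 2 * D)) (p i₁) : ℝ) ≤ D := by exact_mod_cast h1
        have h4 : (d (c t₀) (c (t₀ - 2 * D)) : ℝ) = 2 * D := by
          rw [hg.symm, hdt _ _ (Nat.sub_le _ _) ht₀, Nat.cast_sub h.le]
          push_cast
          ring
        unfold gp
        linarith
    have hright : ∃ i₂ ≤ n, d (c (min (t₀ + 2 * D) q)) (p i₂) ≤ D ∧
        (D : ℝ) ≤ gp d (p i₂) (c (min (t₀ + 2 * D) q)) (c t₀) := by
      rcases le_or_gt q (t₀ + 2 * D) with h | h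
      · rw [min_eq_right h]
        refine ⟨n, le_rfl, ?_, ?_⟩
        · rw [hcn, hg.self]
          exact Nat.zero_le _
        · rw [hcn]
          have h2 : (D : ℝ) ≤ d (c t₀) (p n) := by exact_mod_cast hfar n le_rfl
          unfold gp
          rw [hg.self]
          push_cast
          linarith
      · rw [min_eq_left h.le]
        obtain ⟨i₂, hi₂, h1⟩ := hnear (t₀ + 2 * D) h.le
        refine ⟨i₂, hi₂, h1, ?_⟩
        have h2 : (D : ℝ) ≤ d (c t₀) (p i₂) := by exact_mod_cast hfar i₂ hi₂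
        have h3 : (d (p i₂) (c (t₀ + 2 * D)) : ℝ) ≤ D := by
          rw [hg.symm]
          exact_mod_cast h1
        have h4 : (d (c t₀) (c (t₀ + 2 * D)) : ℝ) = 2 * D := by
          rw [hdt _ _ (Nat.le_add_right _ _) h.le]
          push_cast
          ring
        unfold gp
        linarith
    obtain ⟨i₁, hi₁, hy1, hy2⟩ := hleft
    obtain ⟨i₂, hi₂, hz1, hz2⟩ := hright
    set t₁ := t₀ - 2 * D with ht₁
    set t₂ := min (t₀ + 2 * D) q with ht₂
    have h01 : t₁ ≤ t₀ := Nat.sub_le _ _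
    have h02 : t₀ ≤ t₂ := le_min (Nat.le_add_right _ _) ht₀
    have h2q : t₂ ≤ q := min_le_right _ _
    have h21 : t₂ ≤ t₁ + 4 * D := by omega
    have hyz : gp d (c t₁) (c t₂) (c t₀) = 0 := by
      unfold gp
      rw [hg.symm (c t₀) (c t₁), hdt _ _ h01 ht₀, hdt _ _ h02 h2q, hdt _ _ (h01.trans h02) h2q]
      ring
    have g1 := gp_min hg hh (c t₁) (c t₂) (p i₁) (c t₀)
    have g2 := gp_min hg hh (p i₁) (c t₂) (p i₂) (c t₀)
    rw [hyz] at g1
    -- the distance of `p i₁` and `p i₂`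
    have hd12 : d (p i₁) (p i₂) ≤ 6 * D := by
      have a1 := hg.tri (p i₁) (c t₁) (p i₂)
      have a2 := hg.tri (c t₁) (c t₂) (p i₂)
      have a3 := hgeo t₁ t₂ (h01.trans h02) h2q
      rw [hg.symm (p i₁) (c t₁)] at a1
      omega
    have hd12' : (d (p i₁) (p i₂) : ℝ) ≤ 6 * D := by exact_mod_cast hd12
    have hK0 : (0 : ℝ) ≤ K := by positivity
    have hG : (D : ℝ) - K - m * δ ≤ gp d (p i₁) (p i₂) (c t₀) := by
      rcases le_total i₁ i₂ with h | h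
      · apply MLb_chain hg hh hδ (c t₀) p K D n m i₁ i₂ h hi₂ hK hfar
        have a1 := hr i₁ i₂ h hi₂
        have a2 : (K : ℝ) * d (p i₁) (p i₂) ≤ K * (6 * D) := mul_le_mul_of_nonneg_left hd12' hK0
        linarith
      · rw [MLb_gp_symm hg]
        apply MLb_chain hg hh hδ (c t₀) p K D n m i₂ i₁ h hi₁ hK hfar
        have a1 := hr i₂ i₁ h hi₁
        rw [hg.symm] at a1
        have a2 : (K : ℝ) * d (p i₁) (p i₂) ≤ K * (6 * D) := mul_le_mul_of_nonneg_left hd12' hK0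
        linarith
    have hm0 : (0 : ℝ) ≤ m * δ := by positivity
    by_contra hcon
    push Not at hcon
    have b1 : (D : ℝ) - K - m * δ ≤
        min (gp d (p i₁) (p i₂) (c t₀)) (gp d (p i₂) (c t₂) (c t₀)) := by
      apply le_min hG
      linarith
    have b2 : (D : ℝ) - K - m * δ - δ ≤
        min (gp d (c t₁) (p i₁) (c t₀)) (gp d (p i₁) (c t₂) (c t₀)) := by
      apply le_min
      · linarith
      · linarith
    nlinarith
  obtain ⟨i, hi, h⟩ := hnear t ht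
  exact ⟨i, hi, h.trans hmain⟩

end Pool.Agent.MHN
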