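import Pool.Agent.MHN.TL
import Pool.Agent.MHN.Conj

/-!
Module RT (difficulty 3): right translation of the metric.

Let `d' a b = d (a * y) (b * y)`, an `LMet` by `LMet.right`.
* `rt_tl`: `d' 1 (h^n) = d y (h^n * y)`, within `2 d 1 y` of `d 1 (h^n)` (as
  `d (h^n) (h^n * y) = d 1 y`), so the limits of the quotients by `n` agree (`tl_tendsto` for both,
  uniqueness of limits).
* `rt_be`: `be d' h z = ½ lim [d (z y) ((h^N)⁻¹ y) - d (z y) (h^N y)]`; since
  `d y ((h^N)⁻¹ y) = d y (h^N y)` this is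
  `½ lim {[d (z y) ((h^N)⁻¹ y) - d y ((h^N)⁻¹ y)] - [d (z y) (h^N y) - d y (h^N y)]}`.
  By `bus_stable` (points `z y`, `y`; `a N = (h^N)⁻¹`, `a' N = (h^N)⁻¹ y`, distance `d 1 y`; and the
  same with `h^N`) each bracket is within `2 δ` of the one without the last `y`, and
  `½ lim {[d (z y) (h^N)⁻¹ - d y (h^N)⁻¹] - [d (z y) (h^N) - d y (h^N)]} = be d h (z y) - be d h y`.
-/

set_option autoImplicit false

open Filter Topology

namespace Pool.Agent.MHN

variable {H : Type*} [Group H] {δ : ℝ} {d : H → H → ℕ} {h : H}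

/-- real triangle inequality -/
private theorem RT_tri (hd : LMet H δ d) (a b c : H) : (d a c : ℝ) ≤ d a b + d b c := by
  exact_mod_cast hd.tri a b c

private theorem RT_one_inv (hd : LMet H δ d) (g : H) : d 1 g⁻¹ = d 1 g := by
  have := hd.left g 1 g⁻¹
  rw [mul_one, mul_inv_cancel] at this
  rw [← this, hd.symm]

private theorem RT_bdd (hd : LMet H δ d) (h u : H) (N : ℕ) :
    |((d u ((h ^ N)⁻¹) : ℝ) - d u (h ^ N)) / 2| ≤ (d 1 u : ℝ) := by
  have e : (d 1 ((h ^ N)⁻¹) : ℝ) = d 1 (h ^ N) := by rw [RT_one_inv hd]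
  have s : (d u 1 : ℝ) = d 1 u := by rw [hd.symm]
  have t1 := RT_tri hd u 1 ((h ^ N)⁻¹)
  have t2 := RT_tri hd 1 u (h ^ N)
  have t3 := RT_tri hd u 1 (h ^ N)
  have t4 := RT_tri hd 1 u ((h ^ N)⁻¹)
  rw [abs_le]
  constructor <;> linarith

theorem rt_tl (hd : LMet H δ d) (h y : H) :
    tl (fun a b => d (a * y) (b * y)) h = tl d h := by
  have t1 := tl_tendsto (hd.right y) h
  have t2 := tl_tendsto hd h
  have hc : Tendsto (fun n : ℕ => (2 * (d 1 y : ℝ)) / n) atTop (𝓝 0) :=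
    tendsto_const_div_atTop_nhds_zero_nat _
  have t3 : Tendsto (fun n : ℕ => (d (1 * y) (h ^ n * y) : ℝ) / n - (d 1 (h ^ n) : ℝ) / n) atTop
      (𝓝 0) := by
    apply squeeze_zero_norm _ hc
    intro n
    rw [← sub_div, Real.norm_eq_abs, abs_div, Nat.abs_cast]
    apply div_le_div_of_nonneg_right _ (Nat.cast_nonneg _)
    rw [one_mul]
    have e1 : (d (h ^ n) (h ^ n * y) : ℝ) = d 1 y := by
      have := hd.left (h ^ n) 1 y
      rw [mul_one] at this
      rw [this]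
    have e2 : (d (h ^ n * y) (h ^ n) : ℝ) = d 1 y := by rw [hd.symm]; exact e1
    have s : (d y 1 : ℝ) = d 1 y := by rw [hd.symm]
    have a1 := RT_tri hd y 1 (h ^ n * y)
    have a2 := RT_tri hd 1 (h ^ n) (h ^ n * y)
    have a3 := RT_tri hd 1 y (h ^ n)
    have a4 := RT_tri hd y (h ^ n * y) (h ^ n)
    rw [abs_le]
    constructor <;> linarith
  have t4 := t2.add t3
  rw [add_zero] at t4
  apply tendsto_nhds_unique t1
  refine t4.congr ?_
  intro n
  ring

theorem rt_be (hd : LMet H δ d) (hh : ¬ IsOfFinOrder h) (y z : H) :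
    |be (fun a b => d (a * y) (b * y)) h z - (be d h (z * y) - be d h y)| ≤ 2 * δ := by
  have hd' := hd.right y
  have l1 := ul_tendsto (f := fun N => ((d (z * y) ((h ^ N)⁻¹ * y) : ℝ) -
    d (z * y) (h ^ N * y)) / 2) (B := (d (1 * y) (z * y) : ℝ))
    (fun N => RT_bdd hd' h z N)
  have l2 := ul_tendsto (f := fun N => ((d (z * y) ((h ^ N)⁻¹) : ℝ) - d (z * y) (h ^ N)) / 2)
    (fun N => RT_bdd hd h (z * y) N)
  have l3 := ul_tendsto (f := fun N => ((d y ((h ^ N)⁻¹) : ℝ) - d y (h ^ N)) / 2)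
    (fun N => RT_bdd hd h y N)
  have l4 := (l1.sub (l2.sub l3)).abs
  have key : ∀ᶠ N in (hyperfilter ℕ : Filter ℕ),
      |((d (z * y) ((h ^ N)⁻¹ * y) : ℝ) - d (z * y) (h ^ N * y)) / 2 -
        (((d (z * y) ((h ^ N)⁻¹) : ℝ) - d (z * y) (h ^ N)) / 2 -
          ((d y ((h ^ N)⁻¹) : ℝ) - d y (h ^ N)) / 2)| ≤ 2 * δ := by
    have ha : ∀ N : ℕ, d ((h ^ N)⁻¹) ((h ^ N)⁻¹ * y) ≤ d 1 y := by
      intro N
      have := hd.left ((h ^ N)⁻¹) 1 y
      rw [mul_one] at this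
      exact this.le
    have ha' : ∀ N : ℕ, d (h ^ N) (h ^ N * y) ≤ d 1 y := by
      intro N
      have := hd.left (h ^ N) 1 y
      rw [mul_one] at this
      exact this.le
    have b1 := bus_stable hd (a := fun N : ℕ => (h ^ N)⁻¹) (a' := fun N : ℕ => (h ^ N)⁻¹ * y)
      (K := d 1 y) ha (fun B => (pow_large hd hh B).mono fun N hN => hN.2) (z * y) y
    have b2 := bus_stable hd (a := fun N : ℕ => h ^ N) (a' := fun N : ℕ => h ^ N * y)
      (K := d 1 y) ha' (fun B => (pow_large hd hh B).mono fun N hN => hN.1) (z * y) y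
    filter_upwards [b1, b2] with N c1 c2
    have e : (d y ((h ^ N)⁻¹ * y) : ℝ) = d y (h ^ N * y) := by
      have := hd.left (h ^ N) y ((h ^ N)⁻¹ * y)
      rw [mul_inv_cancel_left] at this
      rw [← this, hd.symm]
    rw [abs_le] at c1 c2 ⊢
    constructor <;> linarith [c1.1, c1.2, c2.1, c2.2]
  exact le_of_tendsto l4 key

end Pool.Agent.MHN
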