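import Pool.Agent.MHN.TransB
import Pool.Agent.MHN.RT
import Pool.Agent.MHN.Far

/-!
Module PFun (difficulty 4): the phase function `P` on `G`.

Let `z, B` be from `exists_far_seq` for `d = wdist A` (`= dx A 1`, `dx_one`), and
`P x = - (ul fun j => be (dx A x) h (z j)) / tl (dx A x) h` (`ell A h x = tl (dx A x) h`).
For `w : G` let `K w` be from `dx_bilip` and `R w` from `trans_be δ (K w)`. All `dx A x` are `LMet`
with the same `δ` (`dx_lmet`), `be _ h 1 = 0` (`be_one`).
* (bdd) `j ↦ be (dx A x) h (z j)` is bounded: `trans_be` for `dx A 1`, `dx A x = dx A (1 * x)`,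
  points `1`, `z j`.
* (P2) `trans_be` for `dx A x`, `dx A (x * w)` and points `1`, `z j`, for every `j`; then the limit.
* (far) for fixed `x` and `r`, `al (dx A x) h (z j) > r` for all large `j`: otherwise `trans_al`
  (from `dx A x` to `dx A 1`) bounds `al (dx A 1) h (z j) ≥ j`.
* (P14) for `y : H`, `x : G`: `dx A (y * x) a b = dx A x (a * y) (b * y)` (`dx_left`), so by
  `rt_be`, `rt_tl` `be (dx A (y x)) h (z j) = be (dx A x) h (z j * y) - be (dx A x) h y ± 2 δ`, and
  for large `j` `be (dx A x) h (z j * y) = be (dx A x) h (z j) ± δ` by (far) and `far_right`. So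
  `|P (y x) - P x - be (dx A x) h y / ell A h x| ≤ 3 δ / ell A h x`.
* (P1) `y = h ^ n` in (P14) and `be_shift` with `u = 1`: error `9 δ / ell`.
* (P4) (P14) for `x = 1` and `y u`, `y`, with `contraction`: the error is `7 δ / ell A h 1`.
  `C₀ = max (9 δ) (7 δ / ell A h 1)`.
-/

set_option autoImplicit false

open Filter Topology

namespace Pool.Agent.MHN

universe u

section PFun
variable {G : Type u} [Group G] {H : Subgroup G} [H.Normal] {A : Finset H} {δ : ℝ}

private theorem PFun_lim {f g : ℕ → ℝ} {a b s t c E : ℝ}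
    (hf : Tendsto f (hyperfilter ℕ : Filter ℕ) (𝓝 a))
    (hg : Tendsto g (hyperfilter ℕ : Filter ℕ) (𝓝 b))
    (h : ∀ᶠ j in (hyperfilter ℕ : Filter ℕ), |s * f j - t * g j - c| ≤ E) :
    |s * a - t * b - c| ≤ E := by
  have h1 : Tendsto (fun j => |s * f j - t * g j - c|) (hyperfilter ℕ : Filter ℕ)
      (𝓝 |s * a - t * b - c|) := (((hf.const_mul s).sub (hg.const_mul t)).sub_const c).abs
  exact le_of_tendsto h1 h

private theorem PFun_bdd (hA : Gen A) (hδ : Hyp δ (wdist A)) (h : H) (hh : ¬ IsOfFinOrder h)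
    (z : ℕ → H) (B : ℝ) (hB : ∀ j, |be (wdist A) h (z j)| ≤ B) (x : G) :
    ∃ B' : ℝ, ∀ j, |be (dx A x) h (z j)| ≤ B' := by
  obtain ⟨K, hK⟩ := dx_bilip hA x
  obtain ⟨R, hR0, hR⟩ := trans_be δ K
  have hd := dx_lmet hA hδ (1 : G)
  have hd' := dx_lmet hA hδ x
  have hb := fun a b => hK 1 a b
  simp only [one_mul] at hb
  have ht := tl_pos hd hh
  have ht' := tl_pos hd' hh
  refine ⟨(4 + R * (1 / tl (dx A 1) h + 1 / tl (dx A x) h) + B / tl (dx A 1) h) * tl (dx A x) h,
    fun j => ?_⟩
  have h1 := hR H (dx A 1) (dx A x) hd hd' (fun a b => (hb a b).1) (fun a b => (hb a b).2) h hh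
    (z j) 1
  rw [be_one hd, be_one hd', sub_zero, sub_zero] at h1
  have h2 : |be (dx A 1) h (z j)| ≤ B := by
    have := hB j
    rwa [← dx_one (G := G) A] at this
  have h3 : |be (dx A 1) h (z j) / tl (dx A 1) h| ≤ B / tl (dx A 1) h := by
    rw [abs_div, abs_of_pos ht]
    exact div_le_div_of_nonneg_right h2 ht.le
  have h4 : |be (dx A x) h (z j) / tl (dx A x) h| ≤
      4 + R * (1 / tl (dx A 1) h + 1 / tl (dx A x) h) + B / tl (dx A 1) h := by
    have := abs_sub_abs_le_abs_sub (be (dx A x) h (z j) / tl (dx A x) h)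
      (be (dx A 1) h (z j) / tl (dx A 1) h)
    linarith
  rw [abs_div, abs_of_pos ht', div_le_iff₀ ht'] at h4
  exact h4

private theorem PFun_far (hA : Gen A) (hδ : Hyp δ (wdist A)) (h : H) (hh : ¬ IsOfFinOrder h)
    (z : ℕ → H) (hz : ∀ j : ℕ, (j : ℝ) ≤ al (wdist A) h (z j)) (x : G) (r : ℝ) :
    ∀ᶠ j in (hyperfilter ℕ : Filter ℕ), r < al (dx A x) h (z j) := by
  obtain ⟨K, hK⟩ := dx_bilip hA x
  obtain ⟨r', hr0, hr⟩ := trans_al δ r K
  have hd := dx_lmet hA hδ (1 : G)
  have hd' := dx_lmet hA hδ x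
  have hb := fun a b => hK 1 a b
  simp only [one_mul] at hb
  apply hyperfilter_of_atTop
  obtain ⟨N, hN⟩ := exists_nat_gt r'
  filter_upwards [eventually_ge_atTop N] with j hj
  by_contra hc
  rw [not_lt] at hc
  have h1 := hr H (dx A x) (dx A 1) hd' hd (fun a b => (hb a b).2) (fun a b => (hb a b).1) h hh
    (z j) hc
  rw [dx_one (G := G) A] at h1
  have h2 := hz j
  have h3 : (N : ℝ) ≤ j := by exact_mod_cast hj
  linarith

end PFun

theorem exists_P {G : Type u} [Group G] {H : Subgroup G} [H.Normal] {A : Finset H} (hA : Gen A)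
    {δ : ℝ} (hδ : Hyp δ (wdist A)) (h : H) (hh : ¬ IsOfFinOrder h)
    (hne : ∀ n : ℕ, ∃ z : H, ∀ i : ℤ, n ≤ wdist A z (h ^ i)) :
    ∃ (P R : G → ℝ) (C₀ : ℝ), 0 ≤ C₀ ∧ (∀ w, 0 ≤ R w) ∧
      (∀ (x : G) (n : ℤ), |P ((h : G) ^ n * x) - P x - n| ≤ C₀ / ell A h x) ∧
      (∀ x w : G, |P (x * w) - P x| ≤ 4 + R w * (1 / ell A h x + 1 / ell A h (x * w))) ∧
      (∀ B : ℕ, ∃ D : ℕ, ∀ y u : H, wlen A u ≤ B → (∀ i : ℤ, D ≤ wdist A y (h ^ i)) →
        |P ((y * u : H) : G) - P (y : G)| ≤ C₀) := by
  have hl := lmet hA hδ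
  have hδ0 : 0 ≤ δ := hl.delta_nonneg
  have hdx := fun x : G => dx_lmet hA hδ x
  have hpos : ∀ x : G, 0 < ell A h x := fun x => tl_pos (hdx x) hh
  obtain ⟨z, B, hB, hz⟩ := exists_far_seq hl hh hne
  have hbdd := PFun_bdd (G := G) hA hδ h hh z B hB
  have hfar := PFun_far (G := G) hA hδ h hh z hz
  set F : G → ℕ → ℝ := fun x j => be (dx A x) h (z j) with hF
  have hlim : ∀ x : G, Tendsto (F x) (hyperfilter ℕ : Filter ℕ) (𝓝 (ul (F x))) := by
    intro x
    obtain ⟨B', hB'⟩ := hbdd x
    exact ul_tendsto hB'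
  choose K hK using fun w : G => dx_bilip (A := A) hA w
  choose R hR0 hR using fun w : G => trans_be.{u} δ (K w)
  set P : G → ℝ := fun x => - (ul (F x)) / ell A h x with hP
  -- the main comparison
  have h14 : ∀ (x : G) (y : H),
      |P ((y : G) * x) - P x - be (dx A x) h y / ell A h x| ≤ 3 * δ / ell A h x := by
    intro x y
    have hfun : dx A ((y : G) * x) = fun a b => dx A x (a * y) (b * y) := by
      funext a b
      exact dx_left A x y a b
    have htl : ell A h ((y : G) * x) = ell A h x := by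
      unfold ell
      rw [hfun]
      exact rt_tl (hdx x) h y
    have hev : ∀ᶠ j in (hyperfilter ℕ : Filter ℕ),
        |1 * F x j - 1 * F ((y : G) * x) j - be (dx A x) h y| ≤ 3 * δ := by
      filter_upwards [hfar x ((dx A x 1 y : ℝ) + 2 * δ)] with j hj
      have h1 := far_right (hdx x) hh (z j) y hj
      have h2 := rt_be (hdx x) hh y (z j)
      rw [← hfun] at h2
      rw [abs_le] at h1 h2 ⊢
      simp only [hF]
      constructor
      · linarith [h1.1, h2.2]
      · linarith [h1.2, h2.1]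
    have h3 := PFun_lim (hlim x) (hlim ((y : G) * x)) hev
    have e : P ((y : G) * x) - P x - be (dx A x) h y / ell A h x =
        (1 * ul (F x) - 1 * ul (F ((y : G) * x)) - be (dx A x) h y) / ell A h x := by
      simp only [hP]
      rw [htl]
      ring
    rw [e, abs_div, abs_of_pos (hpos x)]
    exact div_le_div_of_nonneg_right h3 (hpos x).le
  refine ⟨P, R, max (9 * δ) (7 * δ / ell A h 1), le_trans (by positivity) (le_max_left _ _),
    hR0, ?_, ?_, ?_⟩
  · -- (P1)
    intro x n
    have h1 := h14 x (h ^ n)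
    rw [Subgroup.coe_zpow] at h1
    have h2 := be_shift (hdx x) hh 1 n
    rw [mul_one, be_one (hdx x), sub_zero] at h2
    have h3 : |be (dx A x) h (h ^ n) / ell A h x - n| ≤ 6 * δ / ell A h x := by
      have e : be (dx A x) h (h ^ n) / ell A h x - n =
          (be (dx A x) h (h ^ n) - n * tl (dx A x) h) / ell A h x := by
        have := (hpos x).ne'
        unfold ell at *
        field_simp
      rw [e, abs_div, abs_of_pos (hpos x)]
      exact div_le_div_of_nonneg_right h2 (hpos x).le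
    have h4 : 9 * δ / ell A h x ≤ max (9 * δ) (7 * δ / ell A h 1) / ell A h x :=
      div_le_div_of_nonneg_right (le_max_left _ _) (hpos x).le
    refine le_trans ?_ h4
    have e : 9 * δ / ell A h x = 3 * δ / ell A h x + 6 * δ / ell A h x := by ring
    rw [e]
    rw [abs_le] at h1 h3 ⊢
    constructor
    · linarith [h1.1, h3.1]
    · linarith [h1.2, h3.2]
  · -- (P2)
    intro x w
    have hev : ∀ᶠ j in (hyperfilter ℕ : Filter ℕ),
        |(1 / ell A h x) * F x j - (1 / ell A h (x * w)) * F (x * w) j - 0| ≤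
          4 + R w * (1 / ell A h x + 1 / ell A h (x * w)) := by
      refine Filter.Eventually.of_forall fun j => ?_
      have h1 := hR w H (dx A x) (dx A (x * w)) (hdx x) (hdx (x * w))
        (fun a b => (hK w x a b).1) (fun a b => (hK w x a b).2) h hh (z j) 1
      rw [be_one (hdx x), be_one (hdx (x * w)), sub_zero, sub_zero, abs_sub_comm] at h1
      have e : (1 / ell A h x) * F x j - (1 / ell A h (x * w)) * F (x * w) j - 0 =
          be (dx A x) h (z j) / tl (dx A x) h -
            be (dx A (x * w)) h (z j) / tl (dx A (x * w)) h := by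
        simp only [hF, ell]
        ring
      rw [e]
      exact h1
    have h3 := PFun_lim (hlim x) (hlim (x * w)) hev
    have e : P (x * w) - P x = (1 / ell A h x) * ul (F x) -
        (1 / ell A h (x * w)) * ul (F (x * w)) - 0 := by
      simp only [hP]
      ring
    rw [e]
    exact h3
  · -- (P4)
    intro b
    obtain ⟨D, hD⟩ := contraction hl hh b
    refine ⟨D, fun y u hu hy => ?_⟩
    have h0 := hD y u (by rw [wdist_one]; exact hu) hy
    have h1 := h14 1 (y * u)
    have h2 := h14 1 y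
    rw [mul_one] at h1 h2
    rw [dx_one (G := G) A] at h1 h2
    have h5 : |be (wdist A) h (y * u) / ell A h (1 : G) - be (wdist A) h y / ell A h (1 : G)| ≤
        δ / ell A h (1 : G) := by
      rw [← sub_div, abs_div, abs_of_pos (hpos 1)]
      exact div_le_div_of_nonneg_right h0 (hpos 1).le
    refine le_trans ?_ (le_max_right _ _)
    have e : 7 * δ / ell A h (1 : G) = 3 * δ / ell A h (1 : G) + 3 * δ / ell A h (1 : G) +
        δ / ell A h (1 : G) := by ring
    rw [e]
    rw [abs_le] at h1 h2 h5 ⊢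
    constructor
    · linarith [h1.1, h2.2, h5.1]
    · linarith [h1.2, h2.1, h5.2]

end Pool.Agent.MHN
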