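import Pool.Agent.MHN.Defs

/-!
Module PowA (difficulty 4): a power of an element of infinite order grows when squared.

Suppose not: `|k ^ (2 m)| < |k ^ m| + c` for all `m ≥ 1`, where `|g| = d 1 g` (we may assume
`0 ≤ c`). Let `c' = c + 2 δ`, `r = 1 + c' + 4 δ`, `I = card {a | d 1 a ≤ ⌈r⌉}` (finite by `hd.fin`).
As `k` has infinite order and balls are finite, `|k ^ i|` is unbounded; choose `n` with
`|k ^ n| > max_{i ≤ I} |k ^ i|`, and let `m ≤ n` maximise `|k ^ i|` over `0 ≤ i ≤ n`; `M = |k ^ m|`.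
Then `m > I`. (i) `|k ^ j| ≤ M` for `0 ≤ j ≤ m`. (ii) for `m ≤ j ≤ 2 m`, four points
`1, k ^ m, k ^ j, k ^ (2 m)` (left-invariance: `d (k ^ a) (k ^ b) = |k ^ (b - a)|` for `a ≤ b`,
`|g⁻¹| = |g|`):
`|k ^ j| + |k ^ m| = d(1, k^j) + d(k^m, k^(2m)) ≤ max (d(1,k^m) + d(k^j,k^(2m)),
 d(k^m,k^j) + d(1,k^(2m))) + 2 δ ≤ max (M + M, M + M + c) + 2 δ`, so `|k ^ j| ≤ M + c'`.
Let `p` be on a geodesic from `1` to `k ^ m` with `d 1 p = M / 2` (integer part), so
`d p (k ^ m) = M - M / 2 ≤ M / 2 + 1`. For `0 ≤ i ≤ m` put `q = k ^ i * p`. Four points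
`1, k^i, q, k^(i+m)`: `d(1,q) + M ≤ max (d(1,k^i) + d(q,k^(i+m)), d(k^i,q) + d(1,k^(i+m))) + 2 δ
 ≤ M + c' + ⌈M/2⌉ + 2 δ`, so `d 1 q ≤ ⌈M/2⌉ + c' + 2 δ`; in the same way
`d (k ^ m) q ≤ ⌈M/2⌉ + c' + 2 δ`. Four points `p, 1, q, k^m`:
`d(p,q) + M ≤ max (d(p,1) + d(q,k^m), d(1,q) + d(p,k^m)) + 2 δ ≤ 2 ⌈M/2⌉ + c' + 4 δ`, so
`d p q ≤ 1 + c' + 4 δ = r`. So the `m + 1` distinct elements `p⁻¹ * k ^ i * p` (`0 ≤ i ≤ m`) lie in
the ball of radius `r`, which has `I < m` elements: contradiction.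
-/

set_option autoImplicit false

namespace Pool.Agent.MHN

variable {H : Type*} [Group H] {δ : ℝ} {d : H → H → ℕ}

theorem PowA_delta (hd : LMet H δ d) : 0 ≤ δ := by
  have h := hd.hyp 1 1 1 1
  rw [hd.self] at h
  simp at h
  linarith

theorem PowA_pow (hd : LMet H δ d) (k : H) {a b : ℕ} (h : a ≤ b) : d (k ^ a) (k ^ b) = d 1 (k ^ (b - a)) := by
  have h1 := hd.left (k ^ a) 1 (k ^ (b - a))
  rw [mul_one, ← pow_add, Nat.add_sub_cancel' h] at h1
  exact h1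

theorem PowA_pow' (hd : LMet H δ d) (k : H) {a b : ℕ} (h : a ≤ b) : d (k ^ b) (k ^ a) = d 1 (k ^ (b - a)) := by
  rw [hd.symm, PowA_pow hd k h]

theorem PowA_unbdd (hd : LMet H δ d) {k : H} (hk : ¬ IsOfFinOrder k) (B : ℕ) : ∃ n : ℕ, B < d 1 (k ^ n) := by
  by_contra hcon
  push Not at hcon
  have hinj : Function.Injective fun n : ℕ => k ^ n := injective_pow_iff_not_isOfFinOrder.2 hk
  have h1 : (Set.range fun n : ℕ => k ^ n) ⊆ {a : H | d 1 a ≤ B} := by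
    rintro _ ⟨n, rfl⟩
    exact hcon n
  exact Set.infinite_range_of_injective hinj ((hd.fin B).subset h1)

theorem PowA_core (hd : LMet H δ d) {k : H} (hk : ¬ IsOfFinOrder k) {c : ℝ} (hc : 0 ≤ c) :
    ∃ m : ℕ, 0 < m ∧ (d 1 (k ^ m) : ℝ) + c ≤ d 1 (k ^ (2 * m)) := by
  by_contra hcon
  push Not at hcon
  have hδ := PowA_delta hd
  obtain ⟨R, hR⟩ : ∃ R : ℕ, R = ⌈1 + (c + 2 * δ) + 4 * δ⌉₊ := ⟨_, rfl⟩
  obtain ⟨I, hI⟩ : ∃ I : ℕ, I = (hd.fin R).toFinset.card := ⟨_, rfl⟩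
  obtain ⟨n, hn⟩ := PowA_unbdd hd hk ((Finset.range (I + 1)).sup fun i => d 1 (k ^ i))
  obtain ⟨m, hm, hmax⟩ := Finset.exists_max_image (Finset.range (n + 1)) (fun i => d 1 (k ^ i))
    ⟨0, Finset.mem_range.2 (Nat.succ_pos n)⟩
  have hmn : m ≤ n := Nat.lt_succ_iff.1 (Finset.mem_range.1 hm)
  have hmax' : ∀ i ≤ n, d 1 (k ^ i) ≤ d 1 (k ^ m) := fun i hi => hmax i (Finset.mem_range.2 (Nat.lt_succ_of_le hi))
  have hIm : I < m := by
    by_contra h
    push Not at h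
    have h1 : d 1 (k ^ m) ≤ (Finset.range (I + 1)).sup fun i => d 1 (k ^ i) :=
      Finset.le_sup (f := fun i => d 1 (k ^ i)) (Finset.mem_range.2 (Nat.lt_succ_of_le h))
    have h2 := hmax' n le_rfl
    omega
  obtain ⟨M, hM⟩ : ∃ M : ℕ, M = d 1 (k ^ m) := ⟨_, rfl⟩
  have h1 : ∀ j ≤ m, d 1 (k ^ j) ≤ M := fun j hj => by rw [hM]; exact hmax' j (hj.trans hmn)
  have h1' : ∀ j ≤ m, (d 1 (k ^ j) : ℝ) ≤ M := fun j hj => by exact_mod_cast h1 j hj
  have hM' : (d 1 (k ^ m) : ℝ) = M := by rw [hM]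
  have h2 : ∀ j ≤ 2 * m, (d 1 (k ^ j) : ℝ) ≤ M + (c + 2 * δ) := by
    intro j hj
    rcases le_total j m with hjm | hjm
    · linarith [h1' j hjm]
    · have h3 := hd.hyp 1 (k ^ m) (k ^ j) (k ^ (2 * m))
      rw [PowA_pow hd k (show m ≤ 2 * m by omega), PowA_pow hd k hj, PowA_pow hd k hjm] at h3
      have e1 : 2 * m - m = m := by omega
      rw [e1, hM'] at h3
      have h4 := h1' (2 * m - j) (by omega)
      have h5 := h1' (j - m) (by omega)
      have h6 := hcon m (by omega)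
      rw [hM'] at h6
      have h7 : max ((M : ℝ) + d 1 (k ^ (2 * m - j))) ((d 1 (k ^ (j - m)) : ℝ) + d 1 (k ^ (2 * m))) ≤ M + M + c := by
        apply max_le <;> linarith
      linarith
  obtain ⟨g, hg0, hgM, hgd⟩ := hd.geod 1 (k ^ m)
  rw [← hM] at hgM hgd
  obtain ⟨p, hp⟩ : ∃ p, p = g (M / 2) := ⟨_, rfl⟩
  have hMdiv : M / 2 ≤ M := Nat.div_le_self _ _
  have hp1 : d 1 p = M / 2 := by
    have := hgd 0 (M / 2) (Nat.zero_le _) hMdiv
    rw [hg0, ← hp, Nat.sub_zero] at this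
    exact this
  have hp2 : d p (k ^ m) = M - M / 2 := by
    have := hgd (M / 2) M hMdiv le_rfl
    rw [hgM, ← hp] at this
    exact this
  obtain ⟨a, ha⟩ : ∃ a : ℕ, a = M / 2 := ⟨_, rfl⟩
  obtain ⟨b, hb⟩ : ∃ b : ℕ, b = M - M / 2 := ⟨_, rfl⟩
  rw [← ha] at hp1
  rw [← hb] at hp2
  have hab : (a : ℝ) + b = M := by
    have : a + b = M := by omega
    exact_mod_cast this
  have hab1 : (a : ℝ) ≤ b := by
    have : a ≤ b := by omega
    exact_mod_cast this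
  have hab2 : (b : ℝ) ≤ a + 1 := by
    have : b ≤ a + 1 := by omega
    exact_mod_cast this
  have hball : ∀ i ≤ m, p⁻¹ * k ^ i * p ∈ (hd.fin R).toFinset := by
    intro i hi
    have q1 : d (k ^ i) (k ^ i * p) = a := by
      have := hd.left (k ^ i) 1 p
      rw [mul_one] at this
      rw [this, hp1]
    have q2 : d (k ^ i * p) (k ^ (i + m)) = b := by
      have := hd.left (k ^ i) p (k ^ m)
      rw [← pow_add] at this
      rw [this, hp2]
    have q3 : (d 1 (k ^ i * p) : ℝ) ≤ b + (c + 2 * δ) + 2 * δ := by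
      have h3 := hd.hyp 1 (k ^ i) (k ^ i * p) (k ^ (i + m))
      rw [q1, q2, PowA_pow hd k (show i ≤ i + m by omega)] at h3
      have e1 : i + m - i = m := by omega
      rw [e1, hM'] at h3
      have h4 := h1' i hi
      have h5 := h2 (i + m) (by omega)
      have h7 : max ((d 1 (k ^ i) : ℝ) + b) ((a : ℝ) + d 1 (k ^ (i + m))) ≤ M + b + (c + 2 * δ) := by
        apply max_le <;> linarith
      linarith
    have q4 : (d (k ^ m) (k ^ i * p) : ℝ) ≤ b + 2 * δ := by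
      have h3 := hd.hyp (k ^ m) (k ^ i) (k ^ i * p) (k ^ (i + m))
      rw [q1, q2, PowA_pow hd k (show i ≤ i + m by omega), PowA_pow' hd k hi,
        PowA_pow hd k (show m ≤ i + m by omega)] at h3
      have e1 : i + m - i = m := by omega
      have e2 : i + m - m = i := by omega
      rw [e1, e2, hM'] at h3
      have h4 := h1' i hi
      have h5 := h1' (m - i) (by omega)
      have h7 : max ((d 1 (k ^ (m - i)) : ℝ) + b) ((a : ℝ) + d 1 (k ^ i)) ≤ M + b := by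
        apply max_le <;> linarith
      linarith
    have q5 : (d p (k ^ i * p) : ℝ) ≤ 1 + (c + 2 * δ) + 4 * δ := by
      have h3 := hd.hyp p 1 (k ^ i * p) (k ^ m)
      rw [hd.symm p 1, hp1, hp2, hM', hd.symm (k ^ i * p) (k ^ m)] at h3
      have h7 : max ((a : ℝ) + d (k ^ m) (k ^ i * p)) ((d 1 (k ^ i * p) : ℝ) + b) ≤ b + b + (c + 2 * δ) + 2 * δ := by
        apply max_le <;> linarith
      linarith
    have q6 : d 1 (p⁻¹ * k ^ i * p) = d p (k ^ i * p) := by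
      have := hd.left p 1 (p⁻¹ * k ^ i * p)
      rw [mul_one] at this
      rw [← this]
      congr 1
      group
    rw [Set.Finite.mem_toFinset]
    change d 1 (p⁻¹ * k ^ i * p) ≤ R
    rw [q6, hR]
    have h8 : (d p (k ^ i * p) : ℝ) ≤ (⌈1 + (c + 2 * δ) + 4 * δ⌉₊ : ℝ) := q5.trans (Nat.le_ceil _)
    exact_mod_cast h8
  have hcard : (Finset.range (m + 1)).card ≤ (hd.fin R).toFinset.card := by
    apply Finset.card_le_card_of_injOn (fun i => p⁻¹ * k ^ i * p)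
    · intro i hi
      exact hball i (Nat.lt_succ_iff.1 (Finset.mem_range.1 hi))
    · intro i _ j _ hij
      have h9 : k ^ i = k ^ j := mul_left_cancel (mul_right_cancel hij)
      exact (injective_pow_iff_not_isOfFinOrder.2 hk) h9
  rw [Finset.card_range, ← hI] at hcard
  omega

theorem exists_growing_power (hd : LMet H δ d) {k : H} (hk : ¬ IsOfFinOrder k) (c : ℝ) :
    ∃ m : ℕ, 0 < m ∧ (d 1 (k ^ m) : ℝ) + c ≤ d 1 (k ^ (2 * m)) := by
  obtain ⟨m, hm, h⟩ := PowA_core hd hk (le_max_right c 0)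
  exact ⟨m, hm, by linarith [le_max_left c 0]⟩

end Pool.Agent.MHN
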