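import Pool.Agent.MHN.Defs

/-!
Module PowB (difficulty 3): powers of a growing element.

`|x| = d 1 x`; `d (g^i) (g^j) = |g^(j-i)|` for `i ≤ j`. Claim 1: `|g^(n+1)| ≥ |g^n| + a` for all
`n`. `n = 0`: `|g| ≥ |g²| - |g| ≥ 2 δ + a`. Step (`n ≥ 1`): four points `1, g^(n-1), g^n, g^(n+1)`:
`d(1,g^n) + d(g^(n-1),g^(n+1)) ≤ max (d(1,g^(n-1)) + d(g^n,g^(n+1)),
  d(g^(n-1),g^n) + d(1,g^(n+1))) + 2 δ`; the left side is `|g^n| + |g²| ≥ |g^n| + |g| + 2 δ + a`; the
first option is `≤ |g^n| - a + |g| + 2 δ`, which is smaller (as `a > 0`); so the second holds: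
`|g^(n+1)| ≥ |g^n| + |g²| - |g| - 2 δ ≥ |g^n| + a`.
Claim 2: for `0 < j < n`, `|g^j| + |g^(n-j)| - |g^n| ≤ |g| - a + 2 δ`: with Gromov products at
`x = g^j`: `(1 | g^(j+1)) = ½(|g^j| + |g| - |g^(j+1)|) ≤ ½(|g| - a)`,
`(g^n | g^(j+1)) = ½(|g^(n-j)| + |g| - |g^(n-j-1)|) ≥ ½(|g| + a)`, and
`(1 | g^(j+1)) ≥ min ((1 | g^n), (g^n | g^(j+1))) - δ`. If the minimum were the second one,
`½(|g| - a) ≥ ½(|g| + a) - δ`, i.e. `a ≤ δ`, excluded. So `(1 | g^n)_x ≤ ½(|g| - a) + δ`.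
(`0 ≤ δ` by the four-point condition with equal points; the cases `i = 0` or `j = 0` of the second
statement need `|g| - a + 2 δ ≥ 0`.)
-/

set_option autoImplicit false

namespace Pool.Agent.MHN

variable {H : Type*} [Group H] {δ : ℝ} {d : H → H → ℕ}

theorem growing_element (hd : LMet H δ d) {g : H} {a : ℝ} (ha : δ < a)
    (hg : (d 1 g : ℝ) + 2 * δ + a ≤ d 1 (g ^ 2)) :
    (∀ n : ℕ, a * n ≤ d 1 (g ^ n)) ∧
    ∀ i j : ℕ, (d 1 (g ^ i) : ℝ) + d 1 (g ^ j) - ((d 1 g : ℝ) - a + 2 * δ) ≤ d 1 (g ^ (i + j)) := by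
  have hδ : 0 ≤ δ := by
    have h := hd.hyp 1 1 1 1
    rw [hd.self] at h
    simp only [Nat.cast_zero, add_zero, max_self, zero_add] at h
    linarith
  have hdist : ∀ i j : ℕ, d (g ^ i) (g ^ (i + j)) = d 1 (g ^ j) := by
    intro i j
    have h := hd.left (g ^ i) 1 (g ^ j)
    rwa [mul_one, ← pow_add] at h
  have h0 : (d 1 (g ^ 0) : ℝ) = 0 := by
    rw [pow_zero, hd.self, Nat.cast_zero]
  have h2 : (d 1 (g ^ 2) : ℝ) ≤ d 1 g + d 1 g := by
    have h := hd.tri 1 g (g ^ 2)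
    have h' := hdist 1 1
    rw [pow_one] at h'
    rw [show (1 + 1 : ℕ) = 2 from rfl] at h'
    rw [h'] at h
    exact_mod_cast h
  have hg1 : 2 * δ + a ≤ d 1 g := by linarith
  have hN : ∀ n : ℕ, (d 1 (g ^ n) : ℝ) + a ≤ d 1 (g ^ (n + 1)) := by
    intro n
    induction n with
    | zero =>
      rw [h0, zero_add, zero_add, pow_one]
      linarith
    | succ n ih =>
      have h := hd.hyp 1 (g ^ n) (g ^ (n + 1)) (g ^ (n + 1 + 1))
      rw [hdist n 1, show n + 1 + 1 = n + 2 from rfl, hdist n 2, hdist (n + 1) 1, pow_one] at h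
      rcases le_total ((d 1 (g ^ n) : ℝ) + d 1 g) ((d 1 g : ℝ) + d 1 (g ^ (n + 2))) with h3 | h3
      · rw [max_eq_right h3] at h
        show (d 1 (g ^ (n + 1)) : ℝ) + a ≤ d 1 (g ^ (n + 2))
        linarith
      · rw [max_eq_left h3] at h
        exfalso
        linarith
  refine ⟨?_, ?_⟩
  · intro n
    induction n with
    | zero => simp
    | succ n ih =>
      have h := hN n
      push_cast
      linarith
  · intro i j
    rcases Nat.eq_zero_or_pos j with rfl | hj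
    · rw [h0]
      simp only [add_zero]
      linarith
    obtain ⟨j, rfl⟩ : ∃ k, j = k + 1 := ⟨j - 1, by omega⟩
    have h := hd.hyp 1 (g ^ i) (g ^ (i + 1)) (g ^ (i + (j + 1)))
    rw [hdist i 1, hdist i (j + 1), show i + (j + 1) = (i + 1) + j by omega, hdist (i + 1) j, pow_one] at h
    rw [show i + (j + 1) = (i + 1) + j by omega]
    have h4 := hN i
    have h5 := hN j
    rcases le_total ((d 1 (g ^ i) : ℝ) + d 1 (g ^ j)) ((d 1 g : ℝ) + d 1 (g ^ (i + 1 + j))) with h3 | h3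
    · rw [max_eq_right h3] at h
      linarith
    · rw [max_eq_left h3] at h
      exfalso
      linarith

end Pool.Agent.MHN
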