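import Pool.Agent.MHN.PowA
import Pool.Agent.MHN.PowB

/-!
Module PowC (difficulty 2): linear growth and quasi-additivity of `|k ^ n|`.

Take `m` from `exists_growing_power` with `c = 2 δ + (δ + 1)`, `g = k ^ m`, `a = δ + 1`. Let
`A = max_{s < m} |k ^ s|`. For `i = m i' + s`, `| |k^i| - |g^i'| | ≤ A`. So
`|k^n| ≥ a (n / m) - A ≥ (a / m) n - a - A` and
`|k^(i+j)| ≥ |g^(i'+j')| - 2 A ≥ |g^i'| + |g^j'| - (|g| - a + 2 δ) - 2 A
  ≥ |k^i| + |k^j| - (|g| - a + 2 δ) - 4 A`.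
-/

set_option autoImplicit false

namespace Pool.Agent.MHN

variable {H : Type*} [Group H] {δ : ℝ} {d : H → H → ℕ}

private theorem PowC_delta (hd : LMet H δ d) : 0 ≤ δ := by
  have h := hd.hyp 1 1 1 1
  rw [hd.self] at h
  simp at h
  linarith

private theorem PowC_mul_le (hd : LMet H δ d) (x y : H) :
    (d 1 (x * y) : ℝ) ≤ d 1 x + d 1 y := by
  have h1 := hd.tri 1 x (x * y)
  have h2 := hd.left x 1 y
  rw [mul_one] at h2
  rw [h2] at h1
  exact_mod_cast h1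

private theorem PowC_le_mul (hd : LMet H δ d) (x y : H) :
    (d 1 x : ℝ) - d 1 y ≤ d 1 (x * y) := by
  have h1 := hd.tri 1 (x * y) x
  have h2 := hd.left x 1 y
  rw [mul_one] at h2
  rw [hd.symm (x * y) x, h2] at h1
  have h3 : (d 1 x : ℝ) ≤ d 1 (x * y) + d 1 y := by exact_mod_cast h1
  linarith

theorem pow_growth (hd : LMet H δ d) {k : H} (hk : ¬ IsOfFinOrder k) :
    ∃ ρ c : ℝ, 0 ≤ ρ ∧ 0 < c ∧ (∀ n : ℕ, c * n - ρ ≤ d 1 (k ^ n)) ∧
      ∀ i j : ℕ, (d 1 (k ^ i) : ℝ) + d 1 (k ^ j) - 2 * ρ ≤ d 1 (k ^ (i + j)) := by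
  have hδ := PowC_delta hd
  obtain ⟨m, hm, hm2⟩ := exists_growing_power hd hk (2 * δ + (δ + 1))
  have hg2 : (k ^ m) ^ 2 = k ^ (2 * m) := by rw [← pow_mul, mul_comm]
  obtain ⟨h1, h2⟩ := growing_element hd (g := k ^ m) (a := δ + 1) (by linarith)
    (by rw [hg2]; linarith)
  set A : ℝ := ∑ s ∈ Finset.range m, (d 1 (k ^ s) : ℝ) with hA
  have hA0 : 0 ≤ A := Finset.sum_nonneg fun s _ => Nat.cast_nonneg _
  have hAs : ∀ s < m, (d 1 (k ^ s) : ℝ) ≤ A := fun s hs =>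
    Finset.single_le_sum (f := fun s => (d 1 (k ^ s) : ℝ)) (fun i _ => Nat.cast_nonneg _)
      (Finset.mem_range.2 hs)
  have hdec : ∀ n : ℕ, k ^ n = (k ^ m) ^ (n / m) * k ^ (n % m) := by
    intro n
    rw [← pow_mul, ← pow_add, Nat.div_add_mod]
  have hlow : ∀ n : ℕ, (d 1 ((k ^ m) ^ (n / m)) : ℝ) - A ≤ d 1 (k ^ n) := by
    intro n
    have h3 := PowC_le_mul hd ((k ^ m) ^ (n / m)) (k ^ (n % m))
    rw [← hdec n] at h3
    have h4 := hAs (n % m) (Nat.mod_lt _ hm)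
    linarith
  have hup : ∀ n : ℕ, (d 1 (k ^ n) : ℝ) ≤ d 1 ((k ^ m) ^ (n / m)) + A := by
    intro n
    have h3 := PowC_mul_le hd ((k ^ m) ^ (n / m)) (k ^ (n % m))
    rw [← hdec n] at h3
    have h4 := hAs (n % m) (Nat.mod_lt _ hm)
    linarith
  have hm' : (0:ℝ) < m := by exact_mod_cast hm
  have hg0 : (0:ℝ) ≤ d 1 (k ^ m) := Nat.cast_nonneg _
  refine ⟨2 * A + (δ + 1) + d 1 (k ^ m) + 2 * δ, (δ + 1) / m, by positivity, by positivity,
    fun n => ?_, fun i j => ?_⟩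
  · have h3 := hlow n
    have h4 := h1 (n / m)
    have h5 : (n : ℝ) / m - 1 ≤ ((n / m : ℕ) : ℝ) := by
      have h6 : n < m * (n / m + 1) := by
        have := Nat.lt_mul_div_succ n hm
        simpa using this
      have h7 : (n : ℝ) < m * (((n / m : ℕ) : ℝ) + 1) := by exact_mod_cast h6
      have h8 : (n : ℝ) / m ≤ ((n / m : ℕ) : ℝ) + 1 := by
        rw [div_le_iff₀ hm']
        linarith
      linarith
    have h6 : (δ + 1) * ((n : ℝ) / m - 1) ≤ (δ + 1) * ((n / m : ℕ) : ℝ) :=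
      mul_le_mul_of_nonneg_left h5 (by linarith)
    have h7 : (δ + 1) / m * n = (δ + 1) * ((n : ℝ) / m) := by ring
    rw [h7]
    linarith
  · have h3 : k ^ (i + j) = (k ^ m) ^ (i / m + j / m) * (k ^ (i % m) * k ^ (j % m)) := by
      rw [← pow_mul, ← pow_add, ← pow_add]
      congr 1
      have := Nat.div_add_mod i m
      have := Nat.div_add_mod j m
      rw [mul_add]
      omega
    have h4 := PowC_le_mul hd ((k ^ m) ^ (i / m + j / m)) (k ^ (i % m) * k ^ (j % m))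
    rw [← h3] at h4
    have h5 := PowC_mul_le hd (k ^ (i % m)) (k ^ (j % m))
    have h6 := hAs (i % m) (Nat.mod_lt _ hm)
    have h7 := hAs (j % m) (Nat.mod_lt _ hm)
    have h8 := h2 (i / m) (j / m)
    have h9 := hup i
    have h10 := hup j
    linarith

end Pool.Agent.MHN
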