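import Mathlib

set_option autoImplicit false

namespace Pool.Agent.MHN

/-- The word length of `g` with respect to the finite set `S`: the least length of a product of
elements of `S` and inverses of elements of `S` that equals `g`. -/
noncomputable def wlen {G : Type*} [Group G] (S : Finset G) (g : G) : ℕ :=
  sInf {n | ∃ l : List G, l.length = n ∧ (∀ s ∈ l, s ∈ S ∨ s⁻¹ ∈ S) ∧ l.prod = g}

/-- The word metric: the distance of `a` and `b` in the Cayley graph `Cay(G, S)`. -/
noncomputable def wdist {G : Type*} [Group G] (S : Finset G) (a b : G) : ℕ :=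
  wlen S (a⁻¹ * b)

/-- `S` generates `G`. -/
def Gen {G : Type*} [Group G] (S : Finset G) : Prop :=
  Subgroup.closure (S : Set G) = ⊤

/-- `G` is word-hyperbolic: it has a finite generating set whose word metric satisfies the
four-point condition for some constant. -/
def IsHyperbolicGroup (G : Type*) [Group G] : Prop :=
  ∃ S : Finset G, Gen S ∧ ∃ δ : ℝ, ∀ x y z w : G,
    (wdist S x z : ℝ) + wdist S y w ≤
      max ((wdist S x y : ℝ) + wdist S z w) ((wdist S y z : ℝ) + wdist S x w) + 2 * δ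

/-- `c` is a `(K, C)`-quasi-geodesic on the interval `[0, T]` in the word metric of `S`. -/
def IsQuasiGeodesic {G : Type*} [Group G] (S : Finset G) (K C T : ℝ) (c : ℝ → G) : Prop :=
  ∀ s ∈ Set.Icc 0 T, ∀ t ∈ Set.Icc 0 T,
    |s - t| / K - C ≤ (wdist S (c s) (c t) : ℝ) ∧ (wdist S (c s) (c t) : ℝ) ≤ K * |s - t| + C

/-- `g` is a Morse element of `G` with respect to the generating set `S`: the map `n ↦ g ^ n` from
`ℤ` to `Cay(G, S)` is a quasi-isometric embedding (so `g` has infinite order), and for all `K ≥ 1`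
and `C ≥ 0` there is a bound `M` such that every `(K, C)`-quasi-geodesic with both endpoints in
`{g ^ n : n ∈ ℤ}` stays in the `M`-neighbourhood of that set. -/
def IsMorse {G : Type*} [Group G] (S : Finset G) (g : G) : Prop :=
  (∃ K C : ℝ, 1 ≤ K ∧ 0 ≤ C ∧ ∀ m n : ℤ,
    |(m : ℝ) - n| / K - C ≤ (wdist S (g ^ m) (g ^ n) : ℝ) ∧
      (wdist S (g ^ m) (g ^ n) : ℝ) ≤ K * |(m : ℝ) - n| + C) ∧
  ∀ K C : ℝ, 1 ≤ K → 0 ≤ C → ∃ M : ℝ, ∀ (T : ℝ) (c : ℝ → G), 0 ≤ T →
    IsQuasiGeodesic S K C T c → (∃ m : ℤ, c 0 = g ^ m) → (∃ n : ℤ, c T = g ^ n) →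
      ∀ t ∈ Set.Icc 0 T, ∃ i : ℤ, (wdist S (c t) (g ^ i) : ℝ) ≤ M

end Pool.Agent.MHN
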