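import Pool.Agent.MHN.Fermi
import Pool.Agent.MHN.Bus

/-!
Module TL (difficulty 4): translation length and equivariance of the Fermi coordinates.

* `tl_tendsto`: `n ↦ d 1 (h ^ n)` is subadditive (`Subadditive.tendsto_lim`), `limUnder` is that
  limit. `tl_pos`: `pow_growth`.
* Let `bm u = ul (fun N => d u (h^N)⁻¹ - d 1 (h^N)⁻¹)`, `bp u = ul (fun N => d u (h^N) - d 1 (h^N))`
  (bounded by `d 1 u`). Then `be = (bm - bp) / 2` and `al u - al 1 = (bm u + bp u) / 2`.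
  By `bus_stable` with `a N = (h^N)⁻¹`, `a' N = h^(-n) (h^N)⁻¹` (all commute) and points `u`, `1`:
  `|bm (h^n u) - bm u - bm (h^n)| ≤ 2 δ` since
  `d (h^n u) (h^N)⁻¹ = d u (h^(-n) (h^N)⁻¹)`; same for `bp`.
* `s n = bm (h^n)`, `n : ℤ`, satisfies `|s (n + m) - s n - s m| ≤ 2 δ` (take `u = h^m`), and
  `bp (h^n) = s (-n)` (terms are equal by left-invariance and symmetry:
  `d (h^n) (h^N) = d (h^(-n)) ((h^N)⁻¹)`). For `n ≥ 0`:
  `d 1 (h^n) - 2 ρ ≤ s n ≤ d 1 (h^n)` by `pow_growth` (`d (h^n) (h^N)⁻¹ = |h^(N+n)|`).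
* so `s n / n → tl`, and `|s (2^j n) - 2^j s n| ≤ 2^j 2 δ` gives `|s n - n tl| ≤ 2 δ` for `n ≥ 1`
  (or use subadditivity of `s n + 2δ` and `- s n + 2δ`), `s 0 = 0`, and for negative `n`,
  `|s n - n tl| ≤ |s n + s (-n)| + |s (-n) - (-n) tl| ≤ 4 δ`. Hence
  `bm (h^n u) - bm u = n tl + O(6 δ)`, `bp (h^n u) - bp u = - n tl + O(6 δ)`, which gives
  `be_shift` and `al_shift`.
* `exists_min`: `u` from `axis_point` (for `v = 1`), `fermi_upper` for `u`, `h * u`: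
  `d u (h u) ≤ 0 + 6 δ + (tl + 6 δ) + 2 δ`.
-/

set_option autoImplicit false

open Filter Topology

namespace Pool.Agent.MHN

variable {H : Type*} [Group H] {δ : ℝ} {d : H → H → ℕ} {h : H}

private theorem TL_inv (hd : LMet H δ d) (x : H) : d 1 x⁻¹ = d 1 x := by
  have h1 := hd.left x 1 x⁻¹
  rw [mul_one, mul_inv_cancel] at h1
  rw [← h1, hd.symm]

private theorem TL_sub (hd : LMet H δ d) (h : H) :
    Subadditive (fun n : ℕ => (d 1 (h ^ n) : ℝ)) := by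
  intro m n
  have h1 := hd.tri 1 (h ^ m) (h ^ (m + n))
  have h2 := hd.left (h ^ m) 1 (h ^ n)
  rw [mul_one, ← pow_add] at h2
  rw [h2] at h1
  change (d 1 (h ^ (m + n)) : ℝ) ≤ d 1 (h ^ m) + d 1 (h ^ n)
  exact_mod_cast h1

theorem tl_tendsto (hd : LMet H δ d) (h : H) :
    Tendsto (fun n : ℕ => (d 1 (h ^ n) : ℝ) / n) atTop (𝓝 (tl d h)) := by
  have h1 := (TL_sub hd h).tendsto_lim ⟨0, by
    rintro _ ⟨n, rfl⟩
    positivity⟩
  have h2 : tl d h = (TL_sub hd h).lim := h1.limUnder_eq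
  rw [h2]
  exact h1

theorem tl_pos (hd : LMet H δ d) (hh : ¬ IsOfFinOrder h) : 0 < tl d h := by
  obtain ⟨ρ, c, hρ, hc, h1, -⟩ := pow_growth hd hh
  have h2 : Tendsto (fun n : ℕ => c - ρ / (n : ℝ)) atTop (𝓝 (c - 0)) :=
    tendsto_const_nhds.sub (tendsto_const_nhds.div_atTop tendsto_natCast_atTop_atTop)
  have h3 : c - 0 ≤ tl d h := by
    refine le_of_tendsto_of_tendsto h2 (tl_tendsto hd h) ?_
    filter_upwards [eventually_gt_atTop 0] with n hn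
    have hn' : (0 : ℝ) < n := by exact_mod_cast hn
    rw [le_div_iff₀ hn', sub_mul, div_mul_cancel₀ _ hn'.ne']
    exact h1 n
  linarith

/-- horofunction of `g` -/
private noncomputable def TL_b (d : H → H → ℕ) (g u : H) : ℝ :=
  ul fun N => (d u (g ^ N) : ℝ) - d 1 (g ^ N)

private theorem TL_bound (hd : LMet H δ d) (g u : H) (N : ℕ) :
    |(d u (g ^ N) : ℝ) - d 1 (g ^ N)| ≤ d 1 u := by
  have h1 : (d u (g ^ N) : ℝ) ≤ d u 1 + d 1 (g ^ N) := by exact_mod_cast hd.tri u 1 (g ^ N)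
  have h2 : (d 1 (g ^ N) : ℝ) ≤ d 1 u + d u (g ^ N) := by exact_mod_cast hd.tri 1 u (g ^ N)
  have h3 : (d u 1 : ℝ) = d 1 u := by rw [hd.symm]
  rw [abs_le]
  constructor <;> linarith

private theorem TL_bt (hd : LMet H δ d) (g u : H) :
    Tendsto (fun N : ℕ => (d u (g ^ N) : ℝ) - d 1 (g ^ N)) (hyperfilter ℕ : Filter ℕ)
      (𝓝 (TL_b d g u)) := ul_tendsto (TL_bound hd g u)

private theorem TL_invpow (g : H) (N : ℕ) : (g⁻¹) ^ N = (g ^ N)⁻¹ := inv_pow g N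

private theorem TL_be (hd : LMet H δ d) (u : H) :
    be d h u = (TL_b d h⁻¹ u - TL_b d h u) / 2 := by
  refine tendsto_nhds_unique (be_tendsto hd u) ?_
  refine (((TL_bt hd h⁻¹ u).sub (TL_bt hd h u)).div_const 2).congr ?_
  intro N
  rw [inv_pow, TL_inv hd]
  ring

private theorem TL_al (hd : LMet H δ d) (hh : ¬ IsOfFinOrder h) (u : H) :
    al d h u - al d h 1 = (TL_b d h⁻¹ u + TL_b d h u) / 2 := by
  refine tendsto_nhds_unique ((al_tendsto hd hh u).sub (al_tendsto hd hh 1)) ?_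
  refine (((TL_bt hd h⁻¹ u).add (TL_bt hd h u)).div_const 2).congr ?_
  intro N
  rw [inv_pow, gp, gp]
  ring

private theorem TL_quasi (hd : LMet H δ d) {g x : H} (hg : ¬ IsOfFinOrder g) (hx : Commute g x)
    (u : H) : |TL_b d g (x * u) - TL_b d g u - TL_b d g x| ≤ 2 * δ := by
  have h1 := bus_stable hd (a := fun N => g ^ N) (a' := fun N => x⁻¹ * g ^ N) (K := d 1 x⁻¹) (by
    intro N
    have h2 : x⁻¹ * g ^ N = g ^ N * x⁻¹ := ((hx.pow_left N).inv_right.eq).symm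
    have h3 := hd.left (g ^ N) 1 x⁻¹
    rw [mul_one] at h3
    rw [h2, h3]) (fun B => (pow_large hd hg B).mono fun N hN => hN.1) u 1
  have h4 : ∀ N : ℕ, d u (x⁻¹ * g ^ N) = d (x * u) (g ^ N) := by
    intro N
    have h5 := hd.left x u (x⁻¹ * g ^ N)
    rw [mul_inv_cancel_left] at h5
    exact h5.symm
  have h4' : ∀ N : ℕ, d 1 (x⁻¹ * g ^ N) = d x (g ^ N) := by
    intro N
    have h5 := hd.left x 1 (x⁻¹ * g ^ N)
    rw [mul_inv_cancel_left, mul_one] at h5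
    exact h5.symm
  have h6 := (((TL_bt hd g (x * u)).sub (TL_bt hd g u)).sub (TL_bt hd g x)).abs
  refine le_of_tendsto h6 ?_
  filter_upwards [h1] with N hN
  rw [h4, h4'] at hN
  have h7 : (((d (x * u) (g ^ N) : ℝ) - d 1 (g ^ N)) - ((d u (g ^ N) : ℝ) - d 1 (g ^ N)) -
      ((d x (g ^ N) : ℝ) - d 1 (g ^ N))) =
      -(((d u (g ^ N) : ℝ) - d 1 (g ^ N)) - ((d (x * u) (g ^ N) : ℝ) - d x (g ^ N))) := by ring
  rw [h7, abs_neg]
  exact hN

private theorem TL_one (hd : LMet H δ d) (g : H) : TL_b d g 1 = 0 := by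
  refine tendsto_nhds_unique (TL_bt hd g 1) ?_
  refine tendsto_const_nhds.congr ?_
  intro N
  ring

private theorem TL_flip (hd : LMet H δ d) {g x : H} (hx : Commute g x) :
    TL_b d g x = TL_b d g⁻¹ x⁻¹ := by
  refine tendsto_nhds_unique (TL_bt hd g x) ?_
  refine (TL_bt hd g⁻¹ x⁻¹).congr ?_
  intro N
  have h1 : d x⁻¹ (g⁻¹ ^ N) = d x (g ^ N) := by
    have h2 := hd.left x x⁻¹ (g⁻¹ ^ N)
    have h3 := hd.left x⁻¹ x (g ^ N)
    rw [mul_inv_cancel] at h2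
    rw [inv_mul_cancel] at h3
    rw [← h2, ← h3, ← TL_inv hd (x⁻¹ * g ^ N), mul_inv_rev, inv_inv, inv_pow]
    congr 1
    exact ((hx.pow_left N).inv_left.eq).symm
  rw [h1, inv_pow, TL_inv hd]

/-- `s n` -/
private theorem TL_s_bounds (hd : LMet H δ d) (hh : ¬ IsOfFinOrder h) :
    ∃ ρ : ℝ, ∀ n : ℕ, (d 1 (h ^ n) : ℝ) - 2 * ρ ≤ TL_b d h⁻¹ (h ^ n) ∧
      TL_b d h⁻¹ (h ^ n) ≤ d 1 (h ^ n) := by
  obtain ⟨ρ, c, hρ, hc, -, h1⟩ := pow_growth hd hh
  refine ⟨ρ, fun n => ?_⟩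
  have h2 : ∀ N : ℕ, (d (h ^ n) (h⁻¹ ^ N) : ℝ) - d 1 (h⁻¹ ^ N) = (d 1 (h ^ (n + N)) : ℝ) - d 1 (h ^ N) := by
    intro N
    have h3 := hd.left (h ^ n)⁻¹ (h ^ n) (h⁻¹ ^ N)
    rw [inv_mul_cancel, inv_pow, ← mul_inv_rev, TL_inv hd, ← pow_add, add_comm N n] at h3
    rw [inv_pow, ← h3, TL_inv hd]
  have h4 := TL_bt hd h⁻¹ (h ^ n)
  constructor
  · refine ge_of_tendsto h4 (Eventually.of_forall fun N => ?_)
    rw [h2]
    have := h1 n N
    linarith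
  · refine le_of_tendsto h4 (Eventually.of_forall fun N => ?_)
    rw [h2]
    have := TL_sub hd h n N
    simp only at this
    linarith

private theorem TL_delta (hd : LMet H δ d) (hh : ¬ IsOfFinOrder h) : 0 ≤ δ := by
  have h1 := TL_quasi hd hh (Commute.refl h) 1
  have h2 := (abs_nonneg _).trans h1
  linarith

private theorem TL_comm (n : ℤ) : Commute h⁻¹ (h ^ n) := (Commute.refl h).inv_left.zpow_right n

private theorem TL_add (hd : LMet H δ d) (hh : ¬ IsOfFinOrder h) (n m : ℤ) :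
    |TL_b d h⁻¹ (h ^ (n + m)) - TL_b d h⁻¹ (h ^ n) - TL_b d h⁻¹ (h ^ m)| ≤ 2 * δ := by
  have hh' : ¬ IsOfFinOrder h⁻¹ := by rwa [isOfFinOrder_inv_iff]
  have h1 := TL_quasi hd hh' (TL_comm n) (h ^ m)
  rw [← zpow_add] at h1
  have h2 : TL_b d h⁻¹ (h ^ (n + m)) - TL_b d h⁻¹ (h ^ n) - TL_b d h⁻¹ (h ^ m) =
      TL_b d h⁻¹ (h ^ (n + m)) - TL_b d h⁻¹ (h ^ m) - TL_b d h⁻¹ (h ^ n) := by ring
  rw [h2]
  exact h1

private theorem TL_mul (hd : LMet H δ d) (hh : ¬ IsOfFinOrder h) (n k : ℕ) :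
    |TL_b d h⁻¹ (h ^ ((k + 1) * n)) - (k + 1) * TL_b d h⁻¹ (h ^ n)| ≤ k * (2 * δ) := by
  induction k with
  | zero => simp
  | succ k ih =>
    have h1 := TL_add hd hh (((k + 1) * n : ℕ) : ℤ) (n : ℤ)
    have h2 : (((k + 1) * n : ℕ) : ℤ) + (n : ℤ) = (((k + 1 + 1) * n : ℕ) : ℤ) := by
      push_cast
      ring
    rw [h2, zpow_natCast, zpow_natCast, zpow_natCast] at h1
    have h3 : TL_b d h⁻¹ (h ^ ((k + 1 + 1) * n)) - (((k + 1 : ℕ) : ℝ) + 1) * TL_b d h⁻¹ (h ^ n) =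
        (TL_b d h⁻¹ (h ^ ((k + 1 + 1) * n)) - TL_b d h⁻¹ (h ^ ((k + 1) * n)) - TL_b d h⁻¹ (h ^ n)) +
        (TL_b d h⁻¹ (h ^ ((k + 1) * n)) - (k + 1) * TL_b d h⁻¹ (h ^ n)) := by
      push_cast
      ring
    rw [h3]
    refine (abs_add_le _ _).trans ?_
    push_cast
    linarith

private theorem TL_s_nat (hd : LMet H δ d) (hh : ¬ IsOfFinOrder h) (n : ℕ) :
    |TL_b d h⁻¹ (h ^ n) - n * tl d h| ≤ 2 * δ := by
  have hδ := TL_delta hd hh
  rcases Nat.eq_zero_or_pos n with hn | hn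
  · subst hn
    rw [pow_zero, TL_one hd]
    simp only [Nat.cast_zero, zero_mul, sub_zero, abs_zero]
    linarith
  · have hn' : (0 : ℝ) < n := by exact_mod_cast hn
    obtain ⟨ρ, hρ⟩ := TL_s_bounds hd hh
    -- the subsequence
    have hsub : Tendsto (fun k : ℕ => (k + 1) * n) atTop atTop := by
      refine tendsto_atTop_mono (fun k => ?_) tendsto_id
      calc id k = k * 1 := by simp
        _ ≤ (k + 1) * n := Nat.mul_le_mul (Nat.le_succ k) hn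
    have h1 := (tl_tendsto hd h).comp hsub
    have h2 : Tendsto (fun k : ℕ => (n : ℝ) * ((d 1 (h ^ ((k + 1) * n)) : ℝ) / (((k + 1) * n : ℕ) : ℝ)))
        atTop (𝓝 (n * tl d h)) := h1.const_mul _
    have h3 : Tendsto (fun k : ℕ => (2 * |ρ|) / ((k : ℝ) + 1)) atTop (𝓝 0) :=
      tendsto_const_nhds.div_atTop (tendsto_atTop_add_const_right _ _ tendsto_natCast_atTop_atTop)
    have h4 : Tendsto (fun k : ℕ => TL_b d h⁻¹ (h ^ ((k + 1) * n)) / ((k : ℝ) + 1)) atTop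
        (𝓝 (n * tl d h)) := by
      have h5 : Tendsto (fun k : ℕ => (n : ℝ) * ((d 1 (h ^ ((k + 1) * n)) : ℝ) / (((k + 1) * n : ℕ) : ℝ)) -
          (2 * |ρ|) / ((k : ℝ) + 1)) atTop (𝓝 (n * tl d h - 0)) := h2.sub h3
      rw [sub_zero] at h5
      refine tendsto_of_tendsto_of_tendsto_of_le_of_le h5 h2 ?_ ?_
      · intro k
        have hk : (0 : ℝ) < (k : ℝ) + 1 := by positivity
        have h6 : (n : ℝ) * ((d 1 (h ^ ((k + 1) * n)) : ℝ) / (((k + 1) * n : ℕ) : ℝ)) =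
            (d 1 (h ^ ((k + 1) * n)) : ℝ) / ((k : ℝ) + 1) := by
          push_cast
          field_simp
        simp only
        rw [h6, ← sub_div]
        refine div_le_div_of_nonneg_right ?_ hk.le
        have := (hρ ((k + 1) * n)).1
        have := le_abs_self ρ
        linarith
      · intro k
        have hk : (0 : ℝ) < (k : ℝ) + 1 := by positivity
        have h6 : (n : ℝ) * ((d 1 (h ^ ((k + 1) * n)) : ℝ) / (((k + 1) * n : ℕ) : ℝ)) =
            (d 1 (h ^ ((k + 1) * n)) : ℝ) / ((k : ℝ) + 1) := by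
          push_cast
          field_simp
        simp only
        rw [h6]
        refine div_le_div_of_nonneg_right ?_ hk.le
        exact (hρ ((k + 1) * n)).2
    have h7 : Tendsto (fun k : ℕ => |TL_b d h⁻¹ (h ^ n) - TL_b d h⁻¹ (h ^ ((k + 1) * n)) / ((k : ℝ) + 1)|)
        atTop (𝓝 |TL_b d h⁻¹ (h ^ n) - n * tl d h|) := (tendsto_const_nhds.sub h4).abs
    refine le_of_tendsto h7 (Eventually.of_forall fun k => ?_)
    have hk : (0 : ℝ) < (k : ℝ) + 1 := by positivity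
    have h8 := TL_mul hd hh n k
    have h9 : TL_b d h⁻¹ (h ^ n) - TL_b d h⁻¹ (h ^ ((k + 1) * n)) / ((k : ℝ) + 1) =
        -(TL_b d h⁻¹ (h ^ ((k + 1) * n)) - (k + 1) * TL_b d h⁻¹ (h ^ n)) / ((k : ℝ) + 1) := by
      field_simp
      ring
    rw [h9, abs_div, abs_neg, abs_of_pos hk, div_le_iff₀ hk]
    refine h8.trans ?_
    nlinarith

private theorem TL_s (hd : LMet H δ d) (hh : ¬ IsOfFinOrder h) (n : ℤ) :
    |TL_b d h⁻¹ (h ^ n) - n * tl d h| ≤ 4 * δ := by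
  have hδ := TL_delta hd hh
  obtain ⟨k, rfl | rfl⟩ := n.eq_nat_or_neg
  · have h1 := TL_s_nat hd hh k
    rw [zpow_natCast]
    push_cast
    linarith
  · have h1 := TL_s_nat hd hh k
    have h2 := TL_add hd hh (-(k : ℤ)) (k : ℤ)
    rw [neg_add_cancel, zpow_zero, TL_one hd, zpow_natCast] at h2
    have h3 : TL_b d h⁻¹ (h ^ (-(k : ℤ))) - ((-(k : ℤ) : ℤ) : ℝ) * tl d h =
        -(0 - TL_b d h⁻¹ (h ^ (-(k : ℤ))) - TL_b d h⁻¹ (h ^ k)) - (TL_b d h⁻¹ (h ^ k) - k * tl d h) := by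
      push_cast
      ring
    rw [h3]
    refine (abs_sub _ _).trans ?_
    rw [abs_neg]
    linarith

private theorem TL_m (hd : LMet H δ d) (hh : ¬ IsOfFinOrder h) (u : H) (n : ℤ) :
    |TL_b d h⁻¹ (h ^ n * u) - TL_b d h⁻¹ u - n * tl d h| ≤ 6 * δ := by
  have hh' : ¬ IsOfFinOrder h⁻¹ := by rwa [isOfFinOrder_inv_iff]
  have h1 := TL_quasi hd hh' (TL_comm n) u
  have h2 := TL_s hd hh n
  have h3 : TL_b d h⁻¹ (h ^ n * u) - TL_b d h⁻¹ u - n * tl d h =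
      (TL_b d h⁻¹ (h ^ n * u) - TL_b d h⁻¹ u - TL_b d h⁻¹ (h ^ n)) + (TL_b d h⁻¹ (h ^ n) - n * tl d h) := by
    ring
  rw [h3]
  refine (abs_add_le _ _).trans ?_
  linarith

private theorem TL_p (hd : LMet H δ d) (hh : ¬ IsOfFinOrder h) (u : H) (n : ℤ) :
    |TL_b d h (h ^ n * u) - TL_b d h u + n * tl d h| ≤ 6 * δ := by
  have hc : Commute h (h ^ n) := (Commute.refl h).zpow_right n
  have h1 := TL_quasi hd hh hc u
  have h2 := TL_s hd hh (-n)
  rw [TL_flip hd hc, ← zpow_neg] at h1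
  have h3 : TL_b d h (h ^ n * u) - TL_b d h u + n * tl d h =
      (TL_b d h (h ^ n * u) - TL_b d h u - TL_b d h⁻¹ (h ^ (-n))) +
        (TL_b d h⁻¹ (h ^ (-n)) - ((-n : ℤ) : ℝ) * tl d h) := by
    push_cast
    ring
  rw [h3]
  refine (abs_add_le _ _).trans ?_
  linarith

theorem be_shift (hd : LMet H δ d) (hh : ¬ IsOfFinOrder h) (u : H) (n : ℤ) :
    |be d h (h ^ n * u) - be d h u - n * tl d h| ≤ 6 * δ := by
  have h1 := abs_le.1 (TL_m hd hh u n)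
  have h2 := abs_le.1 (TL_p hd hh u n)
  rw [TL_be hd, TL_be hd, abs_le]
  constructor <;> linarith [h1.1, h1.2, h2.1, h2.2]

theorem al_shift (hd : LMet H δ d) (hh : ¬ IsOfFinOrder h) (u : H) (n : ℤ) :
    |al d h (h ^ n * u) - al d h u| ≤ 6 * δ := by
  have h1 := abs_le.1 (TL_m hd hh u n)
  have h2 := abs_le.1 (TL_p hd hh u n)
  have h3 := TL_al hd hh u
  have h4 := TL_al hd hh (h ^ n * u)
  rw [abs_le]
  constructor <;> linarith [h1.1, h1.2, h2.1, h2.2]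

theorem exists_min (hd : LMet H δ d) (hh : ¬ IsOfFinOrder h) :
    ∃ u, (d u (h * u) : ℝ) ≤ tl d h + 14 * δ := by
  obtain ⟨u, hu1, -⟩ := axis_point hd hh 1
  refine ⟨u, ?_⟩
  have h1 := fermi_upper hd hh u (h * u)
  have h2 := abs_le.1 (al_shift hd hh u 1)
  have h3 := abs_le.1 (be_shift hd hh u 1)
  rw [zpow_one] at h2 h3
  have hpos := tl_pos hd hh
  have hδ := TL_delta hd hh
  rw [hu1] at h1 h2
  have h4 : |be d h u - be d h (h * u)| ≤ tl d h + 6 * δ := by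
    rw [abs_le]
    push_cast at h3
    constructor <;> linarith [h3.1, h3.2]
  linarith [h2.2]

end Pool.Agent.MHN
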