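import Pool.Agent.MHN.ML
import Pool.Agent.MHN.TL

/-!
Module TransA (difficulty 3): Fermi coordinates under bi-Lipschitz change of metric, first part.

* `trans_al`: if `al d h u ≤ r` then for hyperfilter-most `N` the Gromov product
  `gp d (h^N) (h^N)⁻¹ u` is `≤ r + 1`, so the one for `d'` is `≤ r'` (`morse_lemma` for `r + 1`);
  take the limit.
* `trans_axis`: let `u, a` be given with `al d h a = 0`, `|be d h a - be d h u| ≤ 1/2`. Then
  `gp d u (h^N) a` tends (hyperfilter) to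
  `½ (d u a + (al a - be a) - (al u - be u)) ≤ ½ (d u a - al u + 1/2) ≤ 1/2 + δ` by `fermi_upper`
  (note `d a (h^N) - d u (h^N) = (gp.. a - be_N a) - (gp.. u - be_N u)` for every `N`, where
  `gp.. u = gp d (h^N) (h^N)⁻¹ u`, `be_N u = (d u (h^N)⁻¹ - d u (h^N))/2`), and the same for
  `(h^N)⁻¹` with `al + be`. So for most `N` both Gromov products are `≤ 1 + δ`, and
  `gp d' u (h^N) a, gp d' u (h^N)⁻¹ a ≤ ρ` by `morse_lemma` for `1 + δ`. Hence
  `d' a (h^N) - d' u (h^N) ∈ [- d' u a, 2 ρ - d' u a]`, the same for `(h^N)⁻¹`; half the difference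
  of two such numbers is at most `ρ` in absolute value, and its limit is `be d' h a - be d' h u`.
-/

set_option autoImplicit false

open Filter Topology

namespace Pool.Agent.MHN

universe u

theorem trans_al (δ r : ℝ) (K : ℕ) : ∃ r' : ℝ, 0 ≤ r' ∧ ∀ (H : Type u) [Group H]
    (d d' : H → H → ℕ), LMet H δ d → LMet H δ d' → (∀ x y, d' x y ≤ K * d x y) →
    (∀ x y, d x y ≤ K * d' x y) → ∀ h : H, ¬ IsOfFinOrder h → ∀ u,
    al d h u ≤ r → al d' h u ≤ r' := by
  obtain ⟨r', hr', hml⟩ := morse_lemma.{u} δ (r + 1) K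
  refine ⟨r', hr', fun H _ d d' hd hd' h1 h2 h hh u hu => ?_⟩
  have hev : ∀ᶠ N in (hyperfilter ℕ : Filter ℕ), gp d (h ^ N) ((h ^ N)⁻¹) u < r + 1 :=
    (al_tendsto hd hh u).eventually_lt_const (by linarith)
  refine le_of_tendsto (al_tendsto hd' hh u) ?_
  filter_upwards [hev] with N hN
  exact hml H d d' hd.toGMet hd'.toGMet hd'.hyp h1 h2 _ _ _ hN.le

theorem trans_axis (δ : ℝ) (K : ℕ) : ∃ ρ : ℝ, 0 ≤ ρ ∧ ∀ (H : Type u) [Group H]
    (d d' : H → H → ℕ), LMet H δ d → LMet H δ d' → (∀ x y, d' x y ≤ K * d x y) →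
    (∀ x y, d x y ≤ K * d' x y) → ∀ h : H, ¬ IsOfFinOrder h → ∀ u a,
    al d h a = 0 → |be d h a - be d h u| ≤ 1 / 2 →
    |be d' h a - be d' h u| ≤ ρ := by
  obtain ⟨ρ, hρ, hml⟩ := morse_lemma.{u} δ (1 + δ) K
  refine ⟨ρ, hρ, fun H _ d d' hd hd' h1 h2 h hh u a ha hb => ?_⟩
  have hfu := fermi_upper hd hh u a
  rw [ha] at hfu
  have hab := abs_le.1 hb
  have hbc : |be d h u - be d h a| ≤ 1 / 2 := by rw [abs_sub_comm]; exact hb
  -- the limits of the two Gromov products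
  have hlim1 : Tendsto (fun N : ℕ => gp d u (h ^ N) a) (hyperfilter ℕ : Filter ℕ)
      (𝓝 (((d a u : ℝ) + (al d h a - be d h a) - (al d h u - be d h u)) / 2)) := by
    have := ((tendsto_const_nhds (x := (d a u : ℝ))).add ((al_tendsto hd hh a).sub
      (be_tendsto hd (h := h) a)) |>.sub ((al_tendsto hd hh u).sub
      (be_tendsto hd (h := h) u))).div_const 2
    refine this.congr fun N => ?_
    unfold gp
    ring
  have hlim2 : Tendsto (fun N : ℕ => gp d u ((h ^ N)⁻¹) a) (hyperfilter ℕ : Filter ℕ)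
      (𝓝 (((d a u : ℝ) + (al d h a + be d h a) - (al d h u + be d h u)) / 2)) := by
    have := ((tendsto_const_nhds (x := (d a u : ℝ))).add ((al_tendsto hd hh a).add
      (be_tendsto hd (h := h) a)) |>.sub ((al_tendsto hd hh u).add
      (be_tendsto hd (h := h) u))).div_const 2
    refine this.congr fun N => ?_
    unfold gp
    ring
  have hsym : (d a u : ℝ) = d u a := by rw [hd.symm]
  have hev1 : ∀ᶠ N in (hyperfilter ℕ : Filter ℕ), gp d u (h ^ N) a < 1 + δ := by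
    refine hlim1.eventually_lt_const ?_
    rw [ha, hsym]
    linarith [hab.1, hab.2]
  have hev2 : ∀ᶠ N in (hyperfilter ℕ : Filter ℕ), gp d u ((h ^ N)⁻¹) a < 1 + δ := by
    refine hlim2.eventually_lt_const ?_
    rw [ha, hsym]
    linarith [hab.1, hab.2]
  refine le_of_tendsto ((be_tendsto hd' (h := h) a).sub (be_tendsto hd' (h := h) u)).abs ?_
  filter_upwards [hev1, hev2] with N hN1 hN2
  have g1 := hml H d d' hd.toGMet hd'.toGMet hd'.hyp h1 h2 _ _ _ hN1.le
  have g2 := hml H d d' hd.toGMet hd'.toGMet hd'.hyp h1 h2 _ _ _ hN2.le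
  have g3 := gp_nonneg hd'.toGMet u (h ^ N) a
  have g4 := gp_nonneg hd'.toGMet u ((h ^ N)⁻¹) a
  have e : ((d' a ((h ^ N)⁻¹) : ℝ) - d' a (h ^ N)) / 2 - ((d' u ((h ^ N)⁻¹) : ℝ) - d' u (h ^ N)) / 2 =
      gp d' u ((h ^ N)⁻¹) a - gp d' u (h ^ N) a := by
    unfold gp
    ring
  rw [e, abs_le]
  constructor <;> linarith

end Pool.Agent.MHN
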