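import Pool.Agent.MHN.TransA

/-!
Module TransB (difficulty 4): quasi-invariance of the phase (position in units of the translation
length) under bi-Lipschitz change of metric.

Write `ℓ = tl d h`, `ℓ' = tl d' h`, `β = be d h`, `β' = be d' h`, `α, α'` for `al`.
Let `n` be the nearest integer to `(β u - β v) / ℓ`, `v' = h ^ n * v`. By `be_shift`
`|β u - β v'| ≤ ℓ/2 + 6 δ`. Let `a, b` be axis points (`axis_point`, metric `d`) for `u`, `v'`:
`α a = α b = 0`, `|β a - β u|, |β b - β v'| ≤ 1/2`. So `X = β b - β a` has `|X| ≤ ℓ/2 + 6 δ + 1`.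
The points `p = h⁻¹ * a`, `q = h * a` have `α ≤ 6 δ`, `β p = β a - ℓ ± 6 δ`, `β q = β a + ℓ ± 6 δ`.
By `fermi_upper`: `d b q ≤ 6 δ + |X - ℓ| + 6 δ + 2 δ`, `d b p ≤ 6 δ + |X + ℓ| + 6 δ + 2 δ`, and
`|X - ℓ| + |X + ℓ| = max (2 ℓ, 2 |X|) ≤ 2 ℓ + 12 δ + 2`; by `be_lip`,
`d p q ≥ |β q - β p| ≥ 2 ℓ - 12 δ`. So `gp d p q b ≤ ½ (28 δ + 12 δ + 2 + 12 δ) = 26 δ + 1`.
`morse_lemma` (for `r = 26 δ + 1`, constant `r₁`) gives `gp d' p q b ≤ r₁`. `trans_al` with `r = 0`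
(constant `r₀`) gives `α' a ≤ r₀`, so by `fermi_upper`, `al_shift`, `be_shift` for `d'`:
`d' a (h a) ≤ 2 r₀ + ℓ' + 14 δ`. As `d' p q ≤ 2 d' a (h a)` (left-invariance: `d' p a = d' a (h a)`),
`d' b q ≤ d' p q + 2 r₁` and `d' a b ≤ d' a q + d' q b ≤ 3 d' a (h a) + 2 r₁`. So
`|β' a - β' b| ≤ d' a b ≤ 3 ℓ' + 6 r₀ + 42 δ + 2 r₁`. With `trans_axis` (constant `ρ`):
`|β' u - β' v'| ≤ 3 ℓ' + 6 r₀ + 42 δ + 2 r₁ + 2 ρ`. With `be_shift` for `d'`:
`|(β' u - β' v) - n ℓ'| ≤ 3 ℓ' + R`, `R = 6 r₀ + 48 δ + 2 r₁ + 2 ρ`. Divide by `ℓ' > 0` and use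
`|(β u - β v)/ℓ - n| ≤ 1/2`: the total is `≤ 3 + 1/2 + R / ℓ'`.
(`R` has to be chosen before `δ ≥ 0` is known: take `max 0` or `|δ|`.)
-/

set_option autoImplicit false

open Filter Topology

namespace Pool.Agent.MHN

universe u

private theorem TransB_core {H : Type u} [Group H] {δ r₀ ρ r₁ : ℝ} {d d' : H → H → ℕ}
    (hδ : 0 ≤ δ) (hd : LMet H δ d) (hd' : LMet H δ d') {h : H} (hh : ¬ IsOfFinOrder h)
    (Hr₀ : ∀ u, al d h u ≤ 0 → al d' h u ≤ r₀)
    (Hρ : ∀ u a, al d h a = 0 → |be d h a - be d h u| ≤ 1 / 2 → |be d' h a - be d' h u| ≤ ρ)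
    (Hr₁ : ∀ a b c, gp d a b c ≤ 26 * δ + 1 → gp d' a b c ≤ r₁) (u v : H) :
    ∃ n : ℤ, |(be d h u - be d h v) / tl d h - n| ≤ 1 / 2 ∧
      |be d' h u - be d' h v - n * tl d' h| ≤
        3 * tl d' h + (6 * r₀ + 48 * δ + 2 * r₁ + 2 * ρ) := by
  have hl : 0 < tl d h := tl_pos hd hh
  have hl' : 0 < tl d' h := tl_pos hd' hh
  set ℓ := tl d h with hℓ
  set ℓ' := tl d' h with hℓ'
  refine ⟨round ((be d h u - be d h v) / ℓ), abs_sub_round _, ?_⟩
  set n := round ((be d h u - be d h v) / ℓ) with hn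
  have hn1 : |(be d h u - be d h v) / ℓ - n| ≤ 1 / 2 := abs_sub_round _
  have hn2 : |be d h u - be d h v - n * ℓ| ≤ ℓ / 2 := by
    have e1 : be d h u - be d h v - n * ℓ = ((be d h u - be d h v) / ℓ - n) * ℓ := by
      field_simp
    rw [e1, abs_mul, abs_of_pos hl]
    nlinarith
  have s1 := be_shift hd hh v n
  have s1' := be_shift hd' hh v n
  set v' := h ^ n * v with hv'
  obtain ⟨a, ha1, ha2⟩ := axis_point hd hh u
  obtain ⟨b, hb1, hb2⟩ := axis_point hd hh v'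
  have sp := be_shift hd hh a (-1)
  have sq := be_shift hd hh a 1
  have tp := al_shift hd hh a (-1)
  have tq := al_shift hd hh a 1
  rw [zpow_neg_one] at sp tp
  rw [zpow_one] at sq tq
  push_cast at sp sq
  set p := h⁻¹ * a with hp
  set q := h * a with hq
  have fbq := fermi_upper hd hh b q
  have fbp := fermi_upper hd hh b p
  have lpq := be_lip (h := h) hd q p
  rw [ha1] at tp tq
  rw [hb1] at fbq fbp
  have hsym : d q p = d p q := hd.symm q p
  rw [hsym] at lpq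
  rw [← hℓ] at s1 sp sq
  rw [← hℓ'] at s1'
  -- the Gromov product
  have hX : |be d h b - be d h a| ≤ ℓ / 2 + 6 * δ + 1 := by
    rw [abs_le] at *
    constructor <;> linarith [hn2.1, hn2.2, s1.1, s1.2, ha2.1, ha2.2, hb2.1, hb2.2]
  have hgp : gp d p q b ≤ 26 * δ + 1 := by
    have q1 : |be d h b - be d h q| ≤ |be d h b - be d h a - ℓ| + 6 * δ := by
      have e : be d h b - be d h q = (be d h b - be d h a - ℓ) - (be d h q - be d h a - 1 * ℓ) := by
        ring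
      rw [e]
      exact (abs_sub _ _).trans (add_le_add le_rfl sq)
    have q2 : |be d h b - be d h p| ≤ |be d h b - be d h a + ℓ| + 6 * δ := by
      have e : be d h b - be d h p =
        (be d h b - be d h a + ℓ) - (be d h p - be d h a - (-1) * ℓ) := by
        ring
      rw [e]
      exact (abs_sub _ _).trans (add_le_add le_rfl sp)
    have q3 : |be d h b - be d h a - ℓ| + |be d h b - be d h a + ℓ| ≤ 2 * ℓ + 12 * δ + 2 := by
      rcases abs_cases (be d h b - be d h a - ℓ) with ⟨e1, _⟩ | ⟨e1, _⟩ <;>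
      rcases abs_cases (be d h b - be d h a + ℓ) with ⟨e2, _⟩ | ⟨e2, _⟩ <;>
      rw [e1, e2] <;> rw [abs_le] at hX <;> linarith [hX.1, hX.2]
    have q4 : 2 * ℓ - 12 * δ ≤ (d p q : ℝ) := by
      have := le_abs_self (be d h q - be d h p)
      rw [abs_le] at sp sq
      linarith [sp.1, sp.2, sq.1, sq.2]
    have q5 : al d h p ≤ 6 * δ := by
      have := le_abs_self (al d h p - 0); linarith
    have q6 : al d h q ≤ 6 * δ := by
      have := le_abs_self (al d h q - 0); linarith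
    unfold gp
    linarith
  have hgp' := Hr₁ _ _ _ hgp
  unfold gp at hgp'
  have ha' := Hr₀ a ha1.le
  have fa := fermi_upper hd' hh a q
  have sq' := be_shift hd' hh a 1
  have tq' := al_shift hd' hh a 1
  rw [zpow_one] at sq' tq'
  rw [← hq, ← hℓ'] at sq'
  rw [← hq] at tq'
  push_cast at sq'
  have fa' : (d' a q : ℝ) ≤ 2 * r₀ + ℓ' + 14 * δ := by
    have e1 : |be d' h a - be d' h q| ≤ ℓ' + 6 * δ := by
      rw [abs_le] at sq' ⊢
      constructor <;> linarith [sq'.1, sq'.2]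
    have e2 := le_abs_self (al d' h q - al d' h a)
    linarith
  have hpa : d' p a = d' a q := by
    have := hd'.left h p a
    rw [← this, hp, hq, mul_inv_cancel_left]
  have hpq : (d' p q : ℝ) ≤ 2 * d' a q := by
    have := hd'.tri p a q
    rw [hpa] at this
    have h2 : ((d' p q : ℕ) : ℝ) ≤ ((d' a q + d' a q : ℕ) : ℝ) := by exact_mod_cast this
    push_cast at h2
    linarith
  have hab : (d' a b : ℝ) ≤ d' a q + d' b q := by
    have := hd'.tri a q b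
    rw [hd'.symm q b] at this
    exact_mod_cast this
  have hbp : (0 : ℝ) ≤ d' b p := Nat.cast_nonneg _
  have lab := be_lip (h := h) hd' a b
  have ra := Hρ u a ha1 ha2
  have rb := Hρ v' b hb1 hb2
  have fin1 : |be d' h a - be d' h b| ≤ 3 * ℓ' + 6 * r₀ + 42 * δ + 2 * r₁ := by linarith
  rw [abs_le] at fin1 ra rb s1' ⊢
  constructor <;> linarith [fin1.1, fin1.2, ra.1, ra.2, rb.1, rb.2, s1'.1, s1'.2]

theorem trans_be (δ : ℝ) (K : ℕ) : ∃ R : ℝ, 0 ≤ R ∧ ∀ (H : Type u) [Group H]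
    (d d' : H → H → ℕ), LMet H δ d → LMet H δ d' → (∀ x y, d' x y ≤ K * d x y) →
    (∀ x y, d x y ≤ K * d' x y) → ∀ h : H, ¬ IsOfFinOrder h → ∀ u v,
    |(be d' h u - be d' h v) / tl d' h - (be d h u - be d h v) / tl d h| ≤
      4 + R * (1 / tl d h + 1 / tl d' h) := by
  obtain ⟨r₀, hr₀, Hr₀⟩ := trans_al.{u} δ 0 K
  obtain ⟨ρ, hρ, Hρ⟩ := trans_axis.{u} δ K
  obtain ⟨r₁, hr₁, Hr₁⟩ := morse_lemma.{u} δ (26 * δ + 1) K
  refine ⟨6 * r₀ + 48 * |δ| + 2 * r₁ + 2 * ρ, by positivity, ?_⟩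
  intro H _ d d' hd hd' hK hK' h hh u v
  have hδ : 0 ≤ δ := by
    have h0 := hd.hyp 1 1 1 1
    have h1 := hd.self 1
    rw [h1] at h0
    norm_num at h0
    linarith
  rw [abs_of_nonneg hδ]
  have hl : 0 < tl d h := tl_pos hd hh
  have hl' : 0 < tl d' h := tl_pos hd' hh
  have trb := TransB_core hδ hd hd' hh (Hr₀ H d d' hd hd' hK hK' h hh) (Hρ H d d' hd hd' hK hK' h hh)
    (Hr₁ H d d' hd.toGMet hd'.toGMet hd'.hyp hK hK') u v
  obtain ⟨n, hn1, hn2⟩ := trb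
  set ℓ := tl d h
  set ℓ' := tl d' h
  set R := 6 * r₀ + 48 * δ + 2 * r₁ + 2 * ρ with hR
  have hR0 : 0 ≤ R := by positivity
  have h1 : |(be d' h u - be d' h v) / ℓ' - n| ≤ 3 + R / ℓ' := by
    have e1 : (be d' h u - be d' h v) / ℓ' - n = (be d' h u - be d' h v - n * ℓ') / ℓ' := by
      field_simp
    have e2 : 3 + R / ℓ' = (3 * ℓ' + R) / ℓ' := by field_simp
    rw [e1, e2, abs_div, abs_of_pos hl']
    gcongr
  have h2 : |(be d' h u - be d' h v) / ℓ' - (be d h u - be d h v) / ℓ| ≤ 3 + R / ℓ' + 1 / 2 := by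
    have e : (be d' h u - be d' h v) / ℓ' - (be d h u - be d h v) / ℓ =
      ((be d' h u - be d' h v) / ℓ' - n) - ((be d h u - be d h v) / ℓ - n) := by ring
    rw [e]
    exact (abs_sub _ _).trans (add_le_add h1 hn1)
  have h3 : 0 ≤ R * (1 / ℓ) := by positivity
  have h4 : R / ℓ' = R * (1 / ℓ') := by ring
  rw [mul_add]
  linarith

end Pool.Agent.MHN
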